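import Mathlib
import Pool.Agent.H36.RW.Core

/-!
Counting the `l` for which given elements of a window are divisible by given large primes and have no
small prime factors.
-/

set_option autoImplicit false

namespace Pool.Agent.H36.BF
open Finset Pool.Agent.H36.RW Pool.Agent.H373R2.T7

lemma root_ex (p q s : ℕ) (hp : p.Prime) (hq : ¬ p ∣ q) : ∃ a : ℕ, p ∣ q * a + s := by
  have : Fact p.Prime := ⟨hp⟩
  have : NeZero p := ⟨hp.ne_zero⟩
  have hq0 : (q : ZMod p) ≠ 0 := fun h => hq ((ZMod.natCast_eq_zero_iff q p).1 h)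
  refine ⟨((-(s : ZMod p)) * (q : ZMod p)⁻¹).val, ?_⟩
  rw [← ZMod.natCast_eq_zero_iff]
  push_cast
  rw [ZMod.natCast_zmod_val]
  field_simp
  ring

lemma root_iff (p q s a l : ℕ) (hp : p.Prime) (hq : ¬ p ∣ q) (ha : p ∣ q * a + s) :
    p ∣ q * l + s ↔ l ≡ a [MOD p] := by
  have : Fact p.Prime := ⟨hp⟩
  have hq0 : (q : ZMod p) ≠ 0 := fun h => hq ((ZMod.natCast_eq_zero_iff q p).1 h)
  rw [← ZMod.natCast_eq_zero_iff] at ha ⊢
  rw [← ZMod.natCast_eq_natCast_iff]
  push_cast at ha ⊢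
  constructor
  · intro h
    apply mul_left_cancel₀ hq0
    linear_combination h - ha
  · intro h
    rw [h]
    exact ha

/-- a residue class -/
lemma class_of (q r : ℕ) (M : Finset ℕ) (hM : ∀ p ∈ M, p.Prime ∧ ¬ p ∣ q) (g : ℕ → ℕ) :
    ∃ a < ∏ p ∈ M, p, ∀ l : ℕ, (∀ p ∈ M, p ∣ q * l + r + g p) ↔ l ≡ a [MOD ∏ p ∈ M, p] := by
  classical
  have h1 : ∀ p ∈ M, ∃ a : ℕ, p ∣ q * a + (r + g p) := fun p hp => root_ex p q (r + g p) (hM p hp).1 (hM p hp).2
  choose! a ha using h1
  have hco : Set.Pairwise (↑M : Set ℕ) (Function.onFun Nat.Coprime (fun p : ℕ => p)) := by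
    intro p hp p' hp' hne
    exact (Nat.coprime_primes (hM p hp).1 (hM p' hp').1).2 hne
  obtain ⟨k, hk⟩ := Nat.chineseRemainderOfFinset a (fun p => p) M (fun p hp => (hM p hp).1.ne_zero) hco
  have hpos : 0 < ∏ p ∈ M, p := Nat.pos_of_ne_zero (prod_ne_zero_iff.2 fun p hp => (hM p hp).1.ne_zero)
  refine ⟨k % ∏ p ∈ M, p, Nat.mod_lt _ hpos, fun l => ?_⟩
  have h2 : l ≡ k % ∏ p ∈ M, p [MOD ∏ p ∈ M, p] ↔ l ≡ k [MOD ∏ p ∈ M, p] := by
    constructor
    · intro h
      exact h.trans (Nat.mod_modEq _ _)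
    · intro h
      exact h.trans (Nat.mod_modEq _ _).symm
  rw [h2]
  have h3 : l ≡ k [MOD ∏ p ∈ M, p] ↔ ∀ p ∈ M, l ≡ k [MOD p] := by
    constructor
    · intro h p hp
      exact h.of_dvd (dvd_prod_of_mem (fun p => p) hp)
    · intro h
      rw [Nat.modEq_iff_dvd]
      have h4 : ∏ p ∈ M, (p : ℤ) ∣ (k : ℤ) - l := by
        apply Finset.prod_dvd_of_coprime
        · intro p hp p' hp' hne
          exact (Nat.isCoprime_iff_coprime).2 (hco hp hp' hne)
        · intro p hp
          exact (Nat.modEq_iff_dvd).1 (h p hp)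
      push_cast
      exact h4
  rw [h3]
  constructor
  · intro h p hp
    have h5 := h p hp
    rw [add_assoc] at h5
    exact ((root_iff p q _ (a p) l (hM p hp).1 (hM p hp).2 (ha p hp)).1 h5).trans (hk p hp).symm
  · intro h p hp
    rw [add_assoc]
    exact (root_iff p q _ (a p) l (hM p hp).1 (hM p hp).2 (ha p hp)).2 ((h p hp).trans (hk p hp))

/-- the count -/
def NF (q r : ℕ) (P1 : Finset ℕ) (X n : ℕ) (f : Fin n → ℕ) (V : Fin n → Finset ℕ) : ℕ :=
  ((Icc 1 X).filter (fun l => (∀ p ∈ P1, ∀ h ∈ univ.image f, ¬ p ∣ q * l + r + h) ∧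
    ∀ i, ∀ p ∈ V i, p ∣ q * l + r + f i)).card

/-- no prime divides two different elements -/
def Comp {n : ℕ} (f : Fin n → ℕ) (V : Fin n → Finset ℕ) : Prop := ∀ i j p, p ∈ V i → p ∈ V j → f i = f j

open Classical in
/-- the density -/
noncomputable def tau {n : ℕ} (f : Fin n → ℕ) (V : Fin n → Finset ℕ) : ℝ :=
  if Comp f V then ∏ p ∈ univ.biUnion V, (1 / (p : ℝ)) else 0

lemma tau_nonneg {n : ℕ} (f : Fin n → ℕ) (V : Fin n → Finset ℕ) : 0 ≤ tau f V := by
  unfold tau
  split_ifs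
  · exact prod_nonneg fun p _ => by positivity
  · exact le_rfl

lemma count_mod (X a D : ℕ) (haD : a < D) (Pr : ℕ → Prop) [DecidablePred Pr] :
    |(((Icc 1 X).filter (fun l => Pr l ∧ l ≡ a [MOD D])).card : ℝ) -
      (((Icc 1 ((X - a) / D)).filter (fun l => Pr (D * l + a))).card : ℝ)| ≤ 1 := by
  classical
  have hD : 0 < D := by omega
  set A := (Icc 1 X).filter (fun l => Pr l ∧ l ≡ a [MOD D]) with hA
  set B := (Icc 1 ((X - a) / D)).filter (fun l => Pr (D * l + a)) with hB
  have h1 : B.card ≤ A.card := by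
    apply card_le_card_of_injOn (fun l => D * l + a)
    · intro l hl
      rw [hB, mem_coe, mem_filter, mem_Icc] at hl
      rw [hA, mem_coe, mem_filter, mem_Icc]
      obtain ⟨⟨h2, h3⟩, h4⟩ := hl
      have h5 : D * l ≤ X - a := by
        calc D * l ≤ D * ((X - a) / D) := Nat.mul_le_mul_left _ h3
          _ ≤ X - a := Nat.mul_div_le _ _
      have h6 : D ≤ D * l := Nat.le_mul_of_pos_right _ h2
      have h7 : 1 ≤ D * l + a ∧ D * l + a ≤ X := by omega
      refine ⟨h7, h4, ?_⟩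
      have : D * l + a ≡ 0 + a [MOD D] := Nat.ModEq.add_right _ (Nat.modEq_zero_iff_dvd.2 (dvd_mul_right _ _))
      rwa [zero_add] at this
    · intro l _ l' _ h
      have : D * l = D * l' := by
        simp only at h
        omega
      exact Nat.eq_of_mul_eq_mul_left hD this
  have h2 : A.card ≤ (insert 0 B).card := by
    apply card_le_card_of_injOn (fun l => l / D)
    · intro l hl
      rw [hA, mem_coe, mem_filter, mem_Icc] at hl
      obtain ⟨⟨h2, h3⟩, h4, h5⟩ := hl
      rw [mem_coe, mem_insert]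
      rcases Nat.eq_zero_or_pos (l / D) with h6 | h6
      · exact Or.inl h6
      · right
        have h7 : l % D = a := by
          have := h5
          unfold Nat.ModEq at this
          rwa [Nat.mod_eq_of_lt haD] at this
        have h8 : D * (l / D) + a = l := by rw [← h7]; exact Nat.div_add_mod l _
        rw [hB, mem_filter, mem_Icc]
        refine ⟨⟨h6, ?_⟩, ?_⟩
        · rw [Nat.le_div_iff_mul_le hD]
          rw [mul_comm] at h8
          have h9 : l / D * D ≤ X - a := by omega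
          exact h9
        · rw [h8]; exact h4
    · intro l hl l' hl' h
      rw [hA, mem_coe, mem_filter] at hl hl'
      have h5 := hl.2.2
      have h5' := hl'.2.2
      unfold Nat.ModEq at h5 h5'
      have h8 := Nat.div_add_mod l D
      have h9 := Nat.div_add_mod l' D
      simp only at h
      rw [h5] at h8
      rw [h5'] at h9
      rw [← h8, ← h9, h]
  have h3 := h2.trans (card_insert_le _ _)
  have h4 : (B.card : ℝ) ≤ A.card := by exact_mod_cast h1
  have h5 : (A.card : ℝ) ≤ B.card + 1 := by exact_mod_cast h3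
  rw [abs_le]
  constructor <;> linarith

lemma rho_le_one (P J : Finset ℕ) (hP : ∀ p ∈ P, p.Prime) : rho P J ≤ 1 := by
  unfold rho
  apply prod_le_one
  · intro p hp
    have h0 := (hP p hp).pos
    have h1 : (nu p J : ℝ) / p ≤ 1 := by
      rw [div_le_one (by exact_mod_cast h0)]
      exact_mod_cast nu_le_p p h0 J
    linarith
  · intro p _
    have : (0 : ℝ) ≤ (nu p J : ℝ) / p := by positivity
    linarith

theorem cnt : ∃ C0 : ℕ, 1 ≤ C0 ∧ ∀ (b Jd z0 q r T n X : ℕ) (P1 : Finset ℕ) (f : Fin n → ℕ) (V : Fin n → Finset ℕ),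
    C0 * n ≤ b → 2 ≤ b → 2 * n + 10 ≤ z0 → (∀ p ∈ P1, p.Prime ∧ z0 < p ∧ p ≤ 2 ^ 2 ^ Jd ∧ ¬ p ∣ q) →
    (∀ i, f i ∈ Icc 1 T) → (∀ i, ∀ p ∈ V i, p.Prime ∧ T < p ∧ ¬ p ∣ q ∧ p ∉ P1) →
    |(NF q r P1 X n f V : ℝ) - X * (rho P1 (univ.image f) * tau f V)| ≤
      (1 / 2 : ℝ) ^ b * (X * (rho P1 (univ.image f) * tau f V)) +
        (((Jd : ℝ) + 2) * (((2 : ℝ) ^ 2 ^ Jd) ^ (10 * b)) ^ 2 + 3) := by
  classical
  obtain ⟨C0, hC0, hint⟩ := int_count'
  refine ⟨C0, hC0, ?_⟩
  intro b Jd z0 q r T n X P1 f V hb hb2 hz0 hP1 hf hV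
  set E : ℝ := ((Jd : ℝ) + 2) * (((2 : ℝ) ^ 2 ^ Jd) ^ (10 * b)) ^ 2 with hE
  have hE0 : 0 ≤ E := by rw [hE]; positivity
  by_cases hc : Comp f V
  · have htau : tau f V = ∏ p ∈ univ.biUnion V, (1 / (p : ℝ)) := by unfold tau; rw [if_pos hc]
    set M := univ.biUnion V with hM
    have hMp : ∀ p ∈ M, p.Prime ∧ T < p ∧ ¬ p ∣ q ∧ p ∉ P1 := by
      intro p hp
      rw [hM, mem_biUnion] at hp
      obtain ⟨i, _, hi⟩ := hp
      exact hV i p hi
    -- the position of a prime
    have hg : ∀ p ∈ M, ∃ i, p ∈ V i := by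
      intro p hp
      rw [hM, mem_biUnion] at hp
      obtain ⟨i, _, hi⟩ := hp
      exact ⟨i, hi⟩
    set g : ℕ → ℕ := fun p => if h : ∃ i, p ∈ V i then f h.choose else 0 with hgd
    have hg2 : ∀ i, ∀ p ∈ V i, g p = f i := by
      intro i p hp
      have h1 : ∃ i, p ∈ V i := ⟨i, hp⟩
      simp only [hgd, dif_pos h1]
      exact hc _ _ p h1.choose_spec hp
    obtain ⟨a, haD, ha⟩ := class_of q r M (fun p hp => ⟨(hMp p hp).1, (hMp p hp).2.2.1⟩) g
    set D := ∏ p ∈ M, p with hD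
    have hDpos : 0 < D := by omega
    have hDr : (0 : ℝ) < D := by exact_mod_cast hDpos
    have htau2 : tau f V = 1 / (D : ℝ) := by
      rw [htau, hD, Finset.prod_div_distrib]
      push_cast
      simp
    have e1 : NF q r P1 X n f V = ((Icc 1 X).filter (fun l =>
        (∀ p ∈ P1, ∀ h ∈ univ.image f, ¬ p ∣ q * l + r + h) ∧ l ≡ a [MOD D])).card := by
      unfold NF
      congr 1
      apply filter_congr
      intro l _
      rw [and_congr_right_iff]
      intro _
      rw [← ha l]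
      constructor
      · intro h p hp
        obtain ⟨i, hi⟩ := hg p hp
        rw [hg2 i p hi]
        exact h i p hi
      · intro h i p hp
        rw [← hg2 i p hp]
        exact h p (mem_biUnion.2 ⟨i, mem_univ _, hp⟩)
    have h1 := count_mod X a D haD (fun l => ∀ p ∈ P1, ∀ h ∈ univ.image f, ¬ p ∣ q * l + r + h)
    have e2 : ((Icc 1 ((X - a) / D)).filter (fun l => ∀ p ∈ P1, ∀ h ∈ univ.image f,
        ¬ p ∣ q * (D * l + a) + r + h)).card = NN (q * D) (q * a + r) P1 (Icc 1 ((X - a) / D)) (univ.image f) := by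
      unfold NN
      congr 1
      apply filter_congr
      intro l _
      have : ∀ h, q * (D * l + a) + r + h = q * D * l + (q * a + r) + h := fun h => by ring
      simp only [this]
    rw [← e1, e2] at h1
    have hPq : ∀ p ∈ P1, ¬ p ∣ q * D := by
      intro p hp hd
      rcases (Nat.Prime.dvd_mul (hP1 p hp).1).1 hd with h2 | h2
      · exact (hP1 p hp).2.2.2 h2
      · rw [hD, Prime.dvd_finsetProd_iff (hP1 p hp).1.prime] at h2
        obtain ⟨p', hp', h3⟩ := h2
        have h4 := (Nat.prime_dvd_prime_iff_eq (hP1 p hp).1 (hMp p' hp').1).1 h3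
        exact (hMp p' hp').2.2.2 (h4 ▸ hp)
    have hcard : (univ.image f).card ≤ n := by
      calc (univ.image f).card ≤ (univ : Finset (Fin n)).card := card_image_le
        _ = n := by simp
    have h2 := hint n b Jd z0 (q * D) (q * a + r) P1 (univ.image f) hb hb2 hz0
      (fun p hp => ⟨(hP1 p hp).1, (hP1 p hp).2.1, (hP1 p hp).2.2.1⟩) hPq hcard ((X - a) / D)
    rw [← hE] at h2
    set ρ := rho P1 (univ.image f) with hρ
    have hρ0 : 0 ≤ ρ := rho_nonneg P1 _ fun p hp => (hP1 p hp).1.pos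
    have hρ1 : ρ ≤ 1 := rho_le_one P1 _ fun p hp => (hP1 p hp).1
    set X' := (X - a) / D with hX'
    have hX1 : (X' : ℝ) ≤ X / D := by
      calc (X' : ℝ) ≤ ((X - a : ℕ) : ℝ) / D := Nat.cast_div_le
        _ ≤ X / D := by
          apply div_le_div_of_nonneg_right _ hDr.le
          exact_mod_cast Nat.sub_le _ _
    have hX2 : (X : ℝ) / D ≤ X' + 2 := by
      have h3 : X - a < (X' + 1) * D := by
        rw [mul_comm]
        exact Nat.lt_mul_div_succ (X - a) hDpos
      have h4 : X ≤ (X' + 2) * D := by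
        have : (X' + 2) * D = (X' + 1) * D + D := by ring
        rw [this]
        omega
      rw [div_le_iff₀ hDr]
      exact_mod_cast h4
    rw [htau2]
    have e3 : (X : ℝ) * (ρ * (1 / D)) = X / D * ρ := by ring
    rw [e3]
    have h5 : |(X' : ℝ) * ρ - X / D * ρ| ≤ 2 := by
      rw [← sub_mul, abs_mul, abs_of_nonneg hρ0]
      have h6 : |(X' : ℝ) - X / D| ≤ 2 := by
        rw [abs_le]
        constructor <;> linarith
      calc |(X' : ℝ) - X / D| * ρ ≤ 2 * 1 := mul_le_mul h6 hρ1 hρ0 (by norm_num)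
        _ = 2 := by norm_num
    have h7 : (1 / 2 : ℝ) ^ b * (X' * ρ) ≤ (1 / 2) ^ b * (X / D * ρ) := by
      apply mul_le_mul_of_nonneg_left _ (by positivity)
      exact mul_le_mul_of_nonneg_right hX1 hρ0
    set N : ℝ := (NF q r P1 X n f V : ℝ)
    set N' : ℝ := (NN (q * D) (q * a + r) P1 (Icc 1 X') (univ.image f) : ℝ)
    have h8 : |N - X / D * ρ| ≤ |N - N'| + |N' - X' * ρ| + |(X' : ℝ) * ρ - X / D * ρ| := by
      have := abs_add_le ((N - N') + (N' - X' * ρ)) ((X' : ℝ) * ρ - X / D * ρ)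
      have h9 := abs_add_le (N - N') (N' - X' * ρ)
      have e4 : N - X / D * ρ = (N - N') + (N' - X' * ρ) + ((X' : ℝ) * ρ - X / D * ρ) := by ring
      rw [e4]
      linarith
    linarith
  · have htau : tau f V = 0 := by unfold tau; rw [if_neg hc]
    have hN : NF q r P1 X n f V = 0 := by
      unfold NF
      rw [card_eq_zero, filter_eq_empty_iff]
      rintro l _ ⟨_, h2⟩
      apply hc
      intro i j p hpi hpj
      have h3 := h2 i p hpi
      have h4 := h2 j p hpj
      have h5 := (hV i p hpi).2.1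
      have h6 := mem_Icc.1 (hf i)
      have h7 := mem_Icc.1 (hf j)
      have h8 : (p : ℤ) ∣ (f i : ℤ) - f j := by
        have a1 : (p : ℤ) ∣ ((q * l + r + f i : ℕ) : ℤ) := Int.natCast_dvd_natCast.2 h3
        have a2 : (p : ℤ) ∣ ((q * l + r + f j : ℕ) : ℤ) := Int.natCast_dvd_natCast.2 h4
        have a3 := dvd_sub a1 a2
        have a4 : ((q * l + r + f i : ℕ) : ℤ) - ((q * l + r + f j : ℕ) : ℤ) = (f i : ℤ) - f j := by
          push_cast
          ring
        rwa [a4] at a3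
      by_contra hne
      have h9 : (f i : ℤ) - f j ≠ 0 := by omega
      have h10 := Int.le_of_dvd (abs_pos.2 h9) ((dvd_abs _ _).2 h8)
      have h11 : |(f i : ℤ) - f j| < T := by
        rw [abs_lt]
        constructor <;> omega
      omega
    rw [htau, hN]
    simp
    positivity

end Pool.Agent.H36.BF
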