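import Mathlib
import Pool.Agent.H36.BF.Cnt

/-!
Moments of sums of divisor weights over the survivors: combinatorial part.
-/

set_option autoImplicit false

namespace Pool.Agent.H36.BF
open Finset Pool.Agent.H36.RW Pool.Agent.H373R2.T7

section expand

variable {ι : Type}

open Classical in
/-- the value of the weights at `m` -/
noncomputable def Lam (U : Finset ι) (s : ι → Finset ℕ) (c : ι → ℝ) (m : ℕ) : ℝ :=
  ∑ u ∈ U, if ∀ p ∈ s u, p ∣ m then c u else 0

/-- sum of the weights over the survivors -/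
noncomputable def YY (q r : ℕ) (P1 S : Finset ℕ) (U : Finset ι) (s : ι → Finset ℕ) (c : ι → ℝ) (l : ℕ) : ℝ :=
  ∑ h ∈ S.filter (fun h => ∀ p ∈ P1, ¬ p ∣ q * l + r + h), Lam U s c (q * l + r + h)

theorem YY_pow (q r : ℕ) (P1 S : Finset ℕ) (U : Finset ι) (s : ι → Finset ℕ) (c : ι → ℝ) (X n : ℕ) :
    ∑ l ∈ Icc 1 X, YY q r P1 S U s c l ^ n =
      ∑ f ∈ Fintype.piFinset (fun _ : Fin n => S), ∑ V ∈ Fintype.piFinset (fun _ : Fin n => U),
        (∏ i, c (V i)) * (NF q r P1 X n f (fun i => s (V i)) : ℝ) := by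
  classical
  have h1 : ∀ l ∈ Icc 1 X, YY q r P1 S U s c l ^ n =
      ∑ f ∈ Fintype.piFinset (fun _ : Fin n => S), ∑ V ∈ Fintype.piFinset (fun _ : Fin n => U),
        if (∀ p ∈ P1, ∀ h ∈ univ.image f, ¬ p ∣ q * l + r + h) ∧ ∀ i, ∀ p ∈ s (V i), p ∣ q * l + r + f i
          then ∏ i, c (V i) else 0 := by
    intro l _
    unfold YY
    rw [sum_filter, Finset.sum_pow']
    apply sum_congr rfl
    intro f _
    rw [Fintype.prod_ite_zero]
    unfold Lam
    rw [prod_univ_sum]
    have h2 : ∀ V ∈ Fintype.piFinset (fun _ : Fin n => U),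
        (∏ i, if ∀ p ∈ s (V i), p ∣ q * l + r + f i then c (V i) else 0) =
          if ∀ i, ∀ p ∈ s (V i), p ∣ q * l + r + f i then ∏ i, c (V i) else 0 := by
      intro V _
      rw [Fintype.prod_ite_zero]
      split_ifs <;> rfl
    rw [sum_congr rfl h2]
    by_cases h3 : ∀ i, ∀ p ∈ P1, ¬ p ∣ q * l + r + f i
    · rw [if_pos h3]
      apply sum_congr rfl
      intro V _
      have h4 : ∀ p ∈ P1, ∀ h ∈ univ.image f, ¬ p ∣ q * l + r + h := by
        intro p hp h hh
        obtain ⟨i, _, rfl⟩ := mem_image.1 hh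
        exact h3 i p hp
      by_cases h5 : ∀ i, ∀ p ∈ s (V i), p ∣ q * l + r + f i
      · rw [if_pos h5, if_pos ⟨h4, h5⟩]
      · rw [if_neg h5, if_neg fun h6 => h5 h6.2]
    · rw [if_neg h3]
      symm
      apply sum_eq_zero
      intro V _
      rw [if_neg]
      rintro ⟨h4, _⟩
      apply h3
      intro i p hp
      exact h4 p hp (f i) (mem_image_of_mem f (mem_univ i))
  rw [sum_congr rfl h1, sum_comm]
  apply sum_congr rfl
  intro f _
  rw [sum_comm]
  apply sum_congr rfl
  intro V _
  rw [← sum_filter, sum_const, nsmul_eq_mul, mul_comm]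
  unfold NF
  congr 3

end expand

/-- upper bound for the total density -/
theorem tau_sum (P2 : Finset ℕ) (hP2 : ∀ p ∈ P2, p.Prime) (n : ℕ) (f : Fin n → ℕ) :
    ∑ V ∈ Fintype.piFinset (fun _ : Fin n => P2.powerset), tau f V ≤ ∏ p ∈ P2, (1 + (2 : ℝ) ^ n / p) := by
  classical
  have h1 : ∀ V ∈ Fintype.piFinset (fun _ : Fin n => P2.powerset), tau f V ≤ ∏ p ∈ univ.biUnion V, (1 / (p : ℝ)) := by
    intro V _
    unfold tau
    split_ifs
    · exact le_rfl
    · exact prod_nonneg fun p _ => by positivity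
  refine (sum_le_sum h1).trans ?_
  have hmap : ∀ V ∈ Fintype.piFinset (fun _ : Fin n => P2.powerset), univ.biUnion V ∈ P2.powerset := by
    intro V hV
    rw [Fintype.mem_piFinset] at hV
    rw [mem_powerset]
    intro p hp
    obtain ⟨i, _, hi⟩ := mem_biUnion.1 hp
    exact mem_powerset.1 (hV i) hi
  rw [← sum_fiberwise_of_maps_to hmap]
  rw [Finset.prod_one_add]
  apply sum_le_sum
  intro M _
  have h2 : ∀ V ∈ (Fintype.piFinset (fun _ : Fin n => P2.powerset)).filter (fun V => univ.biUnion V = M),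
      ∏ p ∈ univ.biUnion V, (1 / (p : ℝ)) = ∏ p ∈ M, (1 / (p : ℝ)) := by
    intro V hV
    rw [(mem_filter.1 hV).2]
  rw [sum_congr rfl h2, sum_const, nsmul_eq_mul]
  have h3 : ((Fintype.piFinset (fun _ : Fin n => P2.powerset)).filter (fun V => univ.biUnion V = M)).card ≤
      (2 ^ n) ^ M.card := by
    calc _ ≤ (Fintype.piFinset (fun _ : Fin n => M.powerset)).card := by
          apply card_le_card
          intro V hV
          rw [mem_filter] at hV
          rw [Fintype.mem_piFinset]
          intro i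
          rw [mem_powerset, ← hV.2]
          intro p hp
          exact mem_biUnion.2 ⟨i, mem_univ _, hp⟩
      _ = (2 ^ n) ^ M.card := by
          rw [Fintype.card_piFinset, prod_const, card_powerset, card_univ, Fintype.card_fin, ← pow_mul, ← pow_mul,
            mul_comm]
  have h4 : ∏ p ∈ M, ((2 : ℝ) ^ n / p) = ((2 : ℝ) ^ n) ^ M.card * ∏ p ∈ M, (1 / (p : ℝ)) := by
    rw [← prod_const, ← prod_mul_distrib]
    apply prod_congr rfl
    intro p _
    ring
  rw [h4]
  apply mul_le_mul_of_nonneg_right _ (prod_nonneg fun p _ => by positivity)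
  exact_mod_cast h3

lemma sum_biUnion_le' {α β : Type} [DecidableEq β] (M : Finset α) (t : α → Finset β) (f : β → ℝ)
    (hf : ∀ b, 0 ≤ f b) : ∑ b ∈ M.biUnion t, f b ≤ ∑ a ∈ M, ∑ b ∈ t a, f b := by
  classical
  induction M using Finset.induction_on with
  | empty => simp
  | insert a M ha ih =>
    rw [biUnion_insert, sum_insert ha]
    have h1 := sum_union_inter (s₁ := t a) (s₂ := M.biUnion t) (f := f)
    have h2 : 0 ≤ ∑ b ∈ t a ∩ M.biUnion t, f b := sum_nonneg fun b _ => hf b
    linarith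

section

variable {ι : Type}

/-- the same with an index type -/
theorem tau_sum' (P2 : Finset ℕ) (hP2 : ∀ p ∈ P2, p.Prime) (n : ℕ) (f : Fin n → ℕ) (U : Finset ι) (s : ι → Finset ℕ)
    (hs : ∀ u ∈ U, s u ⊆ P2) (hinj : ∀ u ∈ U, ∀ u' ∈ U, s u = s u' → u = u') :
    ∑ V ∈ Fintype.piFinset (fun _ : Fin n => U), tau f (fun i => s (V i)) ≤ ∏ p ∈ P2, (1 + (2 : ℝ) ^ n / p) := by
  classical
  refine le_trans ?_ (tau_sum P2 hP2 n f)
  have h1 : ∑ V ∈ Fintype.piFinset (fun _ : Fin n => U), tau f (fun i => s (V i)) =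
      ∑ V ∈ (Fintype.piFinset (fun _ : Fin n => U)).image (fun V i => s (V i)), tau f V := by
    rw [sum_image]
    intro V hV V' hV' h
    rw [mem_coe, Fintype.mem_piFinset] at hV hV'
    funext i
    exact hinj _ (hV i) _ (hV' i) (congrFun h i)
  rw [h1]
  apply sum_le_sum_of_subset_of_nonneg
  · intro V hV
    obtain ⟨V', hV', rfl⟩ := mem_image.1 hV
    rw [Fintype.mem_piFinset] at hV' ⊢
    intro i
    exact mem_powerset.2 (hs _ (hV' i))
  · intro V _ _
    exact tau_nonneg f V

lemma biUnion_insertNth {m : ℕ} (i0 : Fin (m + 1)) (u : ι) (V : Fin m → ι) (s : ι → Finset ℕ) :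
    (univ.biUnion fun i => s (i0.insertNth (α := fun _ => ι) u V i)) = s u ∪ univ.biUnion fun i => s (V i) := by
  classical
  ext p
  simp only [mem_biUnion, mem_univ, true_and, mem_union]
  rw [Fin.exists_iff_succAbove i0]
  simp

/-- splitting off one coordinate whose position occurs only once -/
lemma tau_insertNth {m : ℕ} (i0 : Fin (m + 1)) (f : Fin (m + 1) → ℕ) (hf : ∀ i, f (i0.succAbove i) ≠ f i0)
    (u : ι) (V : Fin m → ι) (s : ι → Finset ℕ) :
    tau f (fun i => s (i0.insertNth (α := fun _ => ι) u V i)) =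
      if Disjoint (s u) (univ.biUnion fun i => s (V i)) then
        tau (fun i => f (i0.succAbove i)) (fun i => s (V i)) * ∏ p ∈ s u, (1 / (p : ℝ)) else 0 := by
  classical
  have hcomp : Comp f (fun i => s (i0.insertNth (α := fun _ => ι) u V i)) ↔
      Disjoint (s u) (univ.biUnion fun i => s (V i)) ∧ Comp (fun i => f (i0.succAbove i)) (fun i => s (V i)) := by
    constructor
    · intro h
      constructor
      · rw [disjoint_left]
        intro p hp hp'
        obtain ⟨i, _, hi⟩ := mem_biUnion.1 hp'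
        have := h (i0.succAbove i) i0 p (by simpa using hi) (by simpa using hp)
        exact hf i this
      · intro i j p hi hj
        exact h (i0.succAbove i) (i0.succAbove j) p (by simpa using hi) (by simpa using hj)
    · rintro ⟨h1, h2⟩ i j p hi hj
      rcases Fin.eq_self_or_eq_succAbove i0 i with h3 | ⟨i', h3⟩ <;>
      rcases Fin.eq_self_or_eq_succAbove i0 j with h4 | ⟨j', h4⟩
      · rw [h3, h4]
      · exfalso
        subst h3 h4
        simp only [Fin.insertNth_apply_same, Fin.insertNth_apply_succAbove] at hi hj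
        exact disjoint_left.1 h1 hi (mem_biUnion.2 ⟨j', mem_univ _, hj⟩)
      · exfalso
        subst h3 h4
        simp only [Fin.insertNth_apply_same, Fin.insertNth_apply_succAbove] at hi hj
        exact disjoint_left.1 h1 hj (mem_biUnion.2 ⟨i', mem_univ _, hi⟩)
      · subst h3 h4
        simp only [Fin.insertNth_apply_succAbove] at hi hj
        exact h2 i' j' p hi hj
  unfold tau
  by_cases h1 : Disjoint (s u) (univ.biUnion fun i => s (V i))
  · rw [if_pos h1]
    by_cases h2 : Comp (fun i => f (i0.succAbove i)) (fun i => s (V i))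
    · rw [if_pos h2, if_pos (hcomp.2 ⟨h1, h2⟩), biUnion_insertNth, prod_union h1, mul_comm]
    · rw [if_neg h2, if_neg (fun h => h2 (hcomp.1 h).2), zero_mul]
  · rw [if_neg h1, if_neg (fun h => h1 (hcomp.1 h).1)]

/-- the sum over the coordinate -/
lemma sum_piFinset_succ {m : ℕ} (i0 : Fin (m + 1)) (U : Finset ι) (G : (Fin (m + 1) → ι) → ℝ) :
    ∑ V ∈ Fintype.piFinset (fun _ : Fin (m + 1) => U), G V =
      ∑ V ∈ Fintype.piFinset (fun _ : Fin m => U), ∑ u ∈ U, G (i0.insertNth (α := fun _ => ι) u V) := by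
  classical
  rw [← sum_product']
  symm
  apply sum_bij (fun (x : (Fin m → ι) × ι) _ => i0.insertNth (α := fun _ => ι) x.2 x.1)
  · intro x hx
    rw [mem_product, Fintype.mem_piFinset] at hx
    rw [Fintype.mem_piFinset]
    intro i
    rcases Fin.eq_self_or_eq_succAbove i0 i with h | ⟨j, h⟩
    · subst h
      simpa using hx.2
    · subst h
      simpa using hx.1 j
  · intro x _ y _ h
    have h1 := congrFun h i0
    simp only [Fin.insertNth_apply_same] at h1
    ext1
    · funext j
      have h2 := congrFun h (i0.succAbove j)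
      simpa using h2
    · exact h1
  · intro V hV
    rw [Fintype.mem_piFinset] at hV
    refine ⟨(fun j => V (i0.succAbove j), V i0), ?_, ?_⟩
    · rw [mem_product, Fintype.mem_piFinset]
      exact ⟨fun j => hV _, hV _⟩
    · funext i
      rcases Fin.eq_self_or_eq_succAbove i0 i with h | ⟨j, h⟩
      · subst h
        simp
      · subst h
        simp
  · intro x _
    rfl

open Classical in
/-- the part of the mean which meets a given set -/
lemma mean_meet (P2 : Finset ℕ) (U : Finset ι) (s : ι → Finset ℕ) (c : ι → ℝ) (K z1 : ℝ) (hK : 0 ≤ K) (hz1 : 0 < z1)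
    (hP2 : ∀ p ∈ P2, z1 ≤ p) (hs : ∀ u ∈ U, s u ⊆ P2) (hinj : ∀ u ∈ U, ∀ u' ∈ U, s u = s u' → u = u')
    (hc : ∀ u ∈ U, |c u| ≤ K) (hmean : ∑ u ∈ U, c u * ∏ p ∈ s u, (1 / (p : ℝ)) = 0) (M : Finset ℕ) :
    |∑ u ∈ U.filter (fun u => Disjoint (s u) M), c u * ∏ p ∈ s u, (1 / (p : ℝ))| ≤
      K * (M.card / z1) * ∏ p ∈ P2, (1 + 1 / (p : ℝ)) := by
  have h1 := sum_filter_add_sum_filter_not U (fun u => Disjoint (s u) M) (fun u => c u * ∏ p ∈ s u, (1 / (p : ℝ)))
  rw [hmean] at h1
  have h2 : ∑ u ∈ U.filter (fun u => Disjoint (s u) M), c u * ∏ p ∈ s u, (1 / (p : ℝ)) =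
      -∑ u ∈ U.filter (fun u => ¬ Disjoint (s u) M), c u * ∏ p ∈ s u, (1 / (p : ℝ)) := by linarith
  rw [h2, abs_neg]
  have hnn : ∀ u, 0 ≤ ∏ p ∈ s u, (1 / (p : ℝ)) := fun u => prod_nonneg fun p _ => by positivity
  calc |∑ u ∈ U.filter (fun u => ¬ Disjoint (s u) M), c u * ∏ p ∈ s u, (1 / (p : ℝ))|
      ≤ ∑ u ∈ U.filter (fun u => ¬ Disjoint (s u) M), K * ∏ p ∈ s u, (1 / (p : ℝ)) := by
        refine (abs_sum_le_sum_abs _ _).trans (sum_le_sum fun u hu => ?_)
        rw [abs_mul, abs_of_nonneg (hnn u)]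
        exact mul_le_mul_of_nonneg_right (hc u (mem_filter.1 hu).1) (hnn u)
    _ = K * ∑ u ∈ U.filter (fun u => ¬ Disjoint (s u) M), ∏ p ∈ s u, (1 / (p : ℝ)) := by rw [mul_sum]
    _ ≤ K * ∑ T ∈ P2.powerset.filter (fun T => ¬ Disjoint T M), ∏ p ∈ T, (1 / (p : ℝ)) := by
        apply mul_le_mul_of_nonneg_left _ hK
        have e1 : ∑ u ∈ U.filter (fun u => ¬ Disjoint (s u) M), ∏ p ∈ s u, (1 / (p : ℝ)) =
            ∑ T ∈ (U.filter (fun u => ¬ Disjoint (s u) M)).image s, ∏ p ∈ T, (1 / (p : ℝ)) := by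
          rw [sum_image]
          intro u hu u' hu' h
          exact hinj u (mem_filter.1 hu).1 u' (mem_filter.1 hu').1 h
        rw [e1]
        apply sum_le_sum_of_subset_of_nonneg
        · intro T hT
          obtain ⟨u, hu, rfl⟩ := mem_image.1 hT
          rw [mem_filter] at hu ⊢
          exact ⟨mem_powerset.2 (hs u hu.1), hu.2⟩
        · intro T _ _
          exact prod_nonneg fun p _ => by positivity
    _ ≤ K * ∑ p ∈ M, ∑ T ∈ P2.powerset.filter (fun T => p ∈ T), ∏ p ∈ T, (1 / (p : ℝ)) := by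
        apply mul_le_mul_of_nonneg_left _ hK
        have e2 : P2.powerset.filter (fun T => ¬ Disjoint T M) ⊆
            M.biUnion (fun p => P2.powerset.filter (fun T => p ∈ T)) := by
          intro T hT
          rw [mem_filter, not_disjoint_iff] at hT
          obtain ⟨h3, p, h4, h5⟩ := hT
          rw [mem_biUnion]
          exact ⟨p, h5, mem_filter.2 ⟨h3, h4⟩⟩
        refine (sum_le_sum_of_subset_of_nonneg e2 fun T _ _ => prod_nonneg fun p _ => by positivity).trans ?_
        exact sum_biUnion_le' _ _ _ fun T => prod_nonneg fun p _ => by positivity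
    _ ≤ K * ∑ _p ∈ M, (1 / z1) * ∏ p ∈ P2, (1 + 1 / (p : ℝ)) := by
        apply mul_le_mul_of_nonneg_left _ hK
        apply sum_le_sum
        intro p0 _
        by_cases hp0 : p0 ∈ P2
        swap
        · have e3 : P2.powerset.filter (fun T => p0 ∈ T) = ∅ := by
            rw [filter_eq_empty_iff]
            intro T hT h
            exact hp0 (mem_powerset.1 hT h)
          rw [e3, sum_empty]
          exact mul_nonneg (by positivity) (prod_nonneg fun p _ => by positivity)
        have e4 : ∑ T ∈ P2.powerset.filter (fun T => p0 ∈ T), ∏ p ∈ T, (1 / (p : ℝ)) ≤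
            ∑ T ∈ P2.powerset, (1 / z1) * ∏ p ∈ T, (1 / (p : ℝ)) := by
          have e5 : ∀ T ∈ P2.powerset.filter (fun T => p0 ∈ T), ∏ p ∈ T, (1 / (p : ℝ)) ≤
              (1 / z1) * ∏ p ∈ T.erase p0, (1 / (p : ℝ)) := by
            intro T hT
            rw [mem_filter] at hT
            rw [← mul_prod_erase T _ hT.2]
            apply mul_le_mul_of_nonneg_right _ (prod_nonneg fun p _ => by positivity)
            exact one_div_le_one_div_of_le hz1 (hP2 p0 hp0)
          refine (sum_le_sum e5).trans ?_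
          have e6 : ∑ T ∈ P2.powerset.filter (fun T => p0 ∈ T), (1 / z1) * ∏ p ∈ T.erase p0, (1 / (p : ℝ)) =
              ∑ T ∈ (P2.powerset.filter (fun T => p0 ∈ T)).image (fun T : Finset ℕ => T.erase p0),
                (1 / z1) * ∏ p ∈ (T : Finset ℕ), (1 / ((p : ℕ) : ℝ)) := by
            rw [sum_image]
            intro T hT T' hT' h
            rw [mem_coe, mem_filter] at hT hT'
            simp only at h
            rw [← insert_erase hT.2, ← insert_erase hT'.2, h]
          rw [e6]
          apply sum_le_sum_of_subset_of_nonneg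
          · intro T hT
            obtain ⟨T', hT', rfl⟩ := mem_image.1 hT
            rw [mem_filter, mem_powerset] at hT'
            exact mem_powerset.2 ((erase_subset _ _).trans hT'.1)
          · intro T _ _
            exact mul_nonneg (by positivity) (prod_nonneg fun p _ => by positivity)
        refine e4.trans (le_of_eq ?_)
        rw [← mul_sum, Finset.prod_one_add]
    _ = K * (M.card / z1) * ∏ p ∈ P2, (1 + 1 / (p : ℝ)) := by
        rw [sum_const, nsmul_eq_mul]
        ring

end

end Pool.Agent.H36.BF
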