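import Mathlib
import Pool.Agent.H36.BF.MomA

/-!
Moments of sums of divisor weights over the survivors: the bound.
-/

set_option autoImplicit false

namespace Pool.Agent.H36.BF
open Finset Pool.Agent.H36.RW Pool.Agent.H373R2.T7

section

variable {ι : Type}

/-- the sum over all weights, for a tuple in which one position occurs only once -/
theorem T_single (P2 : Finset ℕ) (U : Finset ι) (s : ι → Finset ℕ) (c : ι → ℝ) (K z1 : ℝ) (hK : 0 ≤ K) (hz1 : 0 < z1)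
    (hP2 : ∀ p ∈ P2, p.Prime ∧ z1 ≤ p) (hs : ∀ u ∈ U, s u ⊆ P2) (hinj : ∀ u ∈ U, ∀ u' ∈ U, s u = s u' → u = u')
    (M0 : ℕ) (hM0 : ∀ u ∈ U, (s u).card ≤ M0)
    (hc : ∀ u ∈ U, |c u| ≤ K) (hmean : ∑ u ∈ U, c u * ∏ p ∈ s u, (1 / (p : ℝ)) = 0) (m : ℕ) (f : Fin (m + 1) → ℕ)
    (i0 : Fin (m + 1)) (hf : ∀ i, f (i0.succAbove i) ≠ f i0) :
    |∑ V ∈ Fintype.piFinset (fun _ : Fin (m + 1) => U), (∏ i, c (V i)) * tau f (fun i => s (V i))| ≤
      K ^ (m + 1) * (((m + 1 : ℕ) : ℝ) * M0 / z1) * (∏ p ∈ P2, (1 + (2 : ℝ) ^ (m + 1) / p)) ^ 2 := by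
  classical
  rw [sum_piFinset_succ i0]
  have hW1 : ∏ p ∈ P2, (1 + 1 / (p : ℝ)) ≤ ∏ p ∈ P2, (1 + (2 : ℝ) ^ (m + 1) / p) := by
    apply prod_le_prod
    · intro p _; positivity
    · intro p _
      have : (1 : ℝ) ≤ 2 ^ (m + 1) := one_le_pow₀ (by norm_num)
      gcongr
  have hW2 : ∏ p ∈ P2, (1 + (2 : ℝ) ^ m / p) ≤ ∏ p ∈ P2, (1 + (2 : ℝ) ^ (m + 1) / p) := by
    apply prod_le_prod
    · intro p _; positivity
    · intro p _
      have : (2 : ℝ) ^ m ≤ 2 ^ (m + 1) := pow_le_pow_right₀ (by norm_num) (by omega)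
      gcongr
  set W : ℝ := ∏ p ∈ P2, (1 + (2 : ℝ) ^ (m + 1) / p) with hW
  have hW0 : 0 ≤ W := by rw [hW]; exact prod_nonneg fun p _ => by positivity
  have h1 : ∀ V ∈ Fintype.piFinset (fun _ : Fin m => U),
      ∑ u ∈ U, (∏ i, c (i0.insertNth (α := fun _ => ι) u V i)) * tau f (fun i => s (i0.insertNth (α := fun _ => ι) u V i)) =
      (∏ i, c (V i)) * tau (fun i => f (i0.succAbove i)) (fun i => s (V i)) *
        ∑ u ∈ U.filter (fun u => Disjoint (s u) (univ.biUnion fun i => s (V i))), c u * ∏ p ∈ s u, (1 / (p : ℝ)) := by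
    intro V _
    rw [mul_sum, sum_filter]
    apply sum_congr rfl
    intro u _
    rw [tau_insertNth i0 f hf u V s, Fin.prod_univ_succAbove _ i0]
    simp only [Fin.insertNth_apply_same, Fin.insertNth_apply_succAbove]
    split_ifs
    · ring
    · ring
  rw [sum_congr rfl h1]
  have h2 : ∀ V ∈ Fintype.piFinset (fun _ : Fin m => U),
      |(∏ i, c (V i)) * tau (fun i => f (i0.succAbove i)) (fun i => s (V i)) *
        ∑ u ∈ U.filter (fun u => Disjoint (s u) (univ.biUnion fun i => s (V i))), c u * ∏ p ∈ s u, (1 / (p : ℝ))| ≤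
      K ^ m * tau (fun i => f (i0.succAbove i)) (fun i => s (V i)) * (K * (((m + 1 : ℕ) : ℝ) * M0 / z1) * W) := by
    intro V hV
    rw [Fintype.mem_piFinset] at hV
    rw [abs_mul, abs_mul, abs_of_nonneg (tau_nonneg _ _)]
    have h3 : |∏ i, c (V i)| ≤ K ^ m := by
      rw [abs_prod]
      calc ∏ i, |c (V i)| ≤ ∏ _i : Fin m, K := prod_le_prod (fun _ _ => abs_nonneg _) fun i _ => hc _ (hV i)
        _ = K ^ m := by rw [prod_const, card_univ, Fintype.card_fin]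
    have h4 := mean_meet P2 U s c K z1 hK hz1 (fun p hp => (hP2 p hp).2) hs hinj hc hmean (univ.biUnion fun i => s (V i))
    have h5 : ((univ.biUnion fun i => s (V i)).card : ℝ) ≤ ((m + 1 : ℕ) : ℝ) * M0 := by
      have h6 : (univ.biUnion fun i => s (V i)).card ≤ (m + 1) * M0 := by
        refine card_biUnion_le.trans ?_
        calc ∑ i : Fin m, (s (V i)).card ≤ ∑ _i : Fin m, M0 := sum_le_sum fun i _ => hM0 _ (hV i)
          _ = m * M0 := by rw [sum_const, card_univ, Fintype.card_fin, smul_eq_mul]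
          _ ≤ (m + 1) * M0 := Nat.mul_le_mul_right _ (by omega)
      exact_mod_cast h6
    apply mul_le_mul (mul_le_mul_of_nonneg_right h3 (tau_nonneg _ _)) _ (abs_nonneg _)
      (mul_nonneg (by positivity) (tau_nonneg _ _))
    refine h4.trans ?_
    apply mul_le_mul _ hW1 (prod_nonneg fun p _ => by positivity) (by positivity)
    apply mul_le_mul_of_nonneg_left _ hK
    exact div_le_div_of_nonneg_right h5 hz1.le
  refine (abs_sum_le_sum_abs _ _).trans ((sum_le_sum h2).trans ?_)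
  rw [← sum_mul, ← mul_sum]
  have h7 := (tau_sum' P2 (fun p hp => (hP2 p hp).1) m (fun i => f (i0.succAbove i)) U s hs hinj).trans hW2
  calc K ^ m * (∑ V ∈ Fintype.piFinset (fun _ : Fin m => U), tau (fun i => f (i0.succAbove i)) (fun i => s (V i))) *
        (K * (((m + 1 : ℕ) : ℝ) * M0 / z1) * W) ≤ K ^ m * W * (K * (((m + 1 : ℕ) : ℝ) * M0 / z1) * W) := by
        gcongr
    _ = _ := by ring

/-- the same, for a tuple of any length -/
theorem T_single' (P2 : Finset ℕ) (U : Finset ι) (s : ι → Finset ℕ) (c : ι → ℝ) (K z1 : ℝ) (hK : 0 ≤ K) (hz1 : 0 < z1)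
    (hP2 : ∀ p ∈ P2, p.Prime ∧ z1 ≤ p) (hs : ∀ u ∈ U, s u ⊆ P2) (hinj : ∀ u ∈ U, ∀ u' ∈ U, s u = s u' → u = u')
    (M0 : ℕ) (hM0 : ∀ u ∈ U, (s u).card ≤ M0)
    (hc : ∀ u ∈ U, |c u| ≤ K) (hmean : ∑ u ∈ U, c u * ∏ p ∈ s u, (1 / (p : ℝ)) = 0) (n : ℕ) (f : Fin n → ℕ)
    (i0 : Fin n) (hf : ∀ j, j ≠ i0 → f j ≠ f i0) :
    |∑ V ∈ Fintype.piFinset (fun _ : Fin n => U), (∏ i, c (V i)) * tau f (fun i => s (V i))| ≤
      K ^ n * ((n : ℝ) * M0 / z1) * (∏ p ∈ P2, (1 + (2 : ℝ) ^ n / p)) ^ 2 := by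
  obtain ⟨m, rfl⟩ : ∃ m, n = m + 1 := ⟨n - 1, by have := i0.pos; omega⟩
  exact T_single P2 U s c K z1 hK hz1 hP2 hs hinj M0 hM0 hc hmean m f i0 (fun i => hf _ (Fin.succAbove_ne i0 i))

/-- the sum over all weights, in general -/
theorem T_all (P2 : Finset ℕ) (U : Finset ι) (s : ι → Finset ℕ) (c : ι → ℝ) (K : ℝ) (hK : 0 ≤ K)
    (hP2 : ∀ p ∈ P2, p.Prime) (hs : ∀ u ∈ U, s u ⊆ P2) (hinj : ∀ u ∈ U, ∀ u' ∈ U, s u = s u' → u = u')
    (hc : ∀ u ∈ U, |c u| ≤ K) (n : ℕ) (f : Fin n → ℕ) :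
    |∑ V ∈ Fintype.piFinset (fun _ : Fin n => U), (∏ i, c (V i)) * tau f (fun i => s (V i))| ≤
      K ^ n * ∏ p ∈ P2, (1 + (2 : ℝ) ^ n / p) := by
  classical
  refine (abs_sum_le_sum_abs _ _).trans ?_
  calc ∑ V ∈ Fintype.piFinset (fun _ : Fin n => U), |(∏ i, c (V i)) * tau f (fun i => s (V i))|
      ≤ ∑ V ∈ Fintype.piFinset (fun _ : Fin n => U), K ^ n * tau f (fun i => s (V i)) := by
        apply sum_le_sum
        intro V hV
        rw [Fintype.mem_piFinset] at hV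
        rw [abs_mul, abs_of_nonneg (tau_nonneg _ _)]
        apply mul_le_mul_of_nonneg_right _ (tau_nonneg _ _)
        rw [abs_prod]
        calc ∏ i, |c (V i)| ≤ ∏ _i : Fin n, K := prod_le_prod (fun _ _ => abs_nonneg _) fun i _ => hc _ (hV i)
          _ = K ^ n := by rw [prod_const, card_univ, Fintype.card_fin]
    _ = K ^ n * ∑ V ∈ Fintype.piFinset (fun _ : Fin n => U), tau f (fun i => s (V i)) := by rw [mul_sum]
    _ ≤ _ := mul_le_mul_of_nonneg_left (tau_sum' P2 hP2 n f U s hs hinj) (by positivity)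

end

/-- few survivors: sum of the densities -/
lemma rho_small (P S : Finset ℕ) (y T : ℕ) (hy : 1 ≤ y) (hS : S ⊆ Icc 1 T) (hP : ∀ p ∈ P, p.Prime ∧ y < p)
    (hT : 16 * Wp (P.filter (fun p => T < p)) * T ≤ Wp (P.filter (fun p => p ≤ T)) * y)
    (k : ℕ) (hμ : 1 ≤ S.card * Wp P) :
    ∑ G ∈ S.powerset.filter (fun G => G.card ≤ k), rho P G ≤ Real.exp 2 * (S.card * Wp P) ^ k := by
  classical
  set μ : ℝ := S.card * Wp P with hμd
  have hμ0 : 0 < μ := by linarith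
  set u : ℝ := 1 / μ with hu
  have hu0 : 0 < u := by positivity
  have hu1 : u ≤ 1 := by rw [hu, div_le_one hμ0]; exact hμ
  have h1 := Phi_final u (by linarith) (by rw [abs_of_pos hu0]; linarith) P y T hy S hS hP hT
  have h2 : Real.exp (S.card * Wp P * (u + u ^ 2)) ≤ Real.exp 2 := by
    apply Real.exp_le_exp.2
    rw [← hμd]
    have e1 : μ * (u + u ^ 2) = 1 + u := by rw [hu]; field_simp
    rw [e1]
    linarith
  have hr : ∀ G, 0 ≤ rho P G := fun G => rho_nonneg P G fun p hp => (hP p hp).1.pos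
  calc ∑ G ∈ S.powerset.filter (fun G => G.card ≤ k), rho P G
      ≤ ∑ G ∈ S.powerset.filter (fun G => G.card ≤ k), μ ^ k * (u ^ G.card * rho P G) := by
        apply sum_le_sum
        intro G hG
        have hk := (mem_filter.1 hG).2
        have h3 : 1 ≤ μ ^ k * u ^ G.card := by
          have h4 : u ^ k ≤ u ^ G.card := pow_le_pow_of_le_one hu0.le hu1 hk
          have h5 : μ ^ k * u ^ k = 1 := by rw [← mul_pow, hu, mul_one_div_cancel hμ0.ne', one_pow]
          rw [← h5]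
          exact mul_le_mul_of_nonneg_left h4 (by positivity)
        calc rho P G = 1 * rho P G := (one_mul _).symm
          _ ≤ (μ ^ k * u ^ G.card) * rho P G := mul_le_mul_of_nonneg_right h3 (hr G)
          _ = _ := by ring
    _ ≤ ∑ G ∈ S.powerset, μ ^ k * (u ^ G.card * rho P G) := by
        apply sum_le_sum_of_subset_of_nonneg (filter_subset _ _)
        intro G _ _
        exact mul_nonneg (by positivity) (mul_nonneg (by positivity) (hr G))
    _ = μ ^ k * Phi P S u := by rw [← mul_sum]; rfl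
    _ ≤ μ ^ k * Real.exp 2 := mul_le_mul_of_nonneg_left (h1.trans h2) (by positivity)
    _ = _ := mul_comm _ _

/-- every position occurs at least twice -/
def Dbl {n : ℕ} (f : Fin n → ℕ) : Prop := ∀ i, ∃ j, j ≠ i ∧ f j = f i

open Classical in
lemma rho_dbl (P S : Finset ℕ) (hP : ∀ p ∈ P, p.Prime) (k : ℕ) :
    ∑ f ∈ (Fintype.piFinset (fun _ : Fin (2 * k) => S)).filter Dbl, rho P (univ.image f) ≤
      (k : ℝ) ^ (2 * k) * ∑ G ∈ S.powerset.filter (fun G => G.card ≤ k), rho P G := by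
  have hr : ∀ G, 0 ≤ rho P G := fun G => rho_nonneg P G fun p hp => (hP p hp).pos
  have hmap : ∀ f ∈ (Fintype.piFinset (fun _ : Fin (2 * k) => S)).filter Dbl,
      univ.image f ∈ S.powerset.filter (fun G => G.card ≤ k) := by
    intro f hf
    rw [mem_filter, Fintype.mem_piFinset] at hf
    rw [mem_filter, mem_powerset]
    constructor
    · intro x hx
      obtain ⟨i, _, rfl⟩ := mem_image.1 hx
      exact hf.1 i
    · have h1 := card_eq_sum_card_image f (univ : Finset (Fin (2 * k)))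
      rw [card_univ, Fintype.card_fin] at h1
      have h2 : ∑ _b ∈ univ.image f, 2 ≤ ∑ b ∈ univ.image f, (univ.filter (fun a => f a = b)).card := by
        apply sum_le_sum
        intro b hb
        obtain ⟨i, _, rfl⟩ := mem_image.1 hb
        obtain ⟨j, hj1, hj2⟩ := hf.2 i
        have h3 : ({i, j} : Finset (Fin (2 * k))) ⊆ univ.filter (fun a => f a = f i) := by
          intro a ha
          rw [mem_insert, mem_singleton] at ha
          rw [mem_filter]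
          rcases ha with rfl | rfl
          · exact ⟨mem_univ _, rfl⟩
          · exact ⟨mem_univ _, hj2⟩
        have h4 := card_le_card h3
        rwa [card_pair hj1.symm] at h4
      rw [← h1, sum_const, smul_eq_mul] at h2
      omega
  rw [← sum_fiberwise_of_maps_to hmap, mul_sum]
  apply sum_le_sum
  intro G hG
  have hGk := (mem_filter.1 hG).2
  have h2 : ∀ f ∈ ((Fintype.piFinset (fun _ : Fin (2 * k) => S)).filter Dbl).filter (fun f => univ.image f = G),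
      rho P (univ.image f) = rho P G := by
    intro f hf
    rw [(mem_filter.1 hf).2]
  rw [sum_congr rfl h2, sum_const, nsmul_eq_mul]
  apply mul_le_mul_of_nonneg_right _ (hr G)
  have h3 : (((Fintype.piFinset (fun _ : Fin (2 * k) => S)).filter Dbl).filter (fun f => univ.image f = G)).card ≤
      k ^ (2 * k) := by
    calc _ ≤ (Fintype.piFinset (fun _ : Fin (2 * k) => G)).card := by
          apply card_le_card
          intro f hf
          rw [Fintype.mem_piFinset]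
          intro i
          rw [← (mem_filter.1 hf).2]
          exact mem_image_of_mem f (mem_univ i)
      _ = G.card ^ (2 * k) := by rw [Fintype.card_piFinset, prod_const, card_univ, Fintype.card_fin]
      _ ≤ k ^ (2 * k) := Nat.pow_le_pow_left hGk _
  exact_mod_cast h3

/-- the moment bound -/
theorem thmB : ∃ C0 : ℕ, 1 ≤ C0 ∧ ∀ (ι : Type) (b Jd y q r T k X M0 : ℕ) (P1 P2 S : Finset ℕ) (U : Finset ι)
    (s : ι → Finset ℕ) (c : ι → ℝ) (K z1 : ℝ), 1 ≤ k → C0 * (2 * k) ≤ b → 2 ≤ b → 4 * k + 10 ≤ y →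
    (∀ p ∈ P1, p.Prime ∧ y < p ∧ p ≤ 2 ^ 2 ^ Jd ∧ ¬ p ∣ q) → S ⊆ Icc 1 T →
    16 * Wp (P1.filter (fun p => T < p)) * T ≤ Wp (P1.filter (fun p => p ≤ T)) * y →
    1 ≤ S.card * Wp P1 → 0 < z1 → (∀ p ∈ P2, p.Prime ∧ T < p ∧ ¬ p ∣ q ∧ p ∉ P1 ∧ z1 ≤ p) → 0 ≤ K →
    (∀ u ∈ U, s u ⊆ P2) → (∀ u ∈ U, ∀ u' ∈ U, s u = s u' → u = u') → (∀ u ∈ U, (s u).card ≤ M0) →
    (∀ u ∈ U, |c u| ≤ K) → ∑ u ∈ U, c u * ∏ p ∈ s u, (1 / (p : ℝ)) = 0 →
    ∑ l ∈ Icc 1 X, YY q r P1 S U s c l ^ (2 * k) ≤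
      X * (K ^ (2 * k) * ((k : ℝ) ^ (2 * k) * (Real.exp 2 * (S.card * Wp P1) ^ k) * ∏ p ∈ P2, (1 + (2 : ℝ) ^ (2 * k) / p) +
        (S.card : ℝ) ^ (2 * k) * (((2 * k : ℕ) : ℝ) * M0 / z1 * (∏ p ∈ P2, (1 + (2 : ℝ) ^ (2 * k) / p)) ^ 2) +
        (S.card : ℝ) ^ (2 * k) * ((1 / 2) ^ b * ∏ p ∈ P2, (1 + (2 : ℝ) ^ (2 * k) / p)))) +
      (S.card : ℝ) ^ (2 * k) * (U.card : ℝ) ^ (2 * k) * (K ^ (2 * k) *
        (((Jd : ℝ) + 2) * (((2 : ℝ) ^ 2 ^ Jd) ^ (10 * b)) ^ 2 + 3)) := by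
  classical
  obtain ⟨C0, hC0, hcnt⟩ := cnt
  refine ⟨C0, hC0, ?_⟩
  intro ι b Jd y q r T k X M0 P1 P2 S U s c K z1 hk hb hb2 hy hP1 hS hT hμ hz1 hP2 hK hs hinj hM0 hc hmean
  set W : ℝ := ∏ p ∈ P2, (1 + (2 : ℝ) ^ (2 * k) / p) with hW
  have hW0 : 0 ≤ W := by rw [hW]; exact prod_nonneg fun p _ => by positivity
  set E : ℝ := ((Jd : ℝ) + 2) * (((2 : ℝ) ^ 2 ^ Jd) ^ (10 * b)) ^ 2 + 3 with hE
  have hE0 : 0 ≤ E := by rw [hE]; positivity
  rw [YY_pow]
  have hX0 : (0 : ℝ) ≤ X := Nat.cast_nonneg X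
  have hr : ∀ G, 0 ≤ rho P1 G := fun G => rho_nonneg P1 G fun p hp => (hP1 p hp).1.pos
  have hr1 : ∀ G, rho P1 G ≤ 1 := fun G => rho_le_one P1 G fun p hp => (hP1 p hp).1
  -- one term
  have hterm : ∀ f ∈ Fintype.piFinset (fun _ : Fin (2 * k) => S), ∀ V ∈ Fintype.piFinset (fun _ : Fin (2 * k) => U),
      (∏ i, c (V i)) * (NF q r P1 X (2 * k) f (fun i => s (V i)) : ℝ) ≤
        X * rho P1 (univ.image f) * ((∏ i, c (V i)) * tau f (fun i => s (V i))) +
        (K ^ (2 * k) * ((1 / 2) ^ b * (X * rho P1 (univ.image f))) * tau f (fun i => s (V i)) + K ^ (2 * k) * E) := by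
    intro f hf V hV
    rw [Fintype.mem_piFinset] at hf hV
    have h1 := hcnt b Jd y q r T (2 * k) X P1 f (fun i => s (V i)) hb hb2 (by omega) hP1 (fun i => hS (hf i))
      (fun i p hp => by
        have := hP2 p (hs _ (hV i) hp)
        exact ⟨this.1, this.2.1, this.2.2.1, this.2.2.2.1⟩)
    rw [← hE] at h1
    have h3 : |∏ i, c (V i)| ≤ K ^ (2 * k) := by
      rw [abs_prod]
      calc ∏ i, |c (V i)| ≤ ∏ _i : Fin (2 * k), K := prod_le_prod (fun _ _ => abs_nonneg _) fun i _ => hc _ (hV i)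
        _ = K ^ (2 * k) := by rw [prod_const, card_univ, Fintype.card_fin]
    set N : ℝ := (NF q r P1 X (2 * k) f (fun i => s (V i)) : ℝ)
    set ρ := rho P1 (univ.image f)
    set t := tau f (fun i => s (V i)) with ht
    set Cc := ∏ i, c (V i)
    have ht0 : 0 ≤ t := tau_nonneg _ _
    have h4 : Cc * (N - X * (ρ * t)) ≤ K ^ (2 * k) * ((1 / 2) ^ b * (X * (ρ * t)) + E) := by
      calc Cc * (N - X * (ρ * t)) ≤ |Cc * (N - X * (ρ * t))| := le_abs_self _
        _ = |Cc| * |N - X * (ρ * t)| := abs_mul _ _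
        _ ≤ K ^ (2 * k) * ((1 / 2) ^ b * (X * (ρ * t)) + E) :=
            mul_le_mul h3 h1 (abs_nonneg _) (by positivity)
    have e1 : Cc * N = X * ρ * (Cc * t) + Cc * (N - X * (ρ * t)) := by ring
    have e2 : K ^ (2 * k) * ((1 / 2) ^ b * (X * (ρ * t)) + E) =
        K ^ (2 * k) * ((1 / 2) ^ b * (X * ρ)) * t + K ^ (2 * k) * E := by ring
    rw [e1, ← e2]
    linarith
  -- one tuple of positions
  have hf1 : ∀ f ∈ Fintype.piFinset (fun _ : Fin (2 * k) => S),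
      ∑ V ∈ Fintype.piFinset (fun _ : Fin (2 * k) => U),
        (∏ i, c (V i)) * (NF q r P1 X (2 * k) f (fun i => s (V i)) : ℝ) ≤
      X * ((if Dbl f then rho P1 (univ.image f) * (K ^ (2 * k) * W) else 0) +
        K ^ (2 * k) * (((2 * k : ℕ) : ℝ) * M0 / z1) * W ^ 2 + K ^ (2 * k) * ((1 / 2) ^ b * W)) +
        (U.card : ℝ) ^ (2 * k) * (K ^ (2 * k) * E) := by
    intro f hf
    refine (sum_le_sum (hterm f hf)).trans ?_
    rw [sum_add_distrib, sum_add_distrib, ← mul_sum, ← mul_sum, sum_const, nsmul_eq_mul, Fintype.card_piFinset,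
      prod_const, card_univ, Fintype.card_fin]
    push_cast
    set ρ := rho P1 (univ.image f)
    have hρ0 : 0 ≤ ρ := hr _
    have hρ1 : ρ ≤ 1 := hr1 _
    have ht := tau_sum' P2 (fun p hp => (hP2 p hp).1) (2 * k) f U s hs hinj
    rw [← hW] at ht
    have h1 : K ^ (2 * k) * ((1 / 2) ^ b * (X * ρ)) * ∑ V ∈ Fintype.piFinset (fun _ : Fin (2 * k) => U), tau f (fun i => s (V i)) ≤
        X * (K ^ (2 * k) * ((1 / 2) ^ b * W)) := by
      calc _ ≤ K ^ (2 * k) * ((1 / 2) ^ b * (X * 1)) * W := by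
            apply mul_le_mul _ ht (sum_nonneg fun V _ => tau_nonneg _ _) (by positivity)
            gcongr
        _ = _ := by ring
    have h2 : X * ρ * ∑ V ∈ Fintype.piFinset (fun _ : Fin (2 * k) => U), (∏ i, c (V i)) * tau f (fun i => s (V i)) ≤
        X * ((if Dbl f then ρ * (K ^ (2 * k) * W) else 0) + K ^ (2 * k) * ((2 * (k : ℝ)) * M0 / z1) * W ^ 2) := by
      have hXρ : 0 ≤ X * ρ := mul_nonneg hX0 hρ0
      by_cases hd : Dbl f
      · rw [if_pos hd]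
        have h3 := (le_abs_self _).trans (T_all P2 U s c K hK (fun p hp => (hP2 p hp).1) hs hinj hc (2 * k) f)
        rw [← hW] at h3
        have h4 : 0 ≤ X * (K ^ (2 * k) * ((2 * (k : ℝ)) * M0 / z1) * W ^ 2) := by positivity
        calc _ ≤ X * ρ * (K ^ (2 * k) * W) := mul_le_mul_of_nonneg_left h3 hXρ
          _ ≤ _ := by
            rw [mul_add]
            have : X * ρ * (K ^ (2 * k) * W) = X * (ρ * (K ^ (2 * k) * W)) := by ring
            linarith
      · rw [if_neg hd, zero_add]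
        unfold Dbl at hd
        push Not at hd
        obtain ⟨i0, hi0⟩ := hd
        have h3 := T_single' P2 U s c K z1 hK hz1 (fun p hp => ⟨(hP2 p hp).1, (hP2 p hp).2.2.2.2⟩) hs hinj M0 hM0 hc
          hmean (2 * k) f i0 hi0
        rw [← hW] at h3
        push_cast at h3
        have h4 := (le_abs_self _).trans h3
        have h5 : 0 ≤ K ^ (2 * k) * ((2 * (k : ℝ)) * M0 / z1) * W ^ 2 := by positivity
        calc _ ≤ X * ρ * (K ^ (2 * k) * ((2 * (k : ℝ)) * M0 / z1) * W ^ 2) := mul_le_mul_of_nonneg_left h4 hXρ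
          _ ≤ X * 1 * (K ^ (2 * k) * ((2 * (k : ℝ)) * M0 / z1) * W ^ 2) := by gcongr
          _ = _ := by ring
    have e3 : X * ((if Dbl f then ρ * (K ^ (2 * k) * W) else 0) + K ^ (2 * k) * ((2 * (k : ℝ)) * M0 / z1) * W ^ 2 +
        K ^ (2 * k) * ((1 / 2) ^ b * W)) = X * ((if Dbl f then ρ * (K ^ (2 * k) * W) else 0) +
        K ^ (2 * k) * ((2 * (k : ℝ)) * M0 / z1) * W ^ 2) + X * (K ^ (2 * k) * ((1 / 2) ^ b * W)) := by ring
    rw [e3]
    linarith
  refine (sum_le_sum hf1).trans ?_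
  rw [sum_add_distrib, ← mul_sum, sum_add_distrib, sum_add_distrib, sum_const, sum_const, sum_const, nsmul_eq_mul,
    nsmul_eq_mul, nsmul_eq_mul, Fintype.card_piFinset, prod_const, card_univ, Fintype.card_fin, ← sum_filter, ← sum_mul]
  have h5 := rho_dbl P1 S (fun p hp => (hP1 p hp).1) k
  have h6 := rho_small P1 S y T (by omega) hS (fun p hp => ⟨(hP1 p hp).1, (hP1 p hp).2.1⟩) hT k hμ
  have h7 : ∑ f ∈ (Fintype.piFinset (fun _ : Fin (2 * k) => S)).filter Dbl, rho P1 (univ.image f) ≤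
      (k : ℝ) ^ (2 * k) * (Real.exp 2 * (S.card * Wp P1) ^ k) :=
    h5.trans (mul_le_mul_of_nonneg_left h6 (by positivity))
  have h8 : X * ((∑ f ∈ (Fintype.piFinset (fun _ : Fin (2 * k) => S)).filter Dbl, rho P1 (univ.image f)) * (K ^ (2 * k) * W)) ≤
      X * ((k : ℝ) ^ (2 * k) * (Real.exp 2 * (S.card * Wp P1) ^ k) * (K ^ (2 * k) * W)) := by
    apply mul_le_mul_of_nonneg_left _ hX0
    exact mul_le_mul_of_nonneg_right h7 (by positivity)
  push_cast
  rw [mul_add, mul_add]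
  calc _ ≤ X * ((k : ℝ) ^ (2 * k) * (Real.exp 2 * (S.card * Wp P1) ^ k) * (K ^ (2 * k) * W)) +
        X * ((S.card : ℝ) ^ (2 * k) * (K ^ (2 * k) * (2 * (k : ℝ) * M0 / z1) * W ^ 2)) +
        X * ((S.card : ℝ) ^ (2 * k) * (K ^ (2 * k) * ((1 / 2) ^ b * W))) +
        (S.card : ℝ) ^ (2 * k) * ((U.card : ℝ) ^ (2 * k) * (K ^ (2 * k) * E)) := by
        gcongr
    _ = _ := by ring

end Pool.Agent.H36.BF
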