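import Mathlib
import Pool.Agent.H36.BF.MomB

/-!
Sieve functions of Brun-Hooley type.
-/

set_option autoImplicit false

open Finset

namespace Pool.Agent.H36.BF

open Pool.Agent.Helper112.LP Pool.Agent.Helper112.LP.Kba Pool.Agent.Helper112.LP.Kbh
open Pool.Agent.H483R2.BHKD Pool.Agent.H20R2.FL Pool.Agent.H36.RW

/-- the groups -/
def grp (J : ℕ) (P : Finset ℕ) (i : Fin J) : Finset ℕ := P.filter (fun p => p ∈ Gj ((i : ℕ) + 1))

/-- the truncation -/
def bb (b J : ℕ) (i : Fin J) : ℕ := 2 * b + 2 * (J - 1 - (i : ℕ))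

/-- the sets of primes in one group -/
def FF (b J : ℕ) (P : Finset ℕ) (i : Fin J) : Finset (Finset ℕ) :=
  (grp J P i).powerset.filter (fun U => U.card ≤ bb b J i + 1)

/-- upper bound coefficients -/
noncomputable def cU (b J : ℕ) (i : Fin J) (V : Finset ℕ) : ℝ := if V.card ≤ bb b J i then (-1) ^ V.card else 0

/-- error coefficients -/
noncomputable def cE (b J : ℕ) (i : Fin J) (V : Finset ℕ) : ℝ := if V.card = bb b J i + 1 then 1 else 0

/-- coefficients of the `k`-th correction -/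
noncomputable def cK (b J : ℕ) (k i : Fin J) (V : Finset ℕ) : ℝ := if i = k then cE b J i V else cU b J i V

open Classical in
/-- product weight -/
noncomputable def GG {J : ℕ} (F : Fin J → Finset (Finset ℕ)) (C : Fin J → Finset ℕ → ℝ) (m : ℕ) : ℝ :=
  ∏ i, ∑ V ∈ F i, if ∀ l ∈ V, l ∣ m then C i V else 0

/-- mean of the product weight -/
noncomputable def wm {J : ℕ} (F : Fin J → Finset (Finset ℕ)) (C : Fin J → Finset ℕ → ℝ) : ℝ :=
  ∏ i, ∑ V ∈ F i, C i V * ∏ l ∈ V, (1 / (l : ℝ))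

lemma cU_abs (b J : ℕ) (i : Fin J) (V : Finset ℕ) : |cU b J i V| ≤ 1 := by
  unfold cU
  split_ifs
  · rw [abs_neg_one_pow]
  · simp

lemma cE_abs (b J : ℕ) (i : Fin J) (V : Finset ℕ) : |cE b J i V| ≤ 1 := by
  unfold cE
  split_ifs <;> simp

lemma cK_abs (b J : ℕ) (k i : Fin J) (V : Finset ℕ) : |cK b J k i V| ≤ 1 := by
  unfold cK
  split_ifs
  · exact cE_abs b J i V
  · exact cU_abs b J i V

lemma sum_cU (b J : ℕ) (P : Finset ℕ) (i : Fin J) (φ : Finset ℕ → ℝ) :
    ∑ V ∈ FF b J P i, cU b J i V * φ V =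
      ∑ V ∈ (grp J P i).powerset.filter (fun U => U.card ≤ bb b J i), (-1) ^ V.card * φ V := by
  unfold FF cU
  rw [sum_filter, sum_filter]
  apply sum_congr rfl
  intro V _
  by_cases h : V.card ≤ bb b J i
  · rw [if_pos h, if_pos h, if_pos (by omega)]
  · rw [if_neg h, if_neg h, zero_mul]
    simp

lemma sum_cE (b J : ℕ) (P : Finset ℕ) (i : Fin J) (φ : Finset ℕ → ℝ) :
    ∑ V ∈ FF b J P i, cE b J i V * φ V = ∑ V ∈ (grp J P i).powersetCard (bb b J i + 1), φ V := by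
  have h1 : (grp J P i).powersetCard (bb b J i + 1) =
      (grp J P i).powerset.filter (fun U => U.card = bb b J i + 1) := by
    ext U
    rw [mem_powersetCard, mem_filter, mem_powerset]
  rw [h1]
  unfold FF cE
  rw [sum_filter, sum_filter]
  apply sum_congr rfl
  intro V _
  by_cases h : V.card = bb b J i + 1
  · rw [if_pos h, if_pos h, if_pos (by omega), one_mul]
  · rw [if_neg h, if_neg h, zero_mul]
    simp

lemma bb_even (b J : ℕ) (i : Fin J) : Even (bb b J i) := by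
  unfold bb
  exact (even_two_mul _).add (even_two_mul _)

lemma grp_sub (J : ℕ) (P : Finset ℕ) (i : Fin J) : grp J P i ⊆ P := filter_subset _ _

lemma grp_G (J : ℕ) (P : Finset ℕ) (i : Fin J) : grp J P i ⊆ Gj ((i : ℕ) + 1) := fun _ hp => (mem_filter.1 hp).2

lemma ite_mul_div {V : Finset ℕ} {m : ℕ} {a : ℝ} [Decidable (∀ l ∈ V, l ∣ m)] :
    (if ∀ l ∈ V, l ∣ m then a else 0) = a * (if ∀ l ∈ V, l ∣ m then 1 else 0) := by
  split_ifs <;> simp

lemma bhU_grp (J : ℕ) (P : Finset ℕ) (hP : ∀ p ∈ P, p.Prime ∧ 12 < p ∧ p ≤ 2 ^ 2 ^ J) : bhU (grp J P) = P := by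
  have hPlt : ∀ p ∈ P, p < 2 ^ 2 ^ J := by
    intro p hp
    obtain ⟨h1, h2, h3⟩ := hP p hp
    rcases lt_or_eq_of_le h3 with h | h
    · exact h
    · exfalso
      have h4 : 2 ∣ p := by rw [h]; exact dvd_pow_self 2 (by positivity)
      have h5 : p = 2 := ((Nat.prime_dvd_prime_iff_eq Nat.prime_two h1).1 h4).symm
      omega
  ext p
  unfold bhU
  rw [mem_biUnion]
  constructor
  · rintro ⟨i, _, hi⟩
    exact grp_sub J P i hi
  · intro hp
    obtain ⟨i, hi⟩ := bh_cover (hP p hp).1 (hPlt p hp)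
    exact ⟨i, mem_univ _, mem_filter.2 ⟨hp, hi⟩⟩

open Classical in
/-- the sieve inequalities -/
theorem sieve_ptw (b J : ℕ) (P : Finset ℕ) (hP : ∀ p ∈ P, p.Prime ∧ 12 < p ∧ p ≤ 2 ^ 2 ^ J) (m : ℕ) :
    (if ∀ p ∈ P, ¬ p ∣ m then (1 : ℝ) else 0) ≤ GG (FF b J P) (cU b J) m ∧
    GG (FF b J P) (cU b J) m - ∑ k, GG (FF b J P) (cK b J k) m ≤ (if ∀ p ∈ P, ¬ p ∣ m then (1 : ℝ) else 0) := by
  set x : Fin J → ℝ := fun i => if ∀ l ∈ grp J P i, ¬ l ∣ m then (1 : ℝ) else 0 with hx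
  set y : Fin J → ℝ := fun i => ∑ U ∈ (grp J P i).powerset.filter (fun U => U.card ≤ bb b J i),
        if ∀ l ∈ U, l ∣ m then ((-1 : ℝ)) ^ U.card else 0 with hy
  set e : Fin J → ℝ := fun i => ∑ U ∈ powersetCard (bb b J i + 1) (grp J P i),
        if ∀ l ∈ U, l ∣ m then (1 : ℝ) else 0 with he
  have hloc : ∀ i, 0 ≤ x i ∧ x i ≤ y i ∧ y i - x i ≤ e i := fun i => by
    have := bh_local (grp J P i) (bb b J i) (bb_even b J i) m
    refine ⟨?_, ?_, ?_⟩
    · convert this.1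
    · convert this.2.1
    · convert this.2.2
  have hxe : (if ∀ p ∈ P, ¬ p ∣ m then (1 : ℝ) else 0) = ∏ i, x i := by
    simp only [hx]
    rw [Fintype.prod_ite_zero]
    have h1 : (∀ i, ∀ l ∈ grp J P i, ¬ l ∣ m) ↔ ∀ p ∈ P, ¬ p ∣ m := by
      rw [all_bhU (grp J P) (fun l => ¬ l ∣ m), bhU_grp J P hP]
    by_cases h : ∀ p ∈ P, ¬ p ∣ m
    · rw [if_pos h, if_pos (h1.2 h), prod_const_one]
    · rw [if_neg h, if_neg (fun h' => h (h1.1 h'))]
  have hGU : GG (FF b J P) (cU b J) m = ∏ i, y i := by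
    unfold GG
    apply prod_congr rfl
    intro i _
    have h1 := sum_cU b J P i (fun V => if ∀ l ∈ V, l ∣ m then (1 : ℝ) else 0)
    rw [hy]
    simp only
    rw [sum_congr rfl (fun V _ => ite_mul_div), h1]
    apply sum_congr rfl
    intro V _
    rw [← ite_mul_div]
  have hGK : ∀ k, GG (FF b J P) (cK b J k) m = e k * ∏ i ∈ univ.erase k, y i := by
    intro k
    unfold GG
    rw [← mul_prod_erase univ _ (mem_univ k)]
    congr 1
    · have h1 := sum_cE b J P k (fun V => if ∀ l ∈ V, l ∣ m then (1 : ℝ) else 0)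
      rw [he]
      simp only
      rw [← h1]
      apply sum_congr rfl
      intro V _
      rw [ite_mul_div]
      unfold cK
      rw [if_pos rfl]
    · apply prod_congr rfl
      intro i hi
      have hik : i ≠ k := (mem_erase.1 hi).1
      have h1 := sum_cU b J P i (fun V => if ∀ l ∈ V, l ∣ m then (1 : ℝ) else 0)
      rw [hy]
      simp only
      have h2 : ∀ V, cK b J k i V = cU b J i V := fun V => by unfold cK; rw [if_neg hik]
      simp only [h2]
      rw [sum_congr rfl (fun V _ => ite_mul_div), h1]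
      apply sum_congr rfl
      intro V _
      rw [← ite_mul_div]
  rw [hxe, hGU]
  refine ⟨prod_le_prod (fun i _ => (hloc i).1) fun i _ => (hloc i).2.1, ?_⟩
  have h3 := bh_prod_sub univ x y e (fun i => (hloc i).1) (fun i => (hloc i).2.1) (fun i => (hloc i).2.2)
  rw [sum_congr rfl (fun k _ => hGK k)]
  linarith

set_option maxHeartbeats 2000000 in
/-- the means -/
theorem sieve_mean : ∃ C0 : ℕ, 1 ≤ C0 ∧ ∀ (b J : ℕ) (P : Finset ℕ), C0 ≤ b → 2 ≤ b →
    (∀ p ∈ P, p.Prime ∧ 12 < p ∧ p ≤ 2 ^ 2 ^ J) →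
    0 ≤ wm (FF b J P) (cU b J) ∧ wm (FF b J P) (cU b J) ≤ 2 * Wp P ∧
    (∀ k, 0 ≤ wm (FF b J P) (cK b J k) ∧ wm (FF b J P) (cK b J k) ≤ 2 * Wp P) ∧
    1 / 2 * Wp P ≤ wm (FF b J P) (cU b J) - ∑ k, wm (FF b J P) (cK b J k) := by
  classical
  obtain ⟨CM, hCM, hM⟩ := mertens_group
  set L : ℝ := Real.log 2 + CM with hLdef
  have hlog2 : 0 < Real.log 2 := Real.log_pos (by norm_num)
  have hL0 : 0 < L := by rw [hLdef]; linarith
  have hLs : ∀ i : ℕ, ∑ l ∈ Gj (i + 1), (1 : ℝ) / l ≤ L := by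
    intro i
    have h1 := (abs_le.1 (hM (i + 1) (by omega))).2
    have h2 : CM / 2 ^ (i + 1) ≤ CM := div_le_self hCM.le (one_le_pow₀ (by norm_num))
    rw [hLdef]; linarith
  obtain ⟨N0, hN0⟩ := exists_nat_ge (21 * L)
  refine ⟨N0 + 1, by omega, ?_⟩
  intro b J P hb hb2 hP
  set g : ℕ → ℝ := fun p => 1 / (p : ℝ) with hgdef
  have hb1 : 1 ≤ b := by omega
  set x0 : ℝ := L with hx0
  set v : ℝ := Real.exp (-(2 * x0)) with hv
  have hv0 : 0 < v := Real.exp_pos _
  have hbonfP : ∀ i : Fin J, ∀ l ∈ grp J P i, l.Prime ∧ 12 < l := fun i l hl =>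
    ⟨(hP l (grp_sub J P i hl)).1, (hP l (grp_sub J P i hl)).2.1⟩
  have hgb : ∀ i : Fin J, ∀ l ∈ grp J P i, 0 ≤ g l ∧ g l ≤ 1 := fun i l hl => by
    have h1 : (12 : ℝ) < l := by exact_mod_cast (hbonfP i l hl).2
    simp only [hgdef]
    exact ⟨by positivity, by rw [div_le_one (by linarith)]; linarith⟩
  have hgk : ∀ i : Fin J, ∀ l ∈ grp J P i, g l ≤ 1 / 2 := fun i l hl => by
    have h1 : (12 : ℝ) < l := by exact_mod_cast (hbonfP i l hl).2
    simp only [hgdef]
    exact one_div_le_one_div_of_le (by norm_num) (by linarith)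
  set V : Fin J → ℝ := fun i => ∏ l ∈ grp J P i, (1 - g l) with hVdef
  set Tr : Fin J → ℝ := fun i => bhA g (bb b J i) (grp J P i) with hTr
  set Er : Fin J → ℝ := fun i => bhE g (bb b J i + 1) (grp J P i) with hEr
  have hVeq : Wp P = ∏ i, V i := by
    unfold Wp
    have h1 := bh_pT_eq (grp J P) (grp_G J P) (fun l => 1 - g l)
    rw [bhU_grp J P hP] at h1
    rw [hVdef]
    exact h1.symm
  have hwU : wm (FF b J P) (cU b J) = ∏ i, Tr i := by
    unfold wm
    apply prod_congr rfl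
    intro i _
    rw [sum_cU]
    rfl
  have hwK : ∀ k, wm (FF b J P) (cK b J k) = Er k * ∏ i ∈ univ.erase k, Tr i := by
    intro k
    unfold wm
    rw [← mul_prod_erase univ _ (mem_univ k)]
    congr 1
    · have h1 := sum_cE b J P k (fun V => ∏ l ∈ V, (1 / (l : ℝ)))
      have h2 : ∀ V, cK b J k k V = cE b J k V := fun V => by unfold cK; rw [if_pos rfl]
      simp only [h2]
      rw [h1]
      rfl
    · apply prod_congr rfl
      intro i hi
      have hik : i ≠ k := (mem_erase.1 hi).1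
      have h2 : ∀ V, cK b J k i V = cU b J i V := fun V => by unfold cK; rw [if_neg hik]
      simp only [h2]
      rw [sum_cU]
      rfl
  have hbonf : ∀ i, V i ≤ Tr i ∧ Tr i ≤ V i + Er i := by
    intro i
    have h := bh_bonf g (grp J P i) (hgb i) (bb b J i)
    rw [(bb_even b J i).neg_one_pow, one_mul] at h
    constructor
    · have := h.1; simp only [hVdef, hTr]; linarith
    · have := h.2; simp only [hVdef, hTr, hEr]; linarith
  have hgsum : ∀ i, ∑ l ∈ grp J P i, g l ≤ x0 := by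
    intro i
    calc ∑ l ∈ grp J P i, g l ≤ ∑ l ∈ Gj ((i : ℕ) + 1), g l := by
          apply sum_le_sum_of_subset_of_nonneg (grp_G J P i)
          intro l _ _
          simp only [hgdef]
          positivity
      _ ≤ L := hLs i
  have hVv : ∀ i, v ≤ V i := by
    intro i
    have h1 : Real.exp (-(2 * ∑ l ∈ grp J P i, g l)) ≤ V i := by
      have h2 : -(2 * ∑ l ∈ grp J P i, g l) = ∑ l ∈ grp J P i, -(2 * g l) := by
        rw [mul_sum, ← sum_neg_distrib]
      rw [h2, Real.exp_sum]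
      refine prod_le_prod (fun l _ => (Real.exp_pos _).le) fun l hl => ?_
      exact bh_inv_ge (hgb i l hl).1 (hgk i l hl)
    refine le_trans ?_ h1
    rw [hv]
    exact Real.exp_le_exp.2 (by linarith [hgsum i])
  have hEr0 : ∀ i, 0 ≤ Er i := fun i => bhE_nonneg _ _ _ fun l hl => (hgb i l hl).1
  have hErle : ∀ i, Er i ≤ x0 ^ (bb b J i + 1) / (bb b J i + 1).factorial := by
    intro i
    refine (bhE_le g (grp J P i) (fun l hl => (hgb i l hl).1) (bb b J i + 1)).trans ?_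
    have h0 : 0 ≤ ∑ l ∈ grp J P i, g l := sum_nonneg fun l hl => (hgb i l hl).1
    have h1 := hgsum i
    gcongr
  have hErv : ∀ i, Er i / v ≤ (1 / 2) ^ (bb b J i + 1) := by
    intro i
    have h1 : Er i / v = Er i * Real.exp (2 * x0) := by
      rw [hv, Real.exp_neg, div_inv_eq_mul]
    rw [h1]
    refine le_trans (mul_le_mul_of_nonneg_right (hErle i) (Real.exp_pos _).le) ?_
    apply tail_one x0 hL0.le (bb b J i + 1) (by omega)
    have h2 : ((N0 : ℕ) : ℝ) ≤ ((bb b J i + 1 : ℕ) : ℝ) := by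
      have : N0 ≤ bb b J i + 1 := by unfold bb; omega
      exact_mod_cast this
    linarith
  set s : ℝ := ∑ i, Er i / v with hs
  have hs0 : 0 ≤ s := sum_nonneg fun i _ => div_nonneg (hEr0 i) hv0.le
  have hErsum : s ≤ 2 / 3 * (1 / 4) ^ b :=
    le_trans (sum_le_sum fun i _ => hErv i) (tail_b b J)
  have hs2 : s ≤ 1 / 4 := by
    have h1 : (1 / 4 : ℝ) ^ b ≤ (1 / 4) ^ 1 := pow_le_pow_of_le_one (by norm_num) (by norm_num) hb1
    linarith
  have hV0 : ∀ i, 0 < V i := fun i => lt_of_lt_of_le hv0 (hVv i)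
  have hTr0 : ∀ i, 0 < Tr i := fun i => lt_of_lt_of_le (hV0 i) (hbonf i).1
  have hV00 : 0 ≤ ∏ i, V i := prod_nonneg fun i _ => (hV0 i).le
  have hTr00 : 0 ≤ ∏ i, Tr i := prod_nonneg fun i _ => (hTr0 i).le
  have hTp : ∏ i, V i ≤ ∏ i, Tr i := prod_le_prod (fun i _ => (hV0 i).le) fun i _ => (hbonf i).1
  have hk : ∀ k, Er k * ∏ i ∈ univ.erase k, Tr i ≤ Er k / v * ∏ i, Tr i := by
    intro k
    have h1 : ∏ i, Tr i = Tr k * ∏ i ∈ univ.erase k, Tr i :=
      (mul_prod_erase univ Tr (mem_univ k)).symm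
    have h2 : 0 ≤ ∏ i ∈ univ.erase k, Tr i := prod_nonneg fun i _ => (hTr0 i).le
    rw [h1, div_mul_eq_mul_div, le_div_iff₀ hv0]
    have h3 : v ≤ Tr k := (hVv k).trans (hbonf k).1
    have h4 : Er k * (∏ i ∈ univ.erase k, Tr i) * v ≤
        Er k * (∏ i ∈ univ.erase k, Tr i) * Tr k :=
      mul_le_mul_of_nonneg_left h3 (mul_nonneg (hEr0 k) h2)
    linarith
  have hup : ∏ i, Tr i ≤ 4 / 3 * ∏ i, V i := by
    have h1 : ∏ i, Tr i ≤ ∏ i, V i * Real.exp (Er i / v) := by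
      refine prod_le_prod (fun i _ => (hTr0 i).le) fun i _ => ?_
      refine (hbonf i).2.trans ?_
      have h2 := Real.add_one_le_exp (Er i / v)
      have h3 : V i * (Er i / v + 1) ≤ V i * Real.exp (Er i / v) :=
        mul_le_mul_of_nonneg_left h2 (hV0 i).le
      refine le_trans ?_ h3
      have h4 : Er i ≤ V i * (Er i / v) := by
        rw [← mul_div_assoc, le_div_iff₀ hv0, mul_comm (V i)]
        exact mul_le_mul_of_nonneg_left (hVv i) (hEr0 i)
      linarith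
    rw [prod_mul_distrib, ← Real.exp_sum] at h1
    have hexp : Real.exp s ≤ 4 / 3 := by
      have h1 := Real.abs_exp_sub_one_sub_id_le (x := s) (by rw [abs_of_nonneg hs0]; linarith)
      have h2 := (abs_le.1 h1).2
      nlinarith
    calc ∏ i, Tr i ≤ (∏ i, V i) * Real.exp s := h1
      _ ≤ (∏ i, V i) * (4 / 3) := mul_le_mul_of_nonneg_left hexp hV00
      _ = _ := by ring
  have hEn : ∀ k, Er k / v ≤ s := fun k =>
    single_le_sum (f := fun i => Er i / v) (fun i _ => div_nonneg (hEr0 i) hv0.le) (mem_univ k)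
  rw [hwU, hVeq]
  refine ⟨hTr00, by linarith, fun k => ?_, ?_⟩
  · rw [hwK]
    refine ⟨mul_nonneg (hEr0 k) (prod_nonneg fun i _ => (hTr0 i).le), ?_⟩
    refine (hk k).trans ?_
    calc Er k / v * ∏ i, Tr i ≤ 1 / 4 * (4 / 3 * ∏ i, V i) := by
          apply mul_le_mul ((hEn k).trans hs2) hup hTr00 (by norm_num)
      _ ≤ 2 * ∏ i, V i := by linarith
  · rw [sum_congr rfl fun k _ => hwK k]
    have hsum : ∑ k, Er k * ∏ i ∈ univ.erase k, Tr i ≤ 1 / 4 * ∏ i, Tr i := by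
      calc ∑ k, Er k * ∏ i ∈ univ.erase k, Tr i ≤ ∑ k, Er k / v * ∏ i, Tr i :=
            sum_le_sum fun k _ => hk k
        _ = s * ∏ i, Tr i := by rw [← sum_mul]
        _ ≤ _ := mul_le_mul_of_nonneg_right hs2 hTr00
    linarith

end Pool.Agent.H36.BF
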