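import Mathlib
import Pool.Agent.H36.BF.Sieve

/-!
Deviation of the sums of the sieve functions over the survivors.
-/

set_option autoImplicit false

open Finset

namespace Pool.Agent.H36.BF

open Pool.Agent.Helper112.LP Pool.Agent.Helper112.LP.Kba Pool.Agent.Helper112.LP.Kbh
open Pool.Agent.H483R2.BHKD Pool.Agent.H20R2.FL Pool.Agent.H36.RW Pool.Agent.H373R2.T7

section prep

variable (b J : ℕ) (P : Finset ℕ)

/-- the index set -/
def UU : Finset (Fin J → Finset ℕ) := Fintype.piFinset (FF b J P)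

lemma UU_sub {T : Fin J → Finset ℕ} (hT : T ∈ UU b J P) : ∀ i, T i ⊆ grp J P i := by
  unfold UU at hT
  rw [Fintype.mem_piFinset] at hT
  intro i
  have := hT i
  unfold FF at this
  exact mem_powerset.1 (mem_filter.1 this).1

lemma UU_card {T : Fin J → Finset ℕ} (hT : T ∈ UU b J P) : ∀ i, (T i).card ≤ bb b J i + 1 := by
  unfold UU at hT
  rw [Fintype.mem_piFinset] at hT
  intro i
  have := hT i
  unfold FF at this
  exact (mem_filter.1 this).2

lemma UU_bhU {T : Fin J → Finset ℕ} (hT : T ∈ UU b J P) : bhU T ⊆ P := by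
  intro p hp
  unfold bhU at hp
  obtain ⟨i, _, hi⟩ := mem_biUnion.1 hp
  exact grp_sub J P i (UU_sub b J P hT i hi)

lemma UU_G {T : Fin J → Finset ℕ} (hT : T ∈ UU b J P) : ∀ i : Fin J, T i ⊆ Gj ((i : ℕ) + 1) := fun i =>
  (UU_sub b J P hT i).trans (grp_G J P i)

lemma UU_inj {T T' : Fin J → Finset ℕ} (hT : T ∈ UU b J P) (hT' : T' ∈ UU b J P) (h : bhU T = bhU T') : T = T' := by
  funext i
  ext l
  have aux : ∀ T T' : Fin J → Finset ℕ, (∀ i : Fin J, T i ⊆ Gj ((i : ℕ) + 1)) →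
      (∀ i : Fin J, T' i ⊆ Gj ((i : ℕ) + 1)) → bhU T = bhU T' → l ∈ T i → l ∈ T' i := by
    intro T T' h1 h1' hU hl
    have hlU : l ∈ bhU T' := by
      rw [← hU]; unfold bhU; exact mem_biUnion.2 ⟨i, mem_univ _, hl⟩
    unfold bhU at hlU
    obtain ⟨j, _, hj⟩ := mem_biUnion.1 hlU
    have := bh_Gj_disj (h1 i hl) (h1' j hj)
    have hij : i = j := Fin.ext this
    rw [hij]; exact hj
  exact ⟨aux T T' (UU_G b J P hT) (UU_G b J P hT') h, aux T' T (UU_G b J P hT') (UU_G b J P hT) h.symm⟩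

lemma UU_M0 {T : Fin J → Finset ℕ} (hT : T ∈ UU b J P) : (bhU T).card ≤ J * (2 * b + 2 * J + 1) := by
  unfold bhU
  refine card_biUnion_le.trans ?_
  calc ∑ i : Fin J, (T i).card ≤ ∑ _i : Fin J, (2 * b + 2 * J + 1) := by
        apply sum_le_sum
        intro i _
        have := UU_card b J P hT i
        unfold bb at this
        omega
    _ = J * (2 * b + 2 * J + 1) := by rw [sum_const, card_univ, Fintype.card_fin, smul_eq_mul]

lemma UU_cardU (hb : 1 ≤ b) (hP : ∀ p ∈ P, p.Prime) : (UU b J P).card ≤ (2 ^ 2 ^ J) ^ (10 * b) := by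
  classical
  calc (UU b J P).card ≤ (Icc 1 ((2 ^ 2 ^ J) ^ (10 * b))).card := by
        apply card_le_card_of_injOn (fun T => ∏ p ∈ bhU T, p)
        · intro T hT
          rw [mem_coe] at hT
          rw [mem_coe, mem_Icc]
          constructor
          · exact Nat.pos_of_ne_zero (prod_ne_zero_iff.2 fun p hp => (hP p (UU_bhU b J P hT hp)).ne_zero)
          · have h3 := bh_level T (UU_G b J P hT) (b0 := 2 * b) (fun i => by
              have := UU_card b J P hT i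
              unfold bb at this
              exact this)
            refine h3.trans ?_
            apply Nat.pow_le_pow_right (by positivity)
            omega
        · intro T hT T' hT' h
          rw [mem_coe] at hT hT'
          have h1 := prod_inj (bhU T) (bhU T') (fun p hp => hP p (UU_bhU b J P hT hp))
            (fun p hp => hP p (UU_bhU b J P hT' hp)) h
          exact UU_inj b J P hT hT' h1
    _ = (2 ^ 2 ^ J) ^ (10 * b) := by rw [Nat.card_Icc]; omega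

lemma empty_mem : (fun _ => ∅ : Fin J → Finset ℕ) ∈ UU b J P := by
  unfold UU
  rw [Fintype.mem_piFinset]
  intro i
  unfold FF
  rw [mem_filter, mem_powerset]
  exact ⟨empty_subset _, by simp⟩

open Classical in
/-- centred coefficients -/
noncomputable def cc (C : Fin J → Finset ℕ → ℝ) (T : Fin J → Finset ℕ) : ℝ :=
  ∏ i, C i (T i) - if T = (fun _ => ∅) then wm (FF b J P) C else 0

lemma cc_abs (C : Fin J → Finset ℕ → ℝ) (hC : ∀ i V, |C i V| ≤ 1) (hw : |wm (FF b J P) C| ≤ 2)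
    (T : Fin J → Finset ℕ) : |cc b J P C T| ≤ 3 := by
  unfold cc
  have h1 : |∏ i, C i (T i)| ≤ 1 := by
    rw [abs_prod]
    exact prod_le_one (fun _ _ => abs_nonneg _) (fun i _ => hC i (T i))
  split_ifs
  · have := abs_sub (∏ i, C i (T i)) (wm (FF b J P) C)
    linarith
  · rw [sub_zero]
    linarith

lemma cc_mean (C : Fin J → Finset ℕ → ℝ) : ∑ T ∈ UU b J P, cc b J P C T * ∏ p ∈ bhU T, (1 / (p : ℝ)) = 0 := by
  classical
  unfold cc
  simp only [sub_mul]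
  rw [sum_sub_distrib]
  have h1 : ∑ T ∈ UU b J P, (∏ i, C i (T i)) * ∏ p ∈ bhU T, (1 / (p : ℝ)) = wm (FF b J P) C := by
    unfold wm
    rw [prod_univ_sum]
    apply sum_congr rfl
    intro T hT
    rw [prod_mul_distrib, bh_pT_eq T (UU_G b J P hT) (fun l => 1 / (l : ℝ))]
  have h2 : ∑ T ∈ UU b J P, (if T = (fun _ => ∅) then wm (FF b J P) C else 0) * ∏ p ∈ bhU T, (1 / (p : ℝ)) =
      wm (FF b J P) C := by
    rw [sum_eq_single (fun _ => ∅)]
    · rw [if_pos rfl]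
      have : bhU (fun _ => ∅ : Fin J → Finset ℕ) = ∅ := by
        unfold bhU
        ext x
        simp
      rw [this, prod_empty, mul_one]
    · intro T _ hT
      rw [if_neg hT, zero_mul]
    · intro h
      exact absurd (empty_mem b J P) h
  rw [h1, h2, sub_self]

lemma Lam_cc (C : Fin J → Finset ℕ → ℝ) (m : ℕ) :
    Lam (UU b J P) bhU (cc b J P C) m = GG (FF b J P) C m - wm (FF b J P) C := by
  classical
  unfold Lam cc
  have h1 : ∀ T ∈ UU b J P, (if ∀ p ∈ bhU T, p ∣ m then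
      ∏ i, C i (T i) - (if T = (fun _ => ∅) then wm (FF b J P) C else 0) else 0) =
      (if ∀ p ∈ bhU T, p ∣ m then ∏ i, C i (T i) else 0) - if T = (fun _ => ∅) then wm (FF b J P) C else 0 := by
    intro T _
    by_cases h : ∀ p ∈ bhU T, p ∣ m
    · rw [if_pos h, if_pos h]
    · rw [if_neg h, if_neg h]
      have : T ≠ (fun _ => ∅) := by
        intro h2
        apply h
        intro p hp
        rw [h2] at hp
        unfold bhU at hp
        simp at hp
      rw [if_neg this, sub_zero]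
  have h0 : ∑ T ∈ UU b J P, (if ∀ p ∈ bhU T, p ∣ m then
      ∏ i, C i (T i) - (if T = (fun _ => ∅) then wm (FF b J P) C else 0) else 0) =
      ∑ T ∈ UU b J P, ((if ∀ p ∈ bhU T, p ∣ m then ∏ i, C i (T i) else 0) -
        if T = (fun _ => ∅) then wm (FF b J P) C else 0) := sum_congr rfl h1
  have h2 : ∑ T ∈ UU b J P, (if ∀ p ∈ bhU T, p ∣ m then ∏ i, C i (T i) else 0) = GG (FF b J P) C m := by
    unfold GG
    rw [prod_univ_sum]
    apply sum_congr rfl
    intro T _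
    rw [Fintype.prod_ite_zero]
    by_cases h : ∀ p ∈ bhU T, p ∣ m
    · rw [if_pos h, if_pos ((all_bhU T (fun l => l ∣ m)).2 h)]
    · rw [if_neg h, if_neg (fun h' => h ((all_bhU T (fun l => l ∣ m)).1 h'))]
  have h3 : ∑ T ∈ UU b J P, (if T = (fun _ => ∅) then wm (FF b J P) C else 0) = wm (FF b J P) C := by
    rw [sum_ite_eq' (UU b J P) (fun _ => ∅) (fun _ => wm (FF b J P) C), if_pos (empty_mem b J P)]
  rw [sum_sub_distrib, h2, h3] at h0
  exact h0

end prep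

/-- the bound for the moment -/
noncomputable def MB (k X b1 Jd b J : ℕ) (S P1 P2 : Finset ℕ) (z1 : ℝ) : ℝ :=
  X * (3 ^ (2 * k) * ((k : ℝ) ^ (2 * k) * (Real.exp 2 * (S.card * Wp P1) ^ k) * ∏ p ∈ P2, (1 + (2 : ℝ) ^ (2 * k) / p) +
        (S.card : ℝ) ^ (2 * k) * (((2 * k : ℕ) : ℝ) * ((J * (2 * b + 2 * J + 1) : ℕ) : ℝ) / z1 *
          (∏ p ∈ P2, (1 + (2 : ℝ) ^ (2 * k) / p)) ^ 2) +
        (S.card : ℝ) ^ (2 * k) * ((1 / 2) ^ b1 * ∏ p ∈ P2, (1 + (2 : ℝ) ^ (2 * k) / p)))) +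
      (S.card : ℝ) ^ (2 * k) * (((2 : ℝ) ^ 2 ^ J) ^ (10 * b)) ^ (2 * k) * (3 ^ (2 * k) *
        (((Jd : ℝ) + 2) * (((2 : ℝ) ^ 2 ^ Jd) ^ (10 * b1)) ^ 2 + 3))

/-- deviation of one sieve function -/
theorem devC : ∃ C0 : ℕ, 1 ≤ C0 ∧ ∀ (b1 Jd y q r T k X b J : ℕ) (P1 P2 S : Finset ℕ)
    (C : Fin J → Finset ℕ → ℝ) (z1 ε : ℝ), 1 ≤ k → C0 * (2 * k) ≤ b1 → 2 ≤ b1 → 4 * k + 10 ≤ y →
    (∀ p ∈ P1, p.Prime ∧ y < p ∧ p ≤ 2 ^ 2 ^ Jd ∧ ¬ p ∣ q) → S ⊆ Icc 1 T →
    16 * Wp (P1.filter (fun p => T < p)) * T ≤ Wp (P1.filter (fun p => p ≤ T)) * y →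
    1 ≤ S.card * Wp P1 → 0 < z1 → (∀ p ∈ P2, p.Prime ∧ T < p ∧ ¬ p ∣ q ∧ p ∉ P1 ∧ z1 ≤ p) → 1 ≤ b →
    (∀ i V, |C i V| ≤ 1) → |wm (FF b J P2) C| ≤ 2 → 0 < ε →
    (((Icc 1 X).filter (fun l => ε < |∑ h ∈ S.filter (fun h => ∀ p ∈ P1, ¬ p ∣ q * l + r + h),
      GG (FF b J P2) C (q * l + r + h) - wm (FF b J P2) C * XX q r P1 S l|)).card : ℝ) * ε ^ (2 * k) ≤
      MB k X b1 Jd b J S P1 P2 z1 := by
  classical
  obtain ⟨C0, hC0, hB⟩ := thmB
  refine ⟨C0, hC0, ?_⟩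
  intro b1 Jd y q r T k X b J P1 P2 S C z1 ε hk hb hb2 hy hP1 hS hT hμ hz1 hP2 hb0 hC hw hε
  have key := hB (Fin J → Finset ℕ) b1 Jd y q r T k X (J * (2 * b + 2 * J + 1)) P1 P2 S (UU b J P2) bhU (cc b J P2 C) 3 z1
    hk hb hb2 hy hP1 hS hT hμ hz1 hP2 (by norm_num) (fun u hu => UU_bhU b J P2 hu)
    (fun u hu u' hu' h => UU_inj b J P2 hu hu' h) (fun u hu => UU_M0 b J P2 hu) (fun u _ => cc_abs b J P2 C hC hw u)
    (cc_mean b J P2 C)
  have hYY : ∀ l, YY q r P1 S (UU b J P2) bhU (cc b J P2 C) l =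
      ∑ h ∈ S.filter (fun h => ∀ p ∈ P1, ¬ p ∣ q * l + r + h), GG (FF b J P2) C (q * l + r + h) -
        wm (FF b J P2) C * XX q r P1 S l := by
    intro l
    unfold YY XX
    rw [sum_congr rfl fun h _ => Lam_cc b J P2 C (q * l + r + h), sum_sub_distrib, sum_const, nsmul_eq_mul]
    ring
  have hcard : ((UU b J P2).card : ℝ) ≤ ((2 : ℝ) ^ 2 ^ J) ^ (10 * b) := by
    exact_mod_cast UU_cardU b J P2 hb0 fun p hp => (hP2 p hp).1
  set B := (Icc 1 X).filter (fun l => ε < |∑ h ∈ S.filter (fun h => ∀ p ∈ P1, ¬ p ∣ q * l + r + h),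
      GG (FF b J P2) C (q * l + r + h) - wm (FF b J P2) C * XX q r P1 S l|) with hBd
  calc (B.card : ℝ) * ε ^ (2 * k) = ∑ l ∈ B, ε ^ (2 * k) := by rw [sum_const, nsmul_eq_mul]
    _ ≤ ∑ l ∈ B, YY q r P1 S (UU b J P2) bhU (cc b J P2 C) l ^ (2 * k) := by
        apply sum_le_sum
        intro l hl
        rw [hBd, mem_filter] at hl
        rw [hYY l]
        have h1 : ∀ x : ℝ, x ^ (2 * k) = |x| ^ (2 * k) := fun x => by rw [pow_mul, pow_mul, sq_abs]
        rw [h1 (_ - _)]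
        exact pow_le_pow_left₀ hε.le hl.2.le _
    _ ≤ ∑ l ∈ Icc 1 X, YY q r P1 S (UU b J P2) bhU (cc b J P2 C) l ^ (2 * k) := by
        apply sum_le_sum_of_subset_of_nonneg (filter_subset _ _)
        intro l _ _
        rw [pow_mul]
        positivity
    _ ≤ _ := by
        refine key.trans ?_
        unfold MB
        gcongr

end Pool.Agent.H36.BF
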