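import Mathlib
import Pool.Agent.H36.BF.Dev
import Pool.Agent.H36.RW.Mert

/-!
The number of survivors of the primes up to a small power of the numbers themselves.
-/

set_option autoImplicit false

open Finset

namespace Pool.Agent.H36.BF

open Pool.Agent.H36.RW Pool.Agent.H373R2.T7

/-- the right order of magnitude -/
def Ok (c C x μ : ℝ) : Prop := c * μ ≤ x ∧ x ≤ C * μ

open Classical in
theorem two : ∃ C0 C1 : ℕ, 1 ≤ C0 ∧ ∀ (b1 Jd y q r T k X b J : ℕ) (P1 P2 S : Finset ℕ) (z1 : ℝ),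
    1 ≤ k → C0 * (2 * k) ≤ b1 → 2 ≤ b1 → 4 * k + 10 ≤ y →
    (∀ p ∈ P1, p.Prime ∧ y < p ∧ p ≤ 2 ^ 2 ^ Jd ∧ ¬ p ∣ q) → S ⊆ Icc 1 T →
    16 * Wp (P1.filter (fun p => T < p)) * T ≤ Wp (P1.filter (fun p => p ≤ T)) * y →
    (k : ℝ) ≤ S.card * Wp P1 → 0 < z1 →
    (∀ p ∈ P2, p.Prime ∧ T < p ∧ ¬ p ∣ q ∧ p ∉ P1 ∧ z1 ≤ p ∧ 12 < p ∧ p ≤ 2 ^ 2 ^ J) → C1 ≤ b → 2 ≤ b →
    (((Icc 1 X).filter (fun l => ¬ Ok (1 / 8) 4 (XX q r (P1 ∪ P2) S l) (Wp P2 * (S.card * Wp P1)))).card : ℝ) ≤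
      X * (2 * (16 * Real.exp 5 * k / (S.card * Wp P1)) ^ k + (1 / 2) ^ b1 * (16 * Real.exp 7) ^ k) +
      (2 * (S.card + S.card * Wp P1) / (S.card * Wp P1)) ^ (2 * k) *
        (((Jd : ℝ) + 2) * (((2 : ℝ) ^ 2 ^ Jd) ^ (10 * b1)) ^ 2) +
      (J + 1) * (MB k X b1 Jd b J S P1 P2 z1 / (Wp P2 * (S.card * Wp P1) / (8 * (J + 1))) ^ (2 * k)) := by
  obtain ⟨Ca, hCa, hcore⟩ := core
  obtain ⟨Cb, hCb, hdev⟩ := devC
  obtain ⟨C1, hC1, hmean⟩ := sieve_mean
  refine ⟨max Ca Cb, C1, le_trans hCa (le_max_left _ _), ?_⟩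
  intro b1 Jd y q r T k X b J P1 P2 S z1 hk hb1 hb12 hy hP1 hS hT hμ hz1 hP2 hb hb2
  have hba : Ca * (2 * k) ≤ b1 := (Nat.mul_le_mul_right _ (le_max_left _ _)).trans hb1
  have hbb : Cb * (2 * k) ≤ b1 := (Nat.mul_le_mul_right _ (le_max_right _ _)).trans hb1
  have hk0 : (1 : ℝ) ≤ k := by exact_mod_cast hk
  set μ : ℝ := S.card * Wp P1 with hμd
  have hμ1 : 1 ≤ μ := hk0.trans hμ
  have hμ0 : 0 < μ := by linarith
  have hW0 : 0 < Wp P2 := Wp_pos P2 (fun p hp => (hP2 p hp).1.two_le)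
  set W2 := Wp P2 with hW2
  have hW21 : W2 ≤ 1 := by
    rw [hW2]
    unfold Wp
    apply prod_le_one
    · intro p hp
      exact (fac_bounds (hP2 p hp).1).1
    · intro p hp
      exact (fac_bounds (hP2 p hp).1).2
  have hPs : ∀ p ∈ P2, p.Prime ∧ 12 < p ∧ p ≤ 2 ^ 2 ^ J := fun p hp =>
    ⟨(hP2 p hp).1, (hP2 p hp).2.2.2.2.2.1, (hP2 p hp).2.2.2.2.2.2⟩
  obtain ⟨hm1, hm2, hm3, hm4⟩ := hmean b J P2 hb hb2 hPs
  set ε : ℝ := W2 * μ / (8 * (J + 1)) with hε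
  have hJ0 : (0 : ℝ) ≤ J := Nat.cast_nonneg J
  have hε0 : 0 < ε := by positivity
  have hP2' : ∀ p ∈ P2, p.Prime ∧ T < p ∧ ¬ p ∣ q ∧ p ∉ P1 ∧ z1 ≤ p := fun p hp =>
    ⟨(hP2 p hp).1, (hP2 p hp).2.1, (hP2 p hp).2.2.1, (hP2 p hp).2.2.2.1, (hP2 p hp).2.2.2.2.1⟩
  have hd := fun C hC hw => hdev b1 Jd y q r T k X b J P1 P2 S C z1 ε hk hbb hb12 hy hP1 hS hT hμ1 hz1 hP2'
    (by omega) hC hw hε0
  -- the exceptional sets
  set Dv : (Fin J → Finset ℕ → ℝ) → Finset ℕ := fun C => (Icc 1 X).filter (fun l => ε <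
    |∑ h ∈ S.filter (fun h => ∀ p ∈ P1, ¬ p ∣ q * l + r + h), GG (FF b J P2) C (q * l + r + h) -
      wm (FF b J P2) C * XX q r P1 S l|) with hDv
  have hDvb : ∀ C : Fin J → Finset ℕ → ℝ, (∀ i V, |C i V| ≤ 1) → |wm (FF b J P2) C| ≤ 2 →
      ((Dv C).card : ℝ) ≤ MB k X b1 Jd b J S P1 P2 z1 / ε ^ (2 * k) := by
    intro C hC hw
    rw [le_div_iff₀ (by positivity)]
    have := hd C hC hw
    convert this using 3
  set B0 := (Icc 1 X).filter (fun l => 1 / 2 * μ < |(XX q r P1 S l : ℝ) - μ|) with hB0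
  have hB0c : (B0.card : ℝ) ≤ X * (2 * (16 * Real.exp 5 * k / μ) ^ k + (1 / 2) ^ b1 * (16 * Real.exp 7) ^ k) +
      (2 * (S.card + μ) / μ) ^ (2 * k) * (((Jd : ℝ) + 2) * (((2 : ℝ) ^ 2 ^ Jd) ^ (10 * b1)) ^ 2) := by
    have h1 := hcore q r P1 S y T k b1 Jd X (1 / 2) hk hba hb12 hy hP1 hS hT hμ (by norm_num)
    rw [← hμd] at h1
    have e1 : 4 * Real.exp 5 * k / ((1 / 2) ^ 2 * μ) = 16 * Real.exp 5 * k / μ := by
      field_simp
      ring
    have e2 : 4 * Real.exp 7 / (1 / 2) ^ 2 = 16 * Real.exp 7 := by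
      field_simp
      ring
    have e3 : ((S.card : ℝ) + μ) / (1 / 2 * μ) = 2 * (S.card + μ) / μ := by
      field_simp
    rw [e1, e2, e3] at h1
    convert h1 using 4
  have hsub : (Icc 1 X).filter (fun l => ¬ Ok (1 / 8) 4 (XX q r (P1 ∪ P2) S l) (W2 * μ)) ⊆
      B0 ∪ (Dv (cU b J) ∪ univ.biUnion (fun k => Dv (cK b J k))) := by
    intro l hl
    rw [mem_filter] at hl
    obtain ⟨hl1, hl2⟩ := hl
    by_contra hno
    apply hl2
    rw [mem_union, mem_union, mem_biUnion] at hno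
    push Not at hno
    obtain ⟨h1, h2, h3⟩ := hno
    have h1' : |(XX q r P1 S l : ℝ) - μ| ≤ 1 / 2 * μ := by
      by_contra h
      apply h1
      rw [hB0, mem_filter]
      exact ⟨hl1, not_le.1 h⟩
    set x1 : ℝ := (XX q r P1 S l : ℝ) with hx1
    set S1 := S.filter (fun h => ∀ p ∈ P1, ¬ p ∣ q * l + r + h) with hS1
    have hdv : ∀ C, l ∉ Dv C → |∑ h ∈ S1, GG (FF b J P2) C (q * l + r + h) - wm (FF b J P2) C * x1| ≤ ε := by
      intro C hC
      by_contra h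
      apply hC
      rw [hDv, mem_filter]
      exact ⟨hl1, not_le.1 h⟩
    have h2' := hdv _ h2
    have h3' : ∀ k, |∑ h ∈ S1, GG (FF b J P2) (cK b J k) (q * l + r + h) - wm (FF b J P2) (cK b J k) * x1| ≤ ε :=
      fun k => hdv _ (h3 k (mem_univ k))
    have hN : (XX q r (P1 ∪ P2) S l : ℝ) = ∑ h ∈ S1, if ∀ p ∈ P2, ¬ p ∣ q * l + r + h then (1 : ℝ) else 0 := by
      unfold XX
      rw [← sum_filter, sum_const, nsmul_eq_mul, mul_one, hS1, filter_filter]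
      congr 2
      apply filter_congr
      intro h _
      constructor
      · intro h4
        exact ⟨fun p hp => h4 p (mem_union_left _ hp), fun p hp => h4 p (mem_union_right _ hp)⟩
      · rintro ⟨h4, h5⟩ p hp
        rcases mem_union.1 hp with h6 | h6
        · exact h4 p h6
        · exact h5 p h6
    have hptw := fun m => sieve_ptw b J P2 hPs m
    have hup : (XX q r (P1 ∪ P2) S l : ℝ) ≤ ∑ h ∈ S1, GG (FF b J P2) (cU b J) (q * l + r + h) := by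
      rw [hN]
      apply sum_le_sum
      intro h _
      have := (hptw (q * l + r + h)).1
      convert this
    have hlo : ∑ h ∈ S1, GG (FF b J P2) (cU b J) (q * l + r + h) -
        ∑ k, ∑ h ∈ S1, GG (FF b J P2) (cK b J k) (q * l + r + h) ≤ (XX q r (P1 ∪ P2) S l : ℝ) := by
      rw [hN, sum_comm (s := (univ : Finset (Fin J))), ← sum_sub_distrib]
      apply sum_le_sum
      intro h _
      have := (hptw (q * l + r + h)).2
      convert this
    have ha := abs_le.1 h1'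
    have hb' := abs_le.1 h2'
    have hx1lo : 1 / 2 * μ ≤ x1 := by linarith
    have hx1hi : x1 ≤ 3 / 2 * μ := by linarith
    have hεle : ε ≤ 1 / 8 * (W2 * μ) := by
      rw [hε, div_le_iff₀ (by positivity)]
      have : 0 ≤ W2 * μ * J := by positivity
      nlinarith
    constructor
    · have hsum : ∑ k, ∑ h ∈ S1, GG (FF b J P2) (cK b J k) (q * l + r + h) ≤
          ∑ k, (wm (FF b J P2) (cK b J k) * x1 + ε) := by
        apply sum_le_sum
        intro k _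
        have := (abs_le.1 (h3' k)).2
        linarith
      rw [sum_add_distrib, ← sum_mul, sum_const, card_univ, Fintype.card_fin, nsmul_eq_mul] at hsum
      have hJε : (J : ℝ) * ε + ε = 1 / 8 * (W2 * μ) := by
        rw [hε]
        field_simp
      have h5 : (wm (FF b J P2) (cU b J) - ∑ k, wm (FF b J P2) (cK b J k)) * x1 ≥ 1 / 2 * W2 * (1 / 2 * μ) :=
        mul_le_mul hm4 hx1lo (by positivity) (le_trans (by positivity) hm4)
      rw [sub_mul] at h5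
      linarith
    · have h5 : wm (FF b J P2) (cU b J) * x1 ≤ 2 * W2 * (3 / 2 * μ) :=
        mul_le_mul hm2 hx1hi (Nat.cast_nonneg _) (by positivity)
      have h6 : 0 < W2 * μ := by positivity
      linarith
  have hcard := (card_le_card hsub).trans (card_union_le _ _)
  have hcard2 := card_union_le (Dv (cU b J)) (univ.biUnion (fun k => Dv (cK b J k)))
  have hcard3 : (univ.biUnion (fun k => Dv (cK b J k))).card ≤ ∑ k : Fin J, (Dv (cK b J k)).card := card_biUnion_le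
  have hcr : (((Icc 1 X).filter (fun l => ¬ Ok (1 / 8) 4 (XX q r (P1 ∪ P2) S l) (W2 * μ))).card : ℝ) ≤
      B0.card + ((Dv (cU b J)).card + ∑ k : Fin J, ((Dv (cK b J k)).card : ℝ)) := by
    have : ((Icc 1 X).filter (fun l => ¬ Ok (1 / 8) 4 (XX q r (P1 ∪ P2) S l) (W2 * μ))).card ≤
      B0.card + ((Dv (cU b J)).card + ∑ k : Fin J, (Dv (cK b J k)).card) := by omega
    exact_mod_cast this
  refine hcr.trans ?_
  have h7 := hDvb (cU b J) (cU_abs b J) (by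
    rw [abs_of_nonneg hm1]
    linarith)
  have h8 : ∀ k, ((Dv (cK b J k)).card : ℝ) ≤ MB _ X b1 Jd b J S P1 P2 z1 / ε ^ (2 * _) := fun k =>
    hDvb (cK b J k) (cK_abs b J k) (by
      rw [abs_of_nonneg (hm3 k).1]
      linarith [(hm3 k).2])
  have h9 : ∑ k : Fin J, ((Dv (cK b J k)).card : ℝ) ≤ J * (MB k X b1 Jd b J S P1 P2 z1 / ε ^ (2 * k)) := by
    calc ∑ k : Fin J, ((Dv (cK b J k)).card : ℝ) ≤ ∑ _k : Fin J, (MB k X b1 Jd b J S P1 P2 z1 / ε ^ (2 * k)) :=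
          sum_le_sum fun k _ => h8 k
      _ = _ := by rw [sum_const, card_univ, Fintype.card_fin, nsmul_eq_mul]
  have e5 : ((J : ℝ) + 1) * (MB k X b1 Jd b J S P1 P2 z1 / ε ^ (2 * k)) =
      J * (MB k X b1 Jd b J S P1 P2 z1 / ε ^ (2 * k)) + MB k X b1 Jd b J S P1 P2 z1 / ε ^ (2 * k) := by ring
  rw [e5]
  linarith

end Pool.Agent.H36.BF
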