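import Mathlib
import Pool.Agent.H36.BF.Two

/-!
The bound for the exceptional set, simplified.
-/

set_option autoImplicit false

open Finset

namespace Pool.Agent.H36.BF

open Pool.Agent.H36.RW Pool.Agent.H373R2.T7

/-- the bound of theorem `two` -/
noncomputable def BD (k X b1 Jd b J : ℕ) (S P1 P2 : Finset ℕ) (z1 : ℝ) : ℝ :=
  X * (2 * (16 * Real.exp 5 * k / (S.card * Wp P1)) ^ k + (1 / 2) ^ b1 * (16 * Real.exp 7) ^ k) +
      (2 * (S.card + S.card * Wp P1) / (S.card * Wp P1)) ^ (2 * k) *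
        (((Jd : ℝ) + 2) * (((2 : ℝ) ^ 2 ^ Jd) ^ (10 * b1)) ^ 2) +
      (J + 1) * (MB k X b1 Jd b J S P1 P2 z1 / (Wp P2 * (S.card * Wp P1) / (8 * (J + 1))) ^ (2 * k))

set_option maxHeartbeats 2000000 in
theorem fin_bound (k X b1 Jd b J A : ℕ) (S P1 P2 : Finset ℕ) (z1 L Λ : ℝ) (hk : 1 ≤ k) (hL : 1 ≤ L)
    (hΛ : 1 ≤ Λ) (hΛL : Λ ^ (8 * k + 8) ≤ L) (hc1 : 16 * Real.exp 5 * k ≤ Λ) (hc2 : 16 * Real.exp 7 ≤ Λ)
    (hJ : 8 * ((J : ℝ) + 1) ≤ Λ) (hM : ((2 * k : ℕ) : ℝ) * ((J * (2 * b + 2 * J + 1) : ℕ) : ℝ) ≤ Λ)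
    (hW : ∏ p ∈ P2, (1 + (2 : ℝ) ^ (2 * k) / p) ≤ Λ) (hW2 : 1 / Λ ≤ Wp P2) (hW2' : 0 < Wp P2)
    (hWp1 : 0 < Wp P1) (hWp1' : Wp P1 ≤ 1)
    (hμ1 : 1 ≤ S.card * Wp P1) (hμ : L ^ (A + 3) ≤ (S.card * Wp P1) ^ k)
    (hb1 : (1 / 2 : ℝ) ^ b1 ≤ 1 / L ^ (4 * k + A + 3)) (hz1 : 1 / z1 ≤ 1 / L ^ (4 * k + A + 3)) (hz10 : 0 < z1)
    (hS : (S.card : ℝ) ≤ L ^ 2)
    (hE : ((Jd : ℝ) + 2) * (((2 : ℝ) ^ 2 ^ Jd) ^ (10 * b1)) ^ 2 ≤ Real.exp (L / 16))
    (hD : (((2 : ℝ) ^ 2 ^ J) ^ (10 * b)) ^ (2 * k) ≤ Real.exp (L / 16))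
    (hpol : (4 * L ^ 2) ^ (2 * k) * (4 * L) ≤ Real.exp (L / 16)) :
    BD k X b1 Jd b J S P1 P2 z1 ≤ X * (6 / L ^ (A + 2)) + Real.exp (L / 2) := by
  set s : ℝ := (S.card : ℝ) with hs
  set μ : ℝ := s * Wp P1 with hμd
  set W : ℝ := ∏ p ∈ P2, (1 + (2 : ℝ) ^ (2 * k) / p) with hWd
  set E : ℝ := ((Jd : ℝ) + 2) * (((2 : ℝ) ^ 2 ^ Jd) ^ (10 * b1)) ^ 2 with hEd
  set D : ℝ := (((2 : ℝ) ^ 2 ^ J) ^ (10 * b)) with hDd
  have hX0 : (0 : ℝ) ≤ X := Nat.cast_nonneg X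
  have hL0 : 0 < L := by linarith
  have hΛ0 : 0 < Λ := by linarith
  have hμ0 : 0 < μ := by linarith
  have hs0 : 0 ≤ s := Nat.cast_nonneg _
  have hW0 : 0 ≤ W := prod_nonneg fun p _ => by positivity
  have hE0 : 0 ≤ E := by rw [hEd]; positivity
  have hD0 : 0 ≤ D := by rw [hDd]; positivity
  have hJ0 : (0 : ℝ) ≤ J := Nat.cast_nonneg J
  have hk0 : (1 : ℝ) ≤ k := by exact_mod_cast hk
  have he5 : (1 : ℝ) ≤ Real.exp 5 := Real.one_le_exp (by norm_num)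
  have hkΛ : (k : ℝ) ≤ Λ := by nlinarith
  have h3Λ : (3 : ℝ) ≤ Λ := by nlinarith
  have he2Λ : Real.exp 2 ≤ Λ := by
    have h1 : Real.exp 2 ≤ Real.exp 7 := Real.exp_le_exp.2 (by norm_num)
    have h2 : 0 < Real.exp 7 := Real.exp_pos _
    linarith
  have hJΛ : (J : ℝ) + 1 ≤ Λ := by linarith
  have hpw : ∀ n : ℕ, n ≤ 8 * k + 8 → Λ ^ n ≤ L := fun n hn =>
    (pow_le_pow_right₀ hΛ hn).trans hΛL
  -- term 1
  have t1 : X * (2 * (16 * Real.exp 5 * k / μ) ^ k) ≤ X * (2 / L ^ (A + 2)) := by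
    apply mul_le_mul_of_nonneg_left _ hX0
    have h1 : (16 * Real.exp 5 * k / μ) ^ k ≤ 1 / L ^ (A + 2) := by
      rw [div_pow, div_le_div_iff₀ (by positivity) (by positivity), one_mul]
      calc (16 * Real.exp 5 * k) ^ k * L ^ (A + 2) ≤ Λ ^ k * L ^ (A + 2) := by gcongr
        _ ≤ L * L ^ (A + 2) := mul_le_mul_of_nonneg_right (hpw k (by omega)) (by positivity)
        _ = L ^ (A + 3) := by ring
        _ ≤ μ ^ k := hμ
    calc 2 * (16 * Real.exp 5 * k / μ) ^ k ≤ 2 * (1 / L ^ (A + 2)) := by linarith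
      _ = _ := by ring
  -- term 2
  have hLa : 1 / L ^ (4 * k + A + 3) * L ≤ 1 / L ^ (A + 2) := by
    have e1 : L ^ (4 * k + A + 3) = L ^ (4 * k) * L ^ (A + 2) * L := by ring
    have h1 : 1 ≤ L ^ (4 * k) := one_le_pow₀ hL
    rw [e1, div_mul_eq_mul_div, one_mul, div_le_div_iff₀ (by positivity) (by positivity)]
    have h2 : 0 ≤ L * L ^ (A + 2) := by positivity
    nlinarith
  have t2 : X * ((1 / 2) ^ b1 * (16 * Real.exp 7) ^ k) ≤ X * (1 / L ^ (A + 2)) := by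
    apply mul_le_mul_of_nonneg_left _ hX0
    calc (1 / 2 : ℝ) ^ b1 * (16 * Real.exp 7) ^ k ≤ 1 / L ^ (4 * k + A + 3) * Λ ^ k := by gcongr
      _ ≤ 1 / L ^ (4 * k + A + 3) * L := mul_le_mul_of_nonneg_left (hpw k (by omega)) (by positivity)
      _ ≤ _ := hLa
  -- term 3
  have hs1 : μ ≤ s := by
    rw [hμd]
    nlinarith
  have t3 : (2 * (s + μ) / μ) ^ (2 * k) * E ≤ Real.exp (L / 8) := by
    have h1 : 2 * (s + μ) / μ ≤ 4 * L ^ 2 := by
      rw [div_le_iff₀ hμ0]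
      have : 0 ≤ L ^ 2 := by positivity
      nlinarith
    calc (2 * (s + μ) / μ) ^ (2 * k) * E ≤ (4 * L ^ 2) ^ (2 * k) * E := by gcongr
      _ ≤ ((4 * L ^ 2) ^ (2 * k) * (4 * L)) * Real.exp (L / 16) := by
          have h2 : (4 * L ^ 2) ^ (2 * k) ≤ (4 * L ^ 2) ^ (2 * k) * (4 * L) := by
            have : 0 ≤ (4 * L ^ 2) ^ (2 * k) := by positivity
            nlinarith
          exact mul_le_mul h2 hE hE0 (by positivity)
      _ ≤ Real.exp (L / 16) * Real.exp (L / 16) := mul_le_mul_of_nonneg_right hpol (Real.exp_pos _).le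
      _ = Real.exp (L / 8) := by rw [← Real.exp_add]; congr 1; ring
  -- term 4
  have hden : 1 / (Wp P2 * μ / (8 * (J + 1))) ^ (2 * k) ≤ Λ ^ (4 * k) / μ ^ (2 * k) := by
    have h1 : μ / Λ ^ 2 ≤ Wp P2 * μ / (8 * (J + 1)) := by
      rw [div_le_div_iff₀ (by positivity) (by positivity)]
      rw [div_le_iff₀ hΛ0] at hW2
      calc μ * (8 * ((J : ℝ) + 1)) ≤ μ * Λ := mul_le_mul_of_nonneg_left hJ hμ0.le
        _ = μ * Λ * 1 := by ring
        _ ≤ μ * Λ * (Wp P2 * Λ) := mul_le_mul_of_nonneg_left hW2 (by positivity)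
        _ = _ := by ring
    calc 1 / (Wp P2 * μ / (8 * (J + 1))) ^ (2 * k) ≤ 1 / (μ / Λ ^ 2) ^ (2 * k) := by
          apply one_div_le_one_div_of_le (by positivity)
          exact pow_le_pow_left₀ (by positivity) h1 _
      _ = _ := by
          rw [div_pow, one_div_div, ← pow_mul]
          congr 2
          ring
  have hMB : MB k X b1 Jd b J S P1 P2 z1 ≤ X * (Λ ^ (4 * k + 2) * μ ^ k + 2 * Λ ^ (2 * k + 3) * (L ^ (4 * k) *
      (1 / L ^ (4 * k + A + 3)))) + L ^ (4 * k) * Real.exp (L / 16) * (Λ ^ (2 * k) * (4 * Real.exp (L / 16))) := by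
    unfold MB
    rw [← hs, ← hμd, ← hWd, ← hEd, ← hDd]
    have hs2k : s ^ (2 * k) ≤ L ^ (4 * k) := by
      calc s ^ (2 * k) ≤ (L ^ 2) ^ (2 * k) := by gcongr
        _ = L ^ (4 * k) := by rw [← pow_mul]; congr 1; ring
    have a1 : (k : ℝ) ^ (2 * k) * (Real.exp 2 * μ ^ k) * W ≤ Λ ^ (2 * k) * (Λ * μ ^ k) * Λ := by gcongr
    have a2 : s ^ (2 * k) * (((2 * k : ℕ) : ℝ) * ((J * (2 * b + 2 * J + 1) : ℕ) : ℝ) / z1 * W ^ 2) ≤
        L ^ (4 * k) * (Λ * (1 / L ^ (4 * k + A + 3)) * Λ ^ 2) := by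
      apply mul_le_mul hs2k _ (by positivity) (by positivity)
      apply mul_le_mul _ (by gcongr) (by positivity) (by positivity)
      rw [div_eq_mul_one_div]
      exact mul_le_mul hM hz1 (by positivity) hΛ0.le
    have a3 : s ^ (2 * k) * ((1 / 2) ^ b1 * W) ≤ L ^ (4 * k) * (1 / L ^ (4 * k + A + 3) * Λ) := by gcongr
    have a4 : s ^ (2 * k) * D ^ (2 * k) * (3 ^ (2 * k) * (E + 3)) ≤
        L ^ (4 * k) * Real.exp (L / 16) * (Λ ^ (2 * k) * (4 * Real.exp (L / 16))) := by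
      have h1 : E + 3 ≤ 4 * Real.exp (L / 16) := by
        have : (1 : ℝ) ≤ Real.exp (L / 16) := Real.one_le_exp (by positivity)
        linarith
      gcongr
    have h3 : (3 : ℝ) ^ (2 * k) ≤ Λ ^ (2 * k) := pow_le_pow_left₀ (by norm_num) h3Λ _
    have hr : 0 ≤ L ^ (4 * k) * (1 / L ^ (4 * k + A + 3)) := by positivity
    calc _ ≤ X * (Λ ^ (2 * k) * (Λ ^ (2 * k) * (Λ * μ ^ k) * Λ + L ^ (4 * k) * (Λ * (1 / L ^ (4 * k + A + 3)) * Λ ^ 2) +
          L ^ (4 * k) * (1 / L ^ (4 * k + A + 3) * Λ))) +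
          L ^ (4 * k) * Real.exp (L / 16) * (Λ ^ (2 * k) * (4 * Real.exp (L / 16))) := by
          apply add_le_add _ a4
          apply mul_le_mul_of_nonneg_left _ hX0
          apply mul_le_mul h3 _ _ (by positivity)
          · linarith
          · have b1' : 0 ≤ (k : ℝ) ^ (2 * k) * (Real.exp 2 * μ ^ k) * W := by positivity
            have b2' : 0 ≤ s ^ (2 * k) * (((2 * k : ℕ) : ℝ) * ((J * (2 * b + 2 * J + 1) : ℕ) : ℝ) / z1 * W ^ 2) := by
              positivity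
            have b3' : 0 ≤ s ^ (2 * k) * ((1 / 2) ^ b1 * W) := by positivity
            linarith
      _ ≤ _ := by
          apply add_le_add _ le_rfl
          apply mul_le_mul_of_nonneg_left _ hX0
          have e1 : Λ ^ (2 * k) * (Λ ^ (2 * k) * (Λ * μ ^ k) * Λ + L ^ (4 * k) * (Λ * (1 / L ^ (4 * k + A + 3)) * Λ ^ 2) +
              L ^ (4 * k) * (1 / L ^ (4 * k + A + 3) * Λ)) = Λ ^ (4 * k + 2) * μ ^ k +
              Λ ^ (2 * k + 3) * (L ^ (4 * k) * (1 / L ^ (4 * k + A + 3))) +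
              Λ ^ (2 * k + 1) * (L ^ (4 * k) * (1 / L ^ (4 * k + A + 3))) := by ring
          rw [e1]
          have h4 : Λ ^ (2 * k + 1) ≤ Λ ^ (2 * k + 3) := pow_le_pow_right₀ hΛ (by omega)
          have h5 := mul_le_mul_of_nonneg_right h4 hr
          linarith
  have hMB0 : 0 ≤ MB k X b1 Jd b J S P1 P2 z1 := by
    unfold MB
    rw [← hs, ← hμd, ← hWd, ← hEd, ← hDd]
    positivity
  have t4 : ((J : ℝ) + 1) * (MB k X b1 Jd b J S P1 P2 z1 / (Wp P2 * μ / (8 * (J + 1))) ^ (2 * k)) ≤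
      X * (3 / L ^ (A + 2)) + Real.exp (L / 4) := by
    have h1 : MB k X b1 Jd b J S P1 P2 z1 / (Wp P2 * μ / (8 * (J + 1))) ^ (2 * k) ≤
        MB k X b1 Jd b J S P1 P2 z1 * (Λ ^ (4 * k) / μ ^ (2 * k)) := by
      rw [div_eq_mul_one_div]
      exact mul_le_mul_of_nonneg_left hden hMB0
    have hμ2k : 1 ≤ μ ^ (2 * k) := one_le_pow₀ hμ1
    have hμk : 1 ≤ μ ^ k := one_le_pow₀ hμ1
    have e2 : μ ^ (2 * k) = μ ^ k * μ ^ k := by rw [← pow_add]; congr 1; ring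
    have h2 : Λ ^ (4 * k) / μ ^ (2 * k) ≤ Λ ^ (4 * k) := div_le_self (by positivity) hμ2k
    calc ((J : ℝ) + 1) * (MB k X b1 Jd b J S P1 P2 z1 / (Wp P2 * μ / (8 * (J + 1))) ^ (2 * k))
        ≤ Λ * (MB k X b1 Jd b J S P1 P2 z1 * (Λ ^ (4 * k) / μ ^ (2 * k))) :=
          mul_le_mul hJΛ h1 (by positivity) hΛ0.le
      _ ≤ Λ * ((X * (Λ ^ (4 * k + 2) * μ ^ k + 2 * Λ ^ (2 * k + 3) * (L ^ (4 * k) *
      (1 / L ^ (4 * k + A + 3)))) + L ^ (4 * k) * Real.exp (L / 16) * (Λ ^ (2 * k) * (4 * Real.exp (L / 16)))) *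
          (Λ ^ (4 * k) / μ ^ (2 * k))) := by gcongr
      _ = X * (Λ ^ (8 * k + 3) / μ ^ k) + X * (2 * Λ ^ (2 * k + 4) * (L ^ (4 * k) *
      (1 / L ^ (4 * k + A + 3))) * (Λ ^ (4 * k) / μ ^ (2 * k))) +
          L ^ (4 * k) * Real.exp (L / 16) * (Λ ^ (2 * k + 1) * (4 * Real.exp (L / 16))) * (Λ ^ (4 * k) / μ ^ (2 * k)) := by
          have e3 : Λ ^ (8 * k + 3) / μ ^ k = Λ * (Λ ^ (4 * k + 2) * μ ^ k) * (Λ ^ (4 * k) / μ ^ (2 * k)) := by
            rw [e2]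
            field_simp
            ring
          rw [e3]
          ring
      _ ≤ X * (L / L ^ (A + 3)) + X * (2 * Λ ^ (2 * k + 4) * (L ^ (4 * k) *
      (1 / L ^ (4 * k + A + 3))) * Λ ^ (4 * k)) +
          L ^ (4 * k) * Real.exp (L / 16) * (Λ ^ (2 * k + 1) * (4 * Real.exp (L / 16))) * Λ ^ (4 * k) := by
          have h5 : Λ ^ (8 * k + 3) / μ ^ k ≤ L / L ^ (A + 3) := by
            apply div_le_div₀ hL0.le (hpw _ (by omega)) (by positivity) hμ
          gcongr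
      _ = X * (L / L ^ (A + 3)) + X * (2 * Λ ^ (6 * k + 4) * (L ^ (4 * k) *
      (1 / L ^ (4 * k + A + 3)))) + (4 * Λ ^ (6 * k + 1) * L ^ (4 * k)) * (Real.exp (L / 16) * Real.exp (L / 16)) := by
          ring
      _ ≤ X * (1 / L ^ (A + 2)) + X * (2 * (1 / L ^ (A + 2))) + Real.exp (L / 16) * (Real.exp (L / 16) * Real.exp (L / 16)) := by
          have h6 : L / L ^ (A + 3) = 1 / L ^ (A + 2) := by
            rw [pow_succ L (A + 2)]
            field_simp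
          have h7 : 2 * Λ ^ (6 * k + 4) * (L ^ (4 * k) * (1 / L ^ (4 * k + A + 3))) ≤ 2 * (1 / L ^ (A + 2)) := by
            have e4 : L ^ (4 * k) * (1 / L ^ (4 * k + A + 3)) = 1 / L ^ (A + 3) := by
              have : L ^ (4 * k + A + 3) = L ^ (4 * k) * L ^ (A + 3) := by ring
              rw [this]
              field_simp
            rw [e4, mul_assoc]
            apply mul_le_mul_of_nonneg_left _ (by norm_num)
            rw [← h6, mul_one_div]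
            exact div_le_div_of_nonneg_right (hpw _ (by omega)) (by positivity)
          have h8 : 4 * Λ ^ (6 * k + 1) * L ^ (4 * k) ≤ Real.exp (L / 16) := by
            refine le_trans ?_ hpol
            have h9 : Λ ^ (6 * k + 1) ≤ L := hpw _ (by omega)
            have h10 : L ^ (4 * k) ≤ (4 * L ^ 2) ^ (2 * k) := by
              calc L ^ (4 * k) = (L ^ 2) ^ (2 * k) := by rw [← pow_mul]; congr 1; ring
                _ ≤ (4 * L ^ 2) ^ (2 * k) := by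
                  apply pow_le_pow_left₀ (by positivity)
                  have : 0 ≤ L ^ 2 := by positivity
                  linarith
            calc 4 * Λ ^ (6 * k + 1) * L ^ (4 * k) ≤ 4 * L * (4 * L ^ 2) ^ (2 * k) := by gcongr
              _ = _ := by ring
          rw [h6]
          gcongr
      _ = X * (3 / L ^ (A + 2)) + Real.exp (3 * (L / 16)) := by
          have : Real.exp (3 * (L / 16)) = Real.exp (L / 16) * (Real.exp (L / 16) * Real.exp (L / 16)) := by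
            rw [← Real.exp_add, ← Real.exp_add]
            congr 1
            ring
          rw [this]
          ring
      _ ≤ _ := by
          have : Real.exp (3 * (L / 16)) ≤ Real.exp (L / 4) := Real.exp_le_exp.2 (by linarith)
          linarith
  -- total
  unfold BD
  rw [← hs, ← hμd, ← hEd, mul_add]
  have h9 : Real.exp (L / 8) + Real.exp (L / 4) ≤ Real.exp (L / 2) := by
    have g1 : Real.exp (L / 8) ≤ Real.exp (L / 4) := Real.exp_le_exp.2 (by linarith)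
    have g2 : Real.exp (L / 2) = Real.exp (L / 4) * Real.exp (L / 4) := by rw [← Real.exp_add]; congr 1; ring
    have g3 : 2 ≤ Real.exp (L / 4) := by
      have g4 : 4 * L ≤ Real.exp (L / 16) := by
        refine le_trans ?_ hpol
        have : (1 : ℝ) ≤ (4 * L ^ 2) ^ (2 * k) := one_le_pow₀ (by nlinarith)
        nlinarith
      have g5 : Real.exp (L / 16) ≤ Real.exp (L / 4) := Real.exp_le_exp.2 (by linarith)
      linarith
    rw [g2]
    nlinarith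
  have e6 : (X : ℝ) * (6 / L ^ (A + 2)) = X * (2 / L ^ (A + 2)) + X * (1 / L ^ (A + 2)) + X * (3 / L ^ (A + 2)) := by ring
  rw [e6]
  linarith

end Pool.Agent.H36.BF
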