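import Mathlib
import Pool.Agent.H36.BF.FinB
import Pool.Agent.H36.RW.Disc2

/-!
Rough numbers, up to a small power of the numbers themselves, in windows: choice of the parameters.
-/

set_option autoImplicit false

open Finset Filter

namespace Pool.Agent.H36.BF

open Pool.Agent.H36.RW Pool.Agent.H373R2.T7

open Classical in
lemma class_split (Q : ℕ) (hQ : 0 < Q) (X : ℕ) (bad : ℕ → Prop) (M : ℝ)
    (h : ∀ c, (((Icc 1 (X / Q)).filter (fun l => bad (Q * l + c))).card : ℝ) ≤ M) :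
    (((Icc 1 X).filter bad).card : ℝ) ≤ Q * (1 + M) := by
  set B := (Icc 1 X).filter bad with hB
  have hfib : B.card = ∑ c ∈ range Q, (B.filter (fun l => l % Q = c)).card := by
    apply card_eq_sum_card_fiberwise
    intro l _
    exact mem_coe.2 (mem_range.2 (Nat.mod_lt _ hQ))
  rw [hfib]
  push_cast
  have hone : ∀ c ∈ range Q, ((B.filter (fun l => l % Q = c)).card : ℝ) ≤ 1 + M := by
    intro c _
    have h1 : (B.filter (fun l => l % Q = c)).card ≤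
        (insert 0 ((Icc 1 (X / Q)).filter (fun l => bad (Q * l + c)))).card := by
      apply card_le_card_of_injOn (fun l => l / Q)
      · intro l hl
        rw [mem_coe, mem_filter, hB, mem_filter, mem_Icc] at hl
        obtain ⟨⟨⟨h1, h2⟩, h3⟩, h4⟩ := hl
        rw [mem_coe, mem_insert]
        rcases Nat.eq_zero_or_pos (l / Q) with h5 | h5
        · exact Or.inl h5
        · right
          rw [mem_filter, mem_Icc]
          refine ⟨⟨h5, Nat.div_le_div_right h2⟩, ?_⟩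
          have h6 : Q * (l / Q) + c = l := by rw [← h4]; exact Nat.div_add_mod l _
          rw [h6]
          exact h3
      · intro l hl l' hl' h
        rw [mem_coe, mem_filter] at hl hl'
        have h6 := Nat.div_add_mod l Q
        have h7 := Nat.div_add_mod l' Q
        simp only at h
        rw [hl.2] at h6
        rw [hl'.2] at h7
        rw [← h6, ← h7, h]
    have h2 : (insert 0 ((Icc 1 (X / Q)).filter (fun l => bad (Q * l + c)))).card ≤
        ((Icc 1 (X / Q)).filter (fun l => bad (Q * l + c))).card + 1 := card_insert_le _ _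
    have h3 : ((B.filter (fun l => l % Q = c)).card : ℝ) ≤
        (((Icc 1 (X / Q)).filter (fun l => bad (Q * l + c))).card : ℝ) + 1 := by
      exact_mod_cast h1.trans h2
    have h4 := h c
    linarith
  refine (sum_le_sum hone).trans (le_of_eq ?_)
  rw [sum_const, card_range, nsmul_eq_mul]

/-- the integer part of `exp (c L)` -/
noncomputable def zE (c L : ℝ) : ℕ := ⌊Real.exp (c * L)⌋₊

lemma zE_le (c L : ℝ) : (zE c L : ℝ) ≤ Real.exp (c * L) := Nat.floor_le (Real.exp_pos _).le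

/-- the weight product in terms of the density -/
lemma W_le (P : Finset ℕ) (hP : ∀ p ∈ P, p.Prime) (n : ℕ) : ∏ p ∈ P, (1 + (n : ℝ) / p) ≤ (1 / Wp P) ^ n := by
  unfold Wp
  rw [one_div, ← prod_inv_distrib, ← prod_pow]
  apply Finset.prod_le_prod
  · intro p _
    positivity
  · intro p hp
    have hp2 : (2 : ℝ) ≤ p := by exact_mod_cast (hP p hp).two_le
    have h1 : (1 : ℝ) + 1 / p ≤ (1 - 1 / (p : ℝ))⁻¹ := by
      have h2 : 0 < 1 - 1 / (p : ℝ) := by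
        have : 1 / (p : ℝ) ≤ 1 / 2 := one_div_le_one_div_of_le (by norm_num) hp2
        linarith
      rw [le_inv_comm₀ (by positivity) h2, ← one_div, le_div_iff₀ (by positivity)]
      have : (1 - 1 / (p : ℝ)) * (1 + 1 / p) = 1 - (1 / (p : ℝ)) ^ 2 := by ring
      rw [this]
      have : 0 ≤ (1 / (p : ℝ)) ^ 2 := by positivity
      linarith
    have h3 := one_add_mul_le_pow (show (-2 : ℝ) ≤ 1 / (p : ℝ) by
      have : 0 < 1 / (p : ℝ) := by positivity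
      linarith) n
    calc 1 + (n : ℝ) / p = 1 + n * (1 / (p : ℝ)) := by ring
      _ ≤ (1 + 1 / (p : ℝ)) ^ n := h3
      _ ≤ ((1 - 1 / (p : ℝ))⁻¹) ^ n := pow_le_pow_left₀ (by positivity) h1 n

open Classical in
/-- all classes modulo the small primes -/
theorem disc3 (C0 C1 : ℕ) (htwo : ∀ (b1 Jd y q r T k X b J : ℕ) (P1 P2 S : Finset ℕ) (z1 : ℝ),
    1 ≤ k → C0 * (2 * k) ≤ b1 → 2 ≤ b1 → 4 * k + 10 ≤ y →
    (∀ p ∈ P1, p.Prime ∧ y < p ∧ p ≤ 2 ^ 2 ^ Jd ∧ ¬ p ∣ q) → S ⊆ Icc 1 T →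
    16 * Wp (P1.filter (fun p => T < p)) * T ≤ Wp (P1.filter (fun p => p ≤ T)) * y →
    (k : ℝ) ≤ S.card * Wp P1 → 0 < z1 →
    (∀ p ∈ P2, p.Prime ∧ T < p ∧ ¬ p ∣ q ∧ p ∉ P1 ∧ z1 ≤ p ∧ 12 < p ∧ p ≤ 2 ^ 2 ^ J) → C1 ≤ b → 2 ≤ b →
    (((Icc 1 X).filter (fun l => ¬ Ok (1 / 8) 4 (XX q r (P1 ∪ P2) S l) (Wp P2 * (S.card * Wp P1)))).card : ℝ) ≤
      BD k X b1 Jd b J S P1 P2 z1)
    (q r T y z z1 k b1 b X : ℕ) (M : ℝ) (hk : 1 ≤ k) (hb1 : C0 * (2 * k) ≤ b1) (hb12 : 2 ≤ b1)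
    (hb : C1 ≤ b) (hb2 : 2 ≤ b) (hy : 4 * k + 10 ≤ y) (hyT : y ≤ T) (hTz : T ≤ z1) (hz1z : z1 ≤ z)
    (hq : ∀ p, p.Prime → y < p → p ≤ z → ¬ p ∣ q)
    (hS : ∀ m, |(Rg y m T : ℝ) - T * Vz y| ≤ 1 / 2 * (T * Vz y))
    (hT : 16 * T * Vz z1 * Vz y ≤ (Vz T) ^ 2 * y)
    (hμ : (k : ℝ) ≤ 1 / 2 * (T * Vz z1))
    (hBD : ∀ m, BD k (X / Qy y) b1 (JJ z1) b (JJ z) (Sy y m T) (Pyz y z1) (Pyz z1 z) z1 ≤ M) :
    (((Icc 1 X).filter (fun l => ¬ Ok (1 / 16) 8 (Rg z (q * l + r) T) (T * Vz z))).card : ℝ) ≤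
      Qy y * (1 + M) := by
  have hyz1 : y ≤ z1 := hyT.trans hTz
  have hyz : y ≤ z := hyz1.trans hz1z
  refine le_trans (le_of_eq ?_) (class_split (Qy y) (Qy_pos y) X
    (fun l => ¬ Ok (1 / 16) 8 (Rg z (q * l + r) T) (T * Vz z)) M ?_)
  · congr!
  intro c
  set P1 := Pyz y z1 with hP1
  set P2 := Pyz z1 z with hP2
  set S := Sy y (q * c + r) T with hSd
  have hPu : P1 ∪ P2 = Pyz y z := by
    ext p
    rw [mem_union, hP1, hP2, mem_Pyz, mem_Pyz, mem_Pyz]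
    constructor
    · rintro (⟨h1, h2, h3⟩ | ⟨h1, h2, h3⟩)
      · exact ⟨h1, h2.trans hz1z, h3⟩
      · exact ⟨by omega, h2, h3⟩
    · rintro ⟨h1, h2, h3⟩
      rcases Nat.lt_or_ge z1 p with h4 | h4
      · exact Or.inr ⟨h4, h2, h3⟩
      · exact Or.inl ⟨h1, h4, h3⟩
  have hScard : (S.card : ℝ) = (Rg y (q * c + r) T : ℝ) := rfl
  have hS1 := hS (q * c + r)
  rw [← hScard] at hS1
  have hVy := Vz_pos y
  have hVz := Vz_pos z
  have hVz1 := Vz_pos z1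
  have hW1 : Wp P1 = Vz z1 / Vz y := Wp_Pyz' y z1 hyz1
  have hW2 : Wp P2 = Vz z / Vz z1 := Wp_Pyz' z1 z hz1z
  have hT0 : (0 : ℝ) ≤ T := Nat.cast_nonneg T
  have ha := abs_le.1 hS1
  have hμ1 : (k : ℝ) ≤ S.card * Wp P1 := by
    refine hμ.trans ?_
    rw [hW1, mul_div_assoc', le_div_iff₀ hVy]
    have h1 : 1 / 2 * (T * Vz y) ≤ S.card := by linarith
    calc 1 / 2 * (T * Vz z1) * Vz y = (1 / 2 * (T * Vz y)) * Vz z1 := by ring
      _ ≤ S.card * Vz z1 := mul_le_mul_of_nonneg_right h1 hVz1.le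
  have hqQ : ∀ p, p.Prime → y < p → p ≤ z → ¬ p ∣ q * Qy y := by
    intro p h3 h1 h2 hd
    rcases (Nat.Prime.dvd_mul h3).1 hd with h4 | h4
    · exact hq p h3 h1 h2 h4
    · unfold Qy at h4
      rw [Prime.dvd_finsetProd_iff h3.prime] at h4
      obtain ⟨p', hp', h5⟩ := h4
      have h6 := (Nat.prime_dvd_prime_iff_eq h3 (mem_pz.1 hp').2).1 h5
      have h7 := (mem_pz.1 hp').1
      omega
  have e1 : P1.filter (fun p => T < p) = Pyz T z1 := by
    ext p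
    rw [mem_filter, mem_Pyz, mem_Pyz]
    constructor
    · rintro ⟨⟨_, h1, h2⟩, h3⟩
      exact ⟨h3, h1, h2⟩
    · rintro ⟨h1, h2, h3⟩
      exact ⟨⟨by omega, h2, h3⟩, h1⟩
  have e2 : P1.filter (fun p => p ≤ T) = Pyz y T := by
    ext p
    rw [mem_filter, mem_Pyz, mem_Pyz]
    constructor
    · rintro ⟨⟨h0, _, h2⟩, h3⟩
      exact ⟨h0, h3, h2⟩
    · rintro ⟨h1, h2, h3⟩
      exact ⟨⟨h1, by omega, h3⟩, h2⟩
  have hT' : 16 * Wp (P1.filter (fun p => T < p)) * T ≤ Wp (P1.filter (fun p => p ≤ T)) * y := by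
    rw [e1, e2, Wp_Pyz' T z1 hTz, Wp_Pyz' y T hyT]
    have hVT := Vz_pos T
    rw [div_mul_eq_mul_div, mul_div_assoc', div_mul_eq_mul_div, div_le_div_iff₀ hVT hVy]
    calc 16 * Vz z1 * T * Vz y = 16 * T * Vz z1 * Vz y := by ring
      _ ≤ Vz T ^ 2 * y := hT
      _ = Vz T * y * Vz T := by ring
  have key := htwo b1 (JJ z1) y (q * Qy y) (q * c + r) T k (X / Qy y) b (JJ z) P1 P2 S z1 hk hb1 hb12 hy
    (fun p hp => by
      obtain ⟨h1, h2, h3⟩ := mem_Pyz.1 hp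
      exact ⟨h3, h1, h2.trans (JJ_lt z1).le, hqQ p h3 h1 (h2.trans hz1z)⟩) (filter_subset _ _) hT' hμ1
    (by exact_mod_cast (by omega : 0 < z1))
    (fun p hp => by
      obtain ⟨h1, h2, h3⟩ := mem_Pyz.1 hp
      refine ⟨h3, by omega, hqQ p h3 (by omega) h2, ?_, by exact_mod_cast h1.le, by omega, h2.trans (JJ_lt z).le⟩
      intro h4
      have := (mem_Pyz.1 h4).2.1
      omega) hb hb2
  have hcomp : ∀ l, Ok (1 / 8) 4 (XX (q * Qy y) (q * c + r) (P1 ∪ P2) S l) (Wp P2 * (S.card * Wp P1)) →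
      Ok (1 / 16) 8 (Rg z (q * (Qy y * l + c) + r) T) (T * Vz z) := by
    intro l hl
    rw [Rg_eq_XX q r y z T c l hyz, ← hPu]
    have e3 : Wp P2 * (S.card * Wp P1) = S.card * (Vz z / Vz y) := by
      rw [hW1, hW2]
      field_simp
    rw [e3] at hl
    obtain ⟨h1, h2⟩ := hl
    have h3 : S.card * (Vz z / Vz y) ≤ 3 / 2 * (T * Vz z) := by
      rw [mul_div_assoc', div_le_iff₀ hVy]
      have : (S.card : ℝ) ≤ 3 / 2 * (T * Vz y) := by linarith
      calc (S.card : ℝ) * Vz z ≤ 3 / 2 * (T * Vz y) * Vz z := mul_le_mul_of_nonneg_right this hVz.le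
        _ = _ := by ring
    have h4 : 1 / 2 * (T * Vz z) ≤ S.card * (Vz z / Vz y) := by
      rw [mul_div_assoc', le_div_iff₀ hVy]
      have : 1 / 2 * (T * Vz y) ≤ (S.card : ℝ) := by linarith
      calc 1 / 2 * (T * Vz z) * Vz y = 1 / 2 * (T * Vz y) * Vz z := by ring
        _ ≤ (S.card : ℝ) * Vz z := mul_le_mul_of_nonneg_right this hVz.le
    have h5 : 0 ≤ T * Vz z := by positivity
    constructor <;> linarith
  refine le_trans ?_ (key.trans (hBD (q * c + r)))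
  have hsub : (Icc 1 (X / Qy y)).filter (fun l => ¬ Ok (1 / 16) 8 (Rg z (q * (Qy y * l + c) + r) T) (T * Vz z)) ⊆
      (Icc 1 (X / Qy y)).filter (fun l => ¬ Ok (1 / 8) 4 (XX (q * Qy y) (q * c + r) (P1 ∪ P2) S l)
        (Wp P2 * (S.card * Wp P1))) := by
    intro l hl
    rw [mem_filter] at hl ⊢
    exact ⟨hl.1, fun h => hl.2 (hcomp l h)⟩
  exact_mod_cast card_le_card hsub

end Pool.Agent.H36.BF
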