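import Mathlib
import Pool.Agent.H36.BF.EvB

/-!
Rough numbers, up to a small power of the numbers themselves, in windows of length `L ^ (1 + δ)`.
-/

set_option autoImplicit false

open Finset Filter

namespace Pool.Agent.H36.BF

open Pool.Agent.H36.RW Pool.Agent.H373R2.T7

lemma log_floor_ge (w : ℝ) (hw : 3 ≤ Real.exp (w / 2)) : w / 2 ≤ Real.log (⌊Real.exp w⌋₊ : ℕ) := by
  have h0 : Real.exp w < (⌊Real.exp w⌋₊ : ℝ) + 1 := Nat.lt_floor_add_one _
  have h1 : Real.exp (w / 2) ≤ (⌊Real.exp w⌋₊ : ℝ) := by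
    have h2 : Real.exp w = Real.exp (w / 2) * Real.exp (w / 2) := by
      rw [← Real.exp_add]
      congr 1
      ring
    rw [h2] at h0 ⊢
    have h4 : 3 * Real.exp (w / 2) ≤ Real.exp (w / 2) * Real.exp (w / 2) :=
      mul_le_mul_of_nonneg_right hw (Real.exp_pos _).le
    linarith
  calc w / 2 = Real.log (Real.exp (w / 2)) := (Real.log_exp _).symm
    _ ≤ _ := Real.log_le_log (Real.exp_pos _) h1

lemma J_bound (z : ℕ) (L : ℝ) (hz : 2 ≤ z) (hL : Real.exp 1 ≤ L) (hzL : Real.log z ≤ L) :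
    (JJ z : ℝ) ≤ 4 * Real.log L := by
  have hL0 : 0 < L := (Real.exp_pos 1).trans_le hL
  have hℓ1 : 1 ≤ Real.log L := by
    rw [Real.le_log_iff_exp_le hL0]
    exact hL
  have h1 := JJ_pow z hz
  have h2 := (natlog_bounds z hz).1
  have h3 := log_two_bounds
  have h4 : (Nat.log 2 z : ℝ) ≤ 2 * L := by
    have h5 : (Nat.log 2 z : ℝ) * 0.69 ≤ L := by
      have : (0 : ℝ) ≤ Nat.log 2 z := Nat.cast_nonneg _
      nlinarith [h3.1]
    linarith
  have h5 : (2 : ℝ) ^ JJ z ≤ 4 * L := by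
    have h6 : ((2 ^ JJ z : ℕ) : ℝ) ≤ ((2 * Nat.log 2 z : ℕ) : ℝ) := by exact_mod_cast h1
    push_cast at h6
    linarith
  have h6 := Real.log_le_log (by positivity) h5
  rw [Real.log_pow, Real.log_mul (by norm_num) hL0.ne'] at h6
  have h7 : Real.log 4 = 2 * Real.log 2 := by
    rw [show (4 : ℝ) = 2 ^ 2 by norm_num, Real.log_pow]
    norm_num
  rw [h7] at h6
  have h8 : (JJ z : ℝ) * 0.69 ≤ JJ z * Real.log 2 := mul_le_mul_of_nonneg_left h3.1.le (Nat.cast_nonneg _)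
  have := h3.2
  linarith

lemma bf_small (T y K1 x0 : ℕ) (L η : ℝ) (hsm : ∀ T y : ℕ, x0 ≤ y → y ^ K1 ≤ T → ∀ m : ℕ,
    |(Rg y m T : ℝ) - T * Vz y| ≤ 1 / 4 * (T * Vz y) + √T) (hL1 : 1 ≤ L) (hηK : η * K1 = 1 / 6)
    (h1 : x0 ≤ y) (hy1 : 1 ≤ y) (hyle : (y : ℝ) ≤ L ^ η) (hyL : (y : ℝ) ≤ L ^ (1 / 6 : ℝ)) (hLT : L ≤ T)
    (f15 : 4 ≤ L ^ (1 / 3 : ℝ)) : ∀ m, |(Rg y m T : ℝ) - T * Vz y| ≤ 1 / 2 * (T * Vz y) := by
  intro m
  have hL0 : 0 < L := by linarith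
  have hT0 : (0 : ℝ) < T := by linarith
  have hyr : (1 : ℝ) ≤ y := by exact_mod_cast hy1
  have h2 : y ^ K1 ≤ T := by
    have h3 : ((y ^ K1 : ℕ) : ℝ) ≤ T := by
      push_cast
      calc (y : ℝ) ^ K1 ≤ (L ^ η) ^ K1 := pow_le_pow_left₀ (by linarith) hyle _
        _ = L ^ (1 / 6 : ℝ) := by rw [← Real.rpow_natCast, ← Real.rpow_mul hL0.le, hηK]
        _ ≤ L ^ (1 : ℝ) := Real.rpow_le_rpow_of_exponent_le hL1 (by norm_num)
        _ = L := Real.rpow_one L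
        _ ≤ T := hLT
    exact_mod_cast h3
  have h3 := hsm T y h1 h2 m
  have h4 : √(T : ℝ) ≤ 1 / 4 * (T * Vz y) := by
    have h5 := Vz_ge y hy1
    have h6 : 4 * y ≤ √(T : ℝ) := by
      apply Real.le_sqrt_of_sq_le
      calc (4 * (y : ℝ)) ^ 2 = 4 * 4 * (y : ℝ) ^ 2 := by ring
        _ ≤ L ^ (1 / 3 : ℝ) * L ^ (1 / 3 : ℝ) * (L ^ (1 / 6 : ℝ)) ^ 2 := by
            apply mul_le_mul _ (pow_le_pow_left₀ (by linarith) hyL 2) (by positivity) (by positivity)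
            exact mul_le_mul f15 f15 (by norm_num) (by positivity)
        _ = L := by
            have : (L ^ (1 / 6 : ℝ)) ^ 2 = L ^ (1 / 3 : ℝ) := by
              rw [← Real.rpow_natCast, ← Real.rpow_mul hL0.le]
              norm_num
            rw [this, ← Real.rpow_add hL0, ← Real.rpow_add hL0]
            norm_num
        _ ≤ T := hLT
    have h7 : √(T : ℝ) * √(T : ℝ) = T := Real.mul_self_sqrt hT0.le
    have h8 : 0 < √(T : ℝ) := Real.sqrt_pos.2 hT0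
    have h9 : 4 * y * √(T : ℝ) ≤ T := by
      calc 4 * y * √(T : ℝ) ≤ √(T : ℝ) * √(T : ℝ) := mul_le_mul_of_nonneg_right h6 h8.le
        _ = T := h7
    calc √(T : ℝ) = 1 / 4 * (4 * y * √(T : ℝ)) * (1 / y) := by field_simp
      _ ≤ 1 / 4 * T * (1 / y) := by gcongr
      _ ≤ 1 / 4 * T * Vz y := mul_le_mul_of_nonneg_left h5 (by positivity)
      _ = _ := by ring
  linarith

lemma bf_final (X y A : ℕ) (L : ℝ) (hL1 : 16 ≤ L) (hX : Real.exp L ≤ X) (hy1 : 1 ≤ y)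
    (hyL : (y : ℝ) ≤ L ^ (1 / 6 : ℝ)) (f16 : 4 * L ^ A ≤ Real.exp (1 / 4 * L)) (f20 : 4 ≤ L ^ (2 / 3 : ℝ)) :
    (Qy y : ℝ) * (1 + (X / Qy y * (6 / L ^ (A + 2)) + Real.exp (L / 2))) ≤ X / L ^ A := by
  have hL0 : 0 < L := by linarith
  have hyr : (1 : ℝ) ≤ y := by exact_mod_cast hy1
  have hX1 : (0 : ℝ) < X := (Real.exp_pos L).trans_le hX
  have hQpos : (0 : ℝ) < Qy y := by exact_mod_cast Qy_pos y
  have hQle : (Qy y : ℝ) ≤ Real.exp (L / 4) := by
    have h1 : (Qy y : ℝ) ≤ (y : ℝ) ^ y := by exact_mod_cast Qy_le y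
    refine h1.trans ?_
    have h2 : (y : ℝ) ≤ Real.exp y := by linarith [Real.add_one_le_exp (y : ℝ)]
    calc (y : ℝ) ^ y ≤ (Real.exp y) ^ y := pow_le_pow_left₀ (by linarith) h2 _
      _ = Real.exp (y * y) := by rw [← Real.exp_nat_mul]
      _ ≤ Real.exp (L / 4) := by
          apply Real.exp_le_exp.2
          have h3 : (y : ℝ) * y ≤ L ^ (1 / 6 : ℝ) * L ^ (1 / 6 : ℝ) := mul_le_mul hyL hyL (by linarith) (by positivity)
          have h4 : L ^ (1 / 6 : ℝ) * L ^ (1 / 6 : ℝ) = L ^ (1 / 3 : ℝ) := by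
            rw [← Real.rpow_add hL0]
            norm_num
          have h5 : 4 * L ^ (1 / 3 : ℝ) ≤ L := by
            calc 4 * L ^ (1 / 3 : ℝ) ≤ L ^ (2 / 3 : ℝ) * L ^ (1 / 3 : ℝ) := mul_le_mul_of_nonneg_right f20 (by positivity)
              _ = L := by
                  rw [← Real.rpow_add hL0]
                  norm_num
          linarith
  have hexp : Real.exp L = Real.exp (L / 4) * Real.exp (L / 2) * Real.exp (1 / 4 * L) := by
    rw [← Real.exp_add, ← Real.exp_add]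
    congr 1
    ring
  have he1 : 1 ≤ Real.exp (L / 2) := Real.one_le_exp (by positivity)
  calc (Qy y : ℝ) * (1 + (X / Qy y * (6 / L ^ (A + 2)) + Real.exp (L / 2)))
      = Qy y * (1 + Real.exp (L / 2)) + X * (6 / L ^ (A + 2)) := by field_simp; ring
    _ ≤ Real.exp (L / 4) * (Real.exp (L / 2) + Real.exp (L / 2)) + X * (6 / L ^ (A + 2)) := by
        gcongr
    _ ≤ X / L ^ A := by
        have h1 : Real.exp (L / 4) * (Real.exp (L / 2) + Real.exp (L / 2)) ≤ X / L ^ A / 2 := by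
          rw [div_div, le_div_iff₀ (by positivity)]
          calc Real.exp (L / 4) * (Real.exp (L / 2) + Real.exp (L / 2)) * (L ^ A * 2) =
                Real.exp (L / 4) * Real.exp (L / 2) * (4 * L ^ A) := by ring
            _ ≤ Real.exp (L / 4) * Real.exp (L / 2) * Real.exp (1 / 4 * L) :=
                mul_le_mul_of_nonneg_left f16 (by positivity)
            _ = Real.exp L := hexp.symm
            _ ≤ X := hX
        have h2 : X * (6 / L ^ (A + 2)) ≤ X / L ^ A * (1 / 2) := by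
          rw [pow_add]
          have h3 : X * (6 / (L ^ A * L ^ 2)) = X / L ^ A * (6 / L ^ 2) := by field_simp
          rw [h3]
          apply mul_le_mul_of_nonneg_left _ (by positivity)
          rw [div_le_iff₀ (by positivity)]
          nlinarith
        linarith

lemma pow_JJ (w : ℕ) (hw : 2 ≤ w) : (2 : ℝ) ^ 2 ^ JJ w ≤ (w : ℝ) ^ 2 := by
  have h1 := JJ_pow w hw
  have h2 : 2 ^ Nat.log 2 w ≤ w := Nat.pow_log_le_self 2 (by omega)
  have h3 : 2 ^ 2 ^ JJ w ≤ w ^ 2 := by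
    calc 2 ^ 2 ^ JJ w ≤ 2 ^ (2 * Nat.log 2 w) := Nat.pow_le_pow_right (by norm_num) h1
      _ = (2 ^ Nat.log 2 w) ^ 2 := by rw [← pow_mul]; congr 1; ring
      _ ≤ w ^ 2 := Nat.pow_le_pow_left h2 2
  exact_mod_cast h3

lemma pow_JJ' (w M : ℕ) (hw : 2 ≤ w) (u v : ℝ) (hwu : (w : ℝ) ≤ Real.exp u) (hM : 2 * (M : ℝ) * u ≤ v) :
    ((2 : ℝ) ^ 2 ^ JJ w) ^ M ≤ Real.exp v := by
  have hw0 : (0 : ℝ) ≤ w := Nat.cast_nonneg w
  calc ((2 : ℝ) ^ 2 ^ JJ w) ^ M ≤ ((w : ℝ) ^ 2) ^ M := pow_le_pow_left₀ (by positivity) (pow_JJ w hw) _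
    _ = (w : ℝ) ^ (2 * M) := by rw [← pow_mul]
    _ ≤ (Real.exp u) ^ (2 * M) := pow_le_pow_left₀ hw0 hwu _
    _ = Real.exp (((2 * M : ℕ) : ℝ) * u) := by rw [← Real.exp_nat_mul]
    _ ≤ Real.exp v := by
        apply Real.exp_le_exp.2
        push_cast
        exact hM

lemma bf_g6 (T y z1 : ℕ) (L ℓ δ η c1 cl Cu : ℝ) (hL : 1 ≤ L) (hℓ : 0 < ℓ) (hc1 : 0 < c1) (hcl : 0 < cl) (hCu : 0 < Cu)
    (hT : (T : ℝ) ≤ 2 * L ^ (1 + δ)) (hV : Vz z1 ≤ Cu / (c1 * L / (2 * ℓ))) (h2 : cl / (2 * ℓ) ≤ Vz T)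
    (h3 : L ^ η / 2 ≤ y) (hδη : δ ≤ η / 2) (f3 : 512 * Cu / (c1 * cl ^ 2) * ℓ ^ 3 ≤ L ^ (η / 2)) :
    16 * T * Vz z1 * Vz y ≤ (Vz T) ^ 2 * y := by
  have hL0 : 0 < L := by linarith
  have h0 : L ^ (1 + δ) = L * L ^ δ := by rw [Real.rpow_add hL0, Real.rpow_one]
  calc 16 * T * Vz z1 * Vz y ≤ 16 * (2 * L ^ (1 + δ)) * (Cu / (c1 * L / (2 * ℓ))) * 1 := by
        have := Vz_le_one y
        have := (Vz_pos z1).le
        have := (Vz_pos y).le
        gcongr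
    _ = 64 * Cu / c1 * ℓ * L ^ δ := by
        rw [h0]
        field_simp
        ring
    _ ≤ 64 * Cu / c1 * ℓ * L ^ (η / 2) := by
        apply mul_le_mul_of_nonneg_left _ (by positivity)
        exact Real.rpow_le_rpow_of_exponent_le hL hδη
    _ = (cl / (2 * ℓ)) ^ 2 * (512 * Cu / (c1 * cl ^ 2) * ℓ ^ 3 * L ^ (η / 2) / 2) := by
        field_simp
        ring
    _ ≤ (cl / (2 * ℓ)) ^ 2 * (L ^ (η / 2) * L ^ (η / 2) / 2) := by
        gcongr
    _ = (cl / (2 * ℓ)) ^ 2 * (L ^ η / 2) := by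
        rw [← Real.rpow_add hL0]
        norm_num
    _ ≤ (Vz T) ^ 2 * y := by
        apply mul_le_mul (pow_le_pow_left₀ (by positivity) h2 2) h3 (by positivity) (by positivity)

set_option maxHeartbeats 4000000 in
open Classical in
theorem bf_ev : ∃ η0 : ℝ, 0 < η0 ∧ ∀ (A : ℕ) (δ : ℝ), 0 < δ → δ ≤ η0 → ∃ c2 : ℝ, 0 < c2 ∧ c2 ≤ 1 / 2 ∧
    ∀ᶠ L : ℝ in atTop,
    ∀ X : ℕ, Real.exp L ≤ X → ∀ T : ℕ, L ^ (1 + δ) ≤ T → (T : ℝ) ≤ 2 * L ^ (1 + δ) → ∀ q r : ℕ,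
    (∀ p : ℕ, p.Prime → Real.log L < p → p ≤ zE c2 L → ¬ p ∣ q) →
    (((Icc 1 X).filter (fun l => ¬ Ok (1 / 16) 8 (Rg (zE c2 L) (q * l + r) T) (T * Vz (zE c2 L)))).card : ℝ) ≤
      X / L ^ A := by
  obtain ⟨C0, C1, hC0, htwo⟩ := two
  obtain ⟨cl, hcl, hVl⟩ := Vz_lower
  obtain ⟨Cu, hCu, hVu⟩ := Vz_upper
  obtain ⟨K1, x0, hK1, hsm⟩ := small_count (1 / 4) (by norm_num)
  set η : ℝ := 1 / (6 * K1) with hη
  have hK1r : (1 : ℝ) ≤ K1 := by exact_mod_cast hK1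
  have hη0 : 0 < η := by rw [hη]; positivity
  have hη6 : η ≤ 1 / 6 := by
    rw [hη]
    apply one_div_le_one_div_of_le (by norm_num)
    linarith
  have hηK : η * K1 = 1 / 6 := by rw [hη]; field_simp
  refine ⟨η / 2, by positivity, fun A δ hδ hδη => ?_⟩
  -- the parameters
  set k : ℕ := ⌈((A : ℝ) + 3) / δ⌉₊ with hk
  have hkδ : (A : ℝ) + 3 ≤ δ * k := by
    have h1 : ((A : ℝ) + 3) / δ ≤ k := Nat.le_ceil _
    rw [div_le_iff₀ hδ] at h1
    linarith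
  have hk1 : 1 ≤ k := by
    have h1 : (0 : ℝ) < k := by
      have : (0 : ℝ) < δ * k := lt_of_lt_of_le (by positivity) hkδ
      exact pos_of_mul_pos_right this hδ.le
    exact_mod_cast h1
  have hkr : (1 : ℝ) ≤ k := by exact_mod_cast hk1
  set b : ℕ := max C1 2 with hb
  have hbC : C1 ≤ b := le_max_left _ _
  have hb2 : 2 ≤ b := le_max_right _ _
  have hbr : (2 : ℝ) ≤ b := by exact_mod_cast hb2
  set a : ℕ := 4 * k + A + 3 with ha
  obtain ⟨Bq, hBq⟩ := exists_pow_lt_of_lt_one (Real.exp_pos (-(a : ℝ))) (show (1 / 2 : ℝ) < 1 by norm_num)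
  set B : ℕ := max (C0 * (2 * k)) (max Bq 2) with hB
  have hBC : C0 * (2 * k) ≤ B := le_max_left _ _
  have hB2 : 2 ≤ B := (le_max_right _ _).trans (le_max_right _ _)
  have hBr : (2 : ℝ) ≤ B := by exact_mod_cast hB2
  have hBB : (1 / 2 : ℝ) ^ B ≤ Real.exp (-(a : ℝ)) := by
    have h1 : (1 / 2 : ℝ) ^ B ≤ (1 / 2) ^ Bq :=
      pow_le_pow_of_le_one (by norm_num) (by norm_num) ((le_max_left _ _).trans (le_max_right _ _))
    exact h1.trans hBq.le
  set c1 : ℝ := 1 / (2000 * B) with hc1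
  have hc10 : 0 < c1 := by rw [hc1]; positivity
  set c2 : ℝ := 1 / (640 * b * k) with hc2
  have hc20 : 0 < c2 := by rw [hc2]; positivity
  have hc21 : c2 ≤ 1 := by
    rw [hc2, div_le_one (by positivity)]
    have h1 : (2 : ℝ) * 1 ≤ b * k := mul_le_mul hbr hkr (by norm_num) (by positivity)
    linarith
  have hc22 : c2 ≤ 1 / 2 := by
    rw [hc2]
    have h1 : (2 : ℝ) * 1 ≤ b * k := mul_le_mul hbr hkr (by norm_num) (by positivity)
    apply one_div_le_one_div_of_le (by norm_num)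
    linarith
  set R0 : ℝ := 2 * Cu * c2 / (cl * c1) with hR0
  have hR00 : 0 < R0 := by rw [hR0]; positivity
  set τ : ℝ := 1 / (8 * k + 8) with hτ
  have hτ0 : 0 < τ := by rw [hτ]; positivity
  set N : ℕ := 2 ^ (2 * k) with hN
  clear_value N τ R0 c2 c1 B a b k η
  refine ⟨c2, hc20, hc22, ?_⟩
  have hM : ∀ (η : ℝ), 0 < η → ∀ M : ℝ, ∀ᶠ L : ℝ in atTop, M ≤ L ^ η := fun η hη0 M => by
    filter_upwards [ev_log_add 0 M η hη0] with L h1
    linarith
  have hlogM : ∀ M : ℝ, ∀ᶠ L : ℝ in atTop, M ≤ Real.log L := fun M =>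
    Real.tendsto_log_atTop.eventually_ge_atTop M
  filter_upwards [eventually_ge_atTop (Real.exp 1), hM η hη0 (4 * k + 12), hM η hη0 (x0 + 2),
    ev_log_pow (512 * Cu / (c1 * cl ^ 2)) (η / 2) (by positivity) 3, ev_exp_div 6 c1 hc10 2,
    ev_exp_div 3 (c1 / 2) (by positivity) 1, hlogM (c1 / c2 + 2 * c1 / cl), hM δ hδ (k + 4),
    hM τ hτ0 (16 * Real.exp 5 * k + 16 * Real.exp 7), ev_log_pow 40 τ hτ0 1,
    ev_log_pow (2 * k * (4 * (2 * b + 9))) τ hτ0 2, ev_log_pow (R0 ^ N) τ hτ0 N, ev_log_pow R0 τ hτ0 1,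
    ev_exp_div 2 c1 hc10 a, ev_pow_exp (4 ^ (2 * k + 1)) (1 / 16) (by norm_num) (4 * k + 1),
    hM (1 / 3) (by norm_num) 4, ev_pow_exp 4 (1 / 4) (by norm_num) A, hM (11 / 12) (by norm_num) 2,
    ev_log_add 1 1 η hη0, eventually_ge_atTop (16 : ℝ), hM (2 / 3) (by norm_num) 4,
    ev_pow_exp 6 (1 / 50) (by norm_num) 1] with
    L hLe f1 f2 f3 f4 f5 f6 f7 f8 f9 f10 f11 f12 f13 f14 f15 f16 f17 f18 f19 f20 f21
  intro X hX T hT1 hT2 q r hq
  have hL0 : 0 < L := by linarith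
  have hL1 : 1 ≤ L := by linarith
  set ℓ := Real.log L with hℓ
  have hℓ1 : 1 ≤ ℓ := by
    rw [hℓ, Real.le_log_iff_exp_le hL0]
    exact hLe
  have hℓ0 : 0 < ℓ := by linarith
  set z := zE c2 L with hz
  set z1 := zL c1 L with hz1
  set y : ℕ := ⌊L ^ η⌋₊ with hy
  set b1 := B * ⌈ℓ⌉₊ with hb1
  set Λ : ℝ := L ^ τ with hΛ
  have hzle : (z : ℝ) ≤ Real.exp (c2 * L) := zE_le c2 L
  have hz1le : (z1 : ℝ) ≤ Real.exp (c1 * L / ℓ) := zL_le c1 L
  have hz1lt : Real.exp (c1 * L / ℓ) < z1 + 1 := Nat.lt_floor_add_one _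
  have hyle : (y : ℝ) ≤ L ^ η := Nat.floor_le (by positivity)
  have hylt : L ^ η < y + 1 := Nat.lt_floor_add_one _
  have hc12 : c1 / c2 ≤ ℓ := by
    have : 0 < 2 * c1 / cl := by positivity
    linarith
  have g3' : z1 ≤ z := by
    apply Nat.floor_le_floor
    apply Real.exp_le_exp.2
    rw [div_le_iff₀ hc20] at hc12
    rw [div_le_iff₀ hℓ0]
    calc c1 * L ≤ (ℓ * c2) * L := mul_le_mul_of_nonneg_right hc12 hL0.le
      _ = c2 * L * ℓ := by ring
  have hz1log : 3 ≤ Real.exp (c1 * L / ℓ / 2) → c1 * L / ℓ / 2 ≤ Real.log z1 := fun h => log_floor_ge _ h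
  clear_value Λ b1 y z1 z
  have hL13 : L ^ η ≤ L ^ (1 / 6 : ℝ) := Real.rpow_le_rpow_of_exponent_le hL1 hη6
  have hyL : (y : ℝ) ≤ L ^ (1 / 6 : ℝ) := hyle.trans hL13
  have hceil1 : ℓ ≤ (⌈ℓ⌉₊ : ℝ) := Nat.le_ceil _
  have hceil2 : (⌈ℓ⌉₊ : ℝ) < ℓ + 1 := Nat.ceil_lt_add_one hℓ0.le
  -- sizes
  have hLT : L ≤ T := by
    refine le_trans ?_ hT1
    calc L = L ^ (1 : ℝ) := (Real.rpow_one L).symm
      _ ≤ L ^ (1 + δ) := Real.rpow_le_rpow_of_exponent_le hL1 (by linarith)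
  have hT0 : (0 : ℝ) < T := by linarith
  have hδ12 : δ ≤ 1 / 12 := by linarith
  have hTL2 : (T : ℝ) ≤ L ^ 2 := by
    calc (T : ℝ) ≤ 2 * L ^ (1 + δ) := hT2
      _ ≤ L ^ (11 / 12 : ℝ) * L ^ (13 / 12 : ℝ) := by
          apply mul_le_mul f17 _ (by positivity) (by positivity)
          exact Real.rpow_le_rpow_of_exponent_le hL1 (by linarith)
      _ = L ^ 2 := by
          rw [← Real.rpow_add hL0]
          norm_num
  -- y
  have g1 : 4 * k + 10 ≤ y := by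
    have h1 : ((4 * k + 10 : ℕ) : ℝ) < y := by
      push_cast
      linarith
    exact_mod_cast h1.le
  have hy1 : 1 ≤ y := by omega
  have hyr : (1 : ℝ) ≤ y := by exact_mod_cast hy1
  have hyLL : (y : ℝ) ≤ L := by
    calc (y : ℝ) ≤ L ^ (1 / 6 : ℝ) := hyL
      _ ≤ L ^ (1 : ℝ) := Real.rpow_le_rpow_of_exponent_le hL1 (by norm_num)
      _ = L := Real.rpow_one L
  have g2 : y ≤ T := by
    have h1 : (y : ℝ) ≤ T := hyLL.trans hLT
    exact_mod_cast h1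
  -- z1
  have g3 : T ≤ z1 := by
    have h1 : (T : ℝ) < z1 + 1 := by
      have : L ^ 2 ≤ 6 * L ^ 2 := by
        have := sq_nonneg L
        linarith
      linarith
    exact_mod_cast Nat.lt_add_one_iff.1 (by exact_mod_cast h1)
  have hc1l : 2 * c1 / cl ≤ ℓ := by
    have : 0 < c1 / c2 := by positivity
    linarith
  have g4 : ∀ p, p.Prime → y < p → p ≤ z → ¬ p ∣ q := by
    intro p hp h1 h2
    apply hq p hp _ h2
    have h3 : (y : ℝ) + 1 ≤ p := by exact_mod_cast h1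
    linarith
  have g5 : ∀ m, |(Rg y m T : ℝ) - T * Vz y| ≤ 1 / 2 * (T * Vz y) :=
    bf_small T y K1 x0 L η hsm hL1 hηK (by
      have h2 : (x0 : ℝ) < y := by linarith
      exact_mod_cast h2.le) hy1 hyle hyL hLT f15
  have hz12 : 2 ≤ z1 := by omega
  have hz1r : (1 : ℝ) < z1 := by exact_mod_cast hz12
  have hz2 : 2 ≤ z := by omega
  have hzr : (1 : ℝ) < z := by exact_mod_cast hz2
  have hlogz1 : Real.log z1 ≤ c1 * L / ℓ := by
    rw [← Real.log_exp (c1 * L / ℓ)]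
    exact Real.log_le_log (by linarith) hz1le
  have hlogz10 : 0 < Real.log z1 := Real.log_pos hz1r
  have hlogz0 : 0 < Real.log z := Real.log_pos hzr
  have hlogz : Real.log z ≤ c2 * L := by
    rw [← Real.log_exp (c2 * L)]
    exact Real.log_le_log (by linarith) hzle
  have hlogz12 : c1 * L / (2 * ℓ) ≤ Real.log z1 := by
    have h1 := hz1log (by
      have h4 : c1 / 2 * L / ℓ = c1 * L / ℓ / 2 := by ring
      rw [pow_one, h4] at f5
      linarith)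
    calc c1 * L / (2 * ℓ) = c1 * L / ℓ / 2 := by field_simp
      _ ≤ _ := h1
  have hT2' : 2 ≤ T := by omega
  have hTr : (1 : ℝ) < T := by exact_mod_cast hT2'
  have hlogT : Real.log T ≤ 2 * ℓ := by
    have h2 := Real.log_le_log hT0 hTL2
    rwa [Real.log_pow] at h2
  have hlogT0 : 0 < Real.log T := Real.log_pos hTr
  have hVz1 : Vz z1 ≤ Cu / (c1 * L / (2 * ℓ)) :=
    (hVu z1 hz12).trans (div_le_div_of_nonneg_left hCu.le (by positivity) hlogz12)
  have hVz1l : cl / (c1 * L / ℓ) ≤ Vz z1 := (div_le_div_of_nonneg_left hcl.le hlogz10 hlogz1).trans (hVl z1 hz12)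
  have hVzl : cl / (c2 * L) ≤ Vz z := (div_le_div_of_nonneg_left hcl.le hlogz0 hlogz).trans (hVl z hz2)
  have g6 : 16 * T * Vz z1 * Vz y ≤ (Vz T) ^ 2 * y :=
    bf_g6 T y z1 L ℓ δ η c1 cl Cu hL1 hℓ0 hc10 hcl hCu hT2 hVz1
      ((div_le_div_of_nonneg_left hcl.le hlogT0 hlogT).trans (hVl T hT2')) (by linarith) hδη f3
  have hδ0 : (0 : ℝ) < L ^ δ := by positivity
  have g7' : L ^ δ ≤ 1 / 2 * (T * Vz z1) := by
    have h0 : L ^ (1 + δ) = L * L ^ δ := by rw [Real.rpow_add hL0, Real.rpow_one]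
    have h1 : 2 ≤ cl * ℓ / c1 := by
      rw [div_le_iff₀ hcl] at hc1l
      rw [le_div_iff₀ hc10]
      linarith
    calc L ^ δ = 1 / 2 * (L ^ δ * 2) := by ring
      _ ≤ 1 / 2 * (L ^ δ * (cl * ℓ / c1)) := by gcongr
      _ = 1 / 2 * (L * L ^ δ * (cl / (c1 * L / ℓ))) := by field_simp
      _ ≤ 1 / 2 * (T * Vz z1) := by
          rw [← h0]
          gcongr
  have g7 : (k : ℝ) ≤ 1 / 2 * (T * Vz z1) := by linarith
  have hVz0 := Vz_pos z
  have hVz10 := Vz_pos z1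
  have hVy0 := Vz_pos y
  have hinvW : 1 / Wp (Pyz z1 z) ≤ R0 * ℓ := by
    rw [Wp_Pyz' z1 z g3', one_div_div, div_le_iff₀ hVz0]
    calc Vz z1 ≤ Cu / (c1 * L / (2 * ℓ)) := hVz1
      _ = R0 * ℓ * (cl / (c2 * L)) := by
          rw [hR0]
          field_simp
      _ ≤ R0 * ℓ * Vz z := mul_le_mul_of_nonneg_left hVzl (by positivity)
  have hWp20 : 0 < Wp (Pyz z1 z) := by
    rw [Wp_Pyz' z1 z g3']
    positivity
  have hJ1 : (JJ z1 : ℝ) ≤ 4 * ℓ := J_bound z1 L hz12 hLe (by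
    refine hlogz1.trans ?_
    rw [div_le_iff₀ hℓ0]
    have hc11 : c1 ≤ 1 := by
      rw [hc1, div_le_one (by positivity)]
      linarith
    calc c1 * L ≤ 1 * L := mul_le_mul_of_nonneg_right hc11 hL0.le
      _ = L * 1 := by ring
      _ ≤ L * ℓ := mul_le_mul_of_nonneg_left hℓ1 hL0.le)
  have hJ2 : (JJ z : ℝ) ≤ 4 * ℓ := J_bound z L hz2 hLe (by
    exact hlogz.trans (mul_le_of_le_one_left hL0.le hc21))
  have hΛ1 : 1 ≤ Λ := by
    rw [hΛ]
    exact Real.one_le_rpow hL1 hτ0.le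
  have hb1le : (b1 : ℝ) ≤ 2 * B * ℓ := by
    rw [hb1]
    push_cast
    have h1 : (⌈ℓ⌉₊ : ℝ) ≤ 2 * ℓ := by linarith
    calc (B : ℝ) * ⌈ℓ⌉₊ ≤ B * (2 * ℓ) := mul_le_mul_of_nonneg_left h1 (Nat.cast_nonneg _)
      _ = 2 * B * ℓ := by ring
  have hE : ((JJ z1 : ℝ) + 2) * (((2 : ℝ) ^ 2 ^ JJ z1) ^ (10 * b1)) ^ 2 ≤ Real.exp (L / 16) := by
    have h1 : (((2 : ℝ) ^ 2 ^ JJ z1) ^ (10 * b1)) ^ 2 ≤ Real.exp (L / 25) := by
      rw [← pow_mul]
      apply pow_JJ' z1 (10 * b1 * 2) hz12 (c1 * L / ℓ) _ hz1le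
      push_cast
      calc 2 * (10 * (b1 : ℝ) * 2) * (c1 * L / ℓ) ≤ 2 * (10 * (2 * B * ℓ) * 2) * (c1 * L / ℓ) := by gcongr
        _ = L / 25 := by
            rw [hc1]
            field_simp
            ring
    have h2 : (JJ z1 : ℝ) + 2 ≤ Real.exp (L / 50) := by
      have h3 : ℓ ≤ L := by
        have := Real.log_le_sub_one_of_pos hL0
        linarith
      rw [pow_one] at f21
      have h4 : (1 / 50 : ℝ) * L = L / 50 := by ring
      rw [h4] at f21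
      linarith
    calc ((JJ z1 : ℝ) + 2) * (((2 : ℝ) ^ 2 ^ JJ z1) ^ (10 * b1)) ^ 2 ≤ Real.exp (L / 50) * Real.exp (L / 25) := by
          gcongr
      _ = Real.exp (L / 50 + L / 25) := (Real.exp_add _ _).symm
      _ ≤ Real.exp (L / 16) := Real.exp_le_exp.2 (by linarith)
  have hD : (((2 : ℝ) ^ 2 ^ JJ z) ^ (10 * b)) ^ (2 * k) ≤ Real.exp (L / 16) := by
    rw [← pow_mul]
    apply pow_JJ' z (10 * b * (2 * k)) hz2 (c2 * L) _ hzle
    push_cast
    rw [hc2]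
    apply le_of_eq
    field_simp
    ring
  have hBD : ∀ m, BD k (X / Qy y) b1 (JJ z1) b (JJ z) (Sy y m T) (Pyz y z1) (Pyz z1 z) z1 ≤
      X / Qy y * (6 / L ^ (A + 2)) + Real.exp (L / 2) := by
    intro m
    have hSm : |((Sy y m T).card : ℝ) - T * Vz y| ≤ 1 / 2 * (T * Vz y) := g5 m
    have ha' := abs_le.1 hSm
    have hμ' : L ^ δ ≤ (Sy y m T).card * Wp (Pyz y z1) := by
      refine g7'.trans ?_
      rw [Wp_Pyz' y z1 (g2.trans g3), mul_div_assoc', le_div_iff₀ hVy0]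
      have h1 : 1 / 2 * (T * Vz y) ≤ (Sy y m T).card := by linarith
      calc 1 / 2 * (T * Vz z1) * Vz y = (1 / 2 * (T * Vz y)) * Vz z1 := by ring
        _ ≤ (Sy y m T).card * Vz z1 := mul_le_mul_of_nonneg_right h1 hVz10.le
    have h := fin_bound k (X / Qy y) b1 (JJ z1) b (JJ z) A (Sy y m T) (Pyz y z1) (Pyz z1 z) z1 L Λ hk1 hL1
      hΛ1 (by
        rw [hΛ, ← Real.rpow_natCast, ← Real.rpow_mul hL0.le]
        have : τ * ((8 * k + 8 : ℕ) : ℝ) = 1 := by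
          rw [hτ]
          push_cast
          field_simp
        rw [this, Real.rpow_one]) (by
        have : 0 < 16 * Real.exp 7 := by positivity
        linarith) (by
        have : 0 < 16 * Real.exp 5 * k := by positivity
        linarith) (by
        rw [pow_one] at f9
        linarith) (by
        refine le_trans ?_ f10
        push_cast
        have h1 : (2 * (b : ℝ) + 2 * JJ z + 1) ≤ (2 * b + 9) * ℓ := by
          have h3 : 2 * (b : ℝ) ≤ 2 * b * ℓ := le_mul_of_one_le_right (by positivity) hℓ1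
          linarith
        have h2 : (JJ z : ℝ) * (2 * b + 2 * JJ z + 1) ≤ (4 * ℓ) * ((2 * b + 9) * ℓ) :=
          mul_le_mul hJ2 h1 (by positivity) (by positivity)
        calc 2 * (k : ℝ) * (JJ z * (2 * b + 2 * JJ z + 1)) ≤ 2 * k * ((4 * ℓ) * ((2 * b + 9) * ℓ)) := by gcongr
          _ = _ := by ring) (by
        have h1 := W_le (Pyz z1 z) (fun p hp => (mem_Pyz.1 hp).2.2) N
        have h2 : ((N : ℕ) : ℝ) = 2 ^ (2 * k) := by
          rw [hN]
          push_cast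
          rfl
        rw [h2] at h1
        refine h1.trans ?_
        refine (pow_le_pow_left₀ (by positivity) hinvW N).trans ?_
        rw [mul_pow]
        exact f11) (by
        rw [one_div_le (by linarith) hWp20]
        refine hinvW.trans ?_
        rw [pow_one] at f12
        exact f12) hWp20 (by
        rw [Wp_Pyz' y z1 (g2.trans g3)]
        positivity) (by
        apply Wp_le_one
        intro p hp
        exact (mem_Pyz.1 hp).2.2.two_le) (by linarith) (by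
        calc L ^ (A + 3) = L ^ ((A : ℝ) + 3) := by
              rw [← Real.rpow_natCast]
              push_cast
              rfl
          _ ≤ L ^ (δ * k) := Real.rpow_le_rpow_of_exponent_le hL1 hkδ
          _ = (L ^ δ) ^ k := by rw [Real.rpow_mul hL0.le, Real.rpow_natCast]
          _ ≤ _ := pow_le_pow_left₀ hδ0.le hμ' k) (by
        rw [hb1, pow_mul, one_div (L ^ _)]
        calc ((1 / 2 : ℝ) ^ B) ^ ⌈ℓ⌉₊ ≤ (Real.exp (-(a : ℝ))) ^ ⌈ℓ⌉₊ := pow_le_pow_left₀ (by positivity) hBB _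
          _ = Real.exp (⌈ℓ⌉₊ * (-(a : ℝ))) := by rw [← Real.exp_nat_mul]
          _ ≤ Real.exp (-(a * ℓ)) := by
              apply Real.exp_le_exp.2
              have : (a : ℝ) * ℓ ≤ a * ⌈ℓ⌉₊ := mul_le_mul_of_nonneg_left hceil1 (Nat.cast_nonneg _)
              linarith
          _ = (L ^ (4 * k + A + 3))⁻¹ := by
              rw [Real.exp_neg, Real.exp_nat_mul, hℓ, Real.exp_log hL0, ha]) (by
        apply one_div_le_one_div_of_le (by positivity)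
        have h1 : (1 : ℝ) ≤ L ^ a := one_le_pow₀ hL1
        have h2 : L ^ a = L ^ (4 * k + A + 3) := by rw [ha]
        linarith) (by linarith) (by
        refine le_trans ?_ hTL2
        have h1 : (Sy y m T).card ≤ T := by
          calc (Sy y m T).card ≤ (Icc 1 T).card := card_filter_le _ _
            _ = T := by rw [Nat.card_Icc]; omega
        exact_mod_cast h1) hE hD (by
        have h1 : (4 * L ^ 2) ^ (2 * k) * (4 * L) = 4 ^ (2 * k + 1) * L ^ (4 * k + 1) := by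
          rw [mul_pow, ← pow_mul]
          ring
        rw [h1]
        have h2 : (1 / 16 : ℝ) * L = L / 16 := by ring
        rw [h2] at f14
        exact f14)
    refine h.trans ?_
    apply add_le_add _ le_rfl
    apply mul_le_mul_of_nonneg_right _ (by positivity)
    exact Nat.cast_div_le
  have key := disc3 C0 C1 (by
      intro b1 Jd y q r T k X b J P1 P2 S z1 h1 h2 h3 h4 h5 h6 h7 h8 h9 h10 h11 h12
      unfold BD
      exact htwo b1 Jd y q r T k X b J P1 P2 S z1 h1 h2 h3 h4 h5 h6 h7 h8 h9 h10 h11 h12) q r T y z z1 k b1 b X _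
      hk1 (by
      rw [hb1]
      calc C0 * (2 * k) ≤ B := hBC
        _ ≤ B * ⌈ℓ⌉₊ := Nat.le_mul_of_pos_right _ (Nat.ceil_pos.2 hℓ0)) (by
      rw [hb1]
      exact hB2.trans (Nat.le_mul_of_pos_right _ (Nat.ceil_pos.2 hℓ0))) hbC hb2 g1 g2 g3 g3' g4 g5 g6 g7 hBD
  refine key.trans ?_
  exact bf_final X y A L f19 hX hy1 hyL f16 f20

end Pool.Agent.H36.BF
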