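import Mathlib
import Pool.Agent.H36.BF.EvC
import Pool.Agent.H36.RW.Real

/-!
Rough numbers, up to a small power of the numbers themselves, in windows: all lengths at the same
time, and almost every dilate.
-/

set_option autoImplicit false

open Finset Filter MeasureTheory

namespace Pool.Agent.H36.BF

open Pool.Agent.H36.RW Pool.Agent.H373R2.T7

lemma Ok_blocks (z m T0 : ℕ) (V c C : ℝ) : ∀ n : ℕ,
    (∀ j < n, Ok c C (Rg z (m + j * T0) T0) (T0 * V)) → Ok c C (Rg z m (n * T0)) (n * T0 * V) := by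
  intro n
  induction n with
  | zero =>
    intro _
    have : Rg z m 0 = 0 := by unfold Rg; simp
    constructor <;> simp [this]
  | succ n ih =>
    intro h
    obtain ⟨h1, h1'⟩ := ih (fun j hj => h j (by omega))
    obtain ⟨h2, h2'⟩ := h n (by omega)
    rw [Nat.succ_mul, Rg_add]
    push_cast
    constructor <;> linarith

open Classical in
theorem bf_all : ∃ η0 : ℝ, 0 < η0 ∧ ∀ (A : ℕ) (δ : ℝ), 0 < δ → δ ≤ η0 → ∃ c2 : ℝ, 0 < c2 ∧ c2 ≤ 1 / 2 ∧
    ∀ᶠ L : ℝ in atTop, ∀ X : ℕ, Real.exp L ≤ X → ∀ q r : ℕ,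
    (∀ p : ℕ, p.Prime → Real.log L < p → p ≤ zE c2 L → ¬ p ∣ q) →
    (((Icc 1 X).filter (fun l => ∃ T : ℕ, L ^ (1 + δ) ≤ T ∧ (T : ℝ) ≤ L ^ A ∧
      ¬ Ok (1 / 32) 16 (Rg (zE c2 L) (q * l + r) T) (T * Vz (zE c2 L)))).card : ℝ) ≤ X / L ^ A := by
  obtain ⟨η0, hη0, hev⟩ := bf_ev
  refine ⟨η0, hη0, fun A δ hδ hδη => ?_⟩
  obtain ⟨c2, hc2, hc21, h⟩ := hev (2 * A + 1) δ hδ hδη
  refine ⟨c2, hc2, hc21, ?_⟩
  filter_upwards [h, eventually_ge_atTop (2 : ℝ)] with L h hL2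
  intro X hX q r hq
  have hL1 : 1 ≤ L := by linarith
  have hL0 : 0 < L := by linarith
  have hw1 : 1 ≤ L ^ (1 + δ) := Real.one_le_rpow hL1 (by linarith)
  set T0 : ℕ := ⌈L ^ (1 + δ)⌉₊ with hT0
  have hT0a : L ^ (1 + δ) ≤ T0 := Nat.le_ceil _
  have hT0b : (T0 : ℝ) < L ^ (1 + δ) + 1 := Nat.ceil_lt_add_one (by positivity)
  have hT01 : (1 : ℝ) ≤ T0 := by linarith
  have hT0r : (0 : ℝ) < T0 := by linarith
  set V := Vz (zE c2 L) with hV
  have hV0 : 0 < V := Vz_pos _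
  set J : ℕ := ⌊L ^ A⌋₊ with hJ
  have hJle : (J : ℝ) ≤ L ^ A := Nat.floor_le (by positivity)
  -- one block
  have hblock : ∀ j : ℕ, (((Icc 1 X).filter (fun l => ¬ Ok (1 / 16) 8 (Rg (zE c2 L) (q * l + (r + j * T0)) T0)
      (T0 * V))).card : ℝ) ≤ X / L ^ (2 * A + 1) := fun j => h X hX T0 hT0a (by linarith) q (r + j * T0) hq
  -- the inclusion
  have hsub : ((Icc 1 X).filter (fun l => ∃ T : ℕ, L ^ (1 + δ) ≤ T ∧ (T : ℝ) ≤ L ^ A ∧
      ¬ Ok (1 / 32) 16 (Rg (zE c2 L) (q * l + r) T) (T * V))) ⊆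
      (range (J + 1)).biUnion (fun j => (Icc 1 X).filter (fun l => ¬ Ok (1 / 16) 8
        (Rg (zE c2 L) (q * l + (r + j * T0)) T0) (T0 * V))) := by
    intro l hl
    rw [mem_filter] at hl
    obtain ⟨hl1, T, hT1, hT2, hbad⟩ := hl
    by_contra hno
    have hgood : ∀ j < J + 1, Ok (1 / 16) 8 (Rg (zE c2 L) (q * l + r + j * T0) T0) (T0 * V) := by
      intro j hj
      by_contra h3
      apply hno
      rw [mem_biUnion]
      refine ⟨j, mem_range.2 hj, ?_⟩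
      rw [mem_filter]
      refine ⟨hl1, ?_⟩
      rw [← add_assoc]
      exact h3
    set n := T / T0 with hn
    have hTJ : T ≤ J := by
      rw [hJ]
      exact Nat.le_floor hT2
    have hT0n : 0 < T0 := by exact_mod_cast hT0r
    have hTT0 : T0 ≤ T := Nat.ceil_le.2 hT1
    have hn1 : 1 ≤ n := (Nat.one_le_div_iff hT0n).2 hTT0
    have hnT : n * T0 ≤ T := Nat.div_mul_le_self _ _
    have hnT' : T < (n + 1) * T0 := by
      rw [add_mul, one_mul, mul_comm]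
      exact Nat.lt_mul_div_succ T hT0n |>.trans_eq (by ring)
    have hnJ : n + 1 ≤ J + 1 := by
      have : n ≤ T := Nat.div_le_self _ _
      omega
    have h1 := Ok_blocks (zE c2 L) (q * l + r) T0 V (1 / 16) 8 n (fun j hj => hgood j (by omega))
    have h2 := Ok_blocks (zE c2 L) (q * l + r) T0 V (1 / 16) 8 (n + 1) (fun j hj => hgood j (by omega))
    have h3 : (Rg (zE c2 L) (q * l + r) (n * T0) : ℝ) ≤ Rg (zE c2 L) (q * l + r) T := by
      exact_mod_cast Rg_mono _ _ _ _ hnT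
    have h4 : (Rg (zE c2 L) (q * l + r) T : ℝ) ≤ Rg (zE c2 L) (q * l + r) ((n + 1) * T0) := by
      exact_mod_cast Rg_mono _ _ _ _ hnT'.le
    have ha := h1.1
    have hb := h2.2
    push_cast at hb
    have hn1r : (1 : ℝ) ≤ n := by exact_mod_cast hn1
    have e1 : (n : ℝ) * T0 ≤ T := by exact_mod_cast hnT
    have e2 : (T : ℝ) < (n + 1) * T0 := by exact_mod_cast hnT'
    have e3 : (T0 : ℝ) ≤ n * T0 := le_mul_of_one_le_left hT0r.le hn1r
    apply hbad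
    constructor
    · have e4 : (T : ℝ) * V ≤ (2 * (n * T0)) * V := mul_le_mul_of_nonneg_right (by linarith) hV0.le
      linarith
    · have e4 : ((n : ℝ) + 1) * T0 * V ≤ (2 * T) * V := mul_le_mul_of_nonneg_right (by linarith) hV0.le
      linarith
  have hcard : (((Icc 1 X).filter (fun l => ∃ T : ℕ, L ^ (1 + δ) ≤ T ∧ (T : ℝ) ≤ L ^ A ∧
      ¬ Ok (1 / 32) 16 (Rg (zE c2 L) (q * l + r) T) (T * V))).card : ℝ) ≤
      ∑ j ∈ range (J + 1), (((Icc 1 X).filter (fun l => ¬ Ok (1 / 16) 8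
        (Rg (zE c2 L) (q * l + (r + j * T0)) T0) (T0 * V))).card : ℝ) := by
    have h1 := (card_le_card hsub).trans card_biUnion_le
    exact_mod_cast h1
  refine hcard.trans ((sum_le_sum fun j _ => hblock j).trans ?_)
  rw [sum_const, card_range, nsmul_eq_mul]
  push_cast
  have hX0 : (0 : ℝ) < X := (Real.exp_pos L).trans_le hX
  rw [mul_div_assoc', div_le_div_iff₀ (by positivity) (by positivity)]
  have h1 : (J : ℝ) + 1 ≤ 2 * L ^ A := by
    have : 1 ≤ L ^ A := one_le_pow₀ hL1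
    linarith
  calc ((J : ℝ) + 1) * X * L ^ A ≤ (2 * L ^ A) * X * L ^ A := by gcongr
    _ = X * (L ^ (2 * A) * 2) := by
        have e1 : L ^ (2 * A) = L ^ A * L ^ A := by
          rw [← pow_add]
          congr 1
          ring
        rw [e1]
        ring
    _ ≤ X * (L ^ (2 * A) * L) := by gcongr
    _ = X * L ^ (2 * A + 1) := by rw [pow_succ]

/-- almost every dilate: integer form -/
theorem bf_ae : ∃ η0 : ℝ, 0 < η0 ∧ ∀ (a : ℕ → ℝ) (κ : ℝ), 0 < κ →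
    (∀ᶠ n : ℕ in atTop, Real.exp ((n : ℝ) ^ κ) ≤ a n) → ∀ (A : ℕ) (δ : ℝ), 0 < δ → δ ≤ η0 →
    ∃ c2 : ℝ, 0 < c2 ∧ c2 ≤ 1 / 2 ∧ ∀ᵐ α : ℝ ∂volume, 0 < α → ∀ᶠ n in atTop,
      ∀ T : ℕ, Real.log (a n) ^ (1 + δ) ≤ T → (T : ℝ) ≤ Real.log (a n) ^ A →
        Ok (1 / 32) 16 (Rg (zE c2 (Real.log (a n))) (⌈α * a n⌉₊ - 1) T) (T * Vz (zE c2 (Real.log (a n)))) := by
  classical
  obtain ⟨η0, hη0, hall⟩ := bf_all
  refine ⟨η0, hη0, fun a κ hκ ha A δ hδ hδη => ?_⟩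
  obtain ⟨A2, hA2⟩ := exists_nat_ge (2 / κ)
  set A' := max A A2 with hA'
  have hA'2 : 2 ≤ (A' : ℝ) * κ := by
    have h1 : (A2 : ℝ) ≤ A' := by exact_mod_cast le_max_right _ _
    have h2 := mul_le_mul_of_nonneg_right (hA2.trans h1) hκ.le
    rwa [div_mul_cancel₀ _ hκ.ne'] at h2
  obtain ⟨c2, hc2, hc21, h⟩ := hall A' δ hδ hδη
  refine ⟨c2, hc2, hc21, ?_⟩
  have hat := a_tendsto a κ hκ ha
  have hlt : Tendsto (fun n => Real.log (a n)) atTop atTop := Real.tendsto_log_atTop.comp hat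
  have h1 := hlt.eventually h
  have h2 := bc a κ hκ ha A' hA'2 (fun n l => ∃ T : ℕ, Real.log (a n) ^ (1 + δ) ≤ T ∧ (T : ℝ) ≤ Real.log (a n) ^ A' ∧
    ¬ Ok (1 / 32) 16 (Rg (zE c2 (Real.log (a n))) l T) (T * Vz (zE c2 (Real.log (a n))))) (by
      filter_upwards [h1, hat.eventually_gt_atTop 0] with n h3 h4 X hX
      have h5 := h3 X (by rwa [Real.exp_log h4]) 1 0 (fun p hp _ _ hd => hp.one_lt.ne' (Nat.dvd_one.1 hd))
      simp only [one_mul, add_zero] at h5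
      convert h5 using 4)
  filter_upwards [h2] with α hα h0
  filter_upwards [hα h0, hlt.eventually_ge_atTop 1] with n hn hn1 T hT1 hT2
  by_contra hb
  apply hn
  exact ⟨T, hT1, hT2.trans (pow_le_pow_right₀ hn1 (le_max_left _ _)), hb⟩

end Pool.Agent.H36.BF
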