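import Mathlib
import Pool.Agent.H36.BF.All

/-!
The powers of almost every number: Borel-Cantelli.
-/

set_option autoImplicit false

open Finset Filter MeasureTheory

namespace Pool.Agent.H36.BF

open Pool.Agent.H36.RW Pool.Agent.H373R2.T7

/-- logarithmic sum over a sparse set -/
lemma log_sum (P : ℕ → Prop) [DecidablePred P] (w W : ℝ) (hW : 0 ≤ W) (N : ℕ)
    (h : ∀ X : ℕ, w ≤ X → (((Icc 1 X).filter P).card : ℝ) ≤ X * W) (hP : ∀ l, P l → w ≤ (l : ℝ) + 1) :
    ∑ l ∈ (Icc 1 N).filter P, 1 / (l : ℝ) ≤ (Nat.log 2 N + 1) * (2 * W) := by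
  set F := (Icc 1 N).filter P with hF
  have hmap : ∀ l ∈ F, Nat.log 2 l ∈ range (Nat.log 2 N + 1) := by
    intro l hl
    rw [hF, mem_filter, mem_Icc] at hl
    rw [mem_range]
    have := Nat.log_mono_right (b := 2) hl.1.2
    omega
  rw [← sum_fiberwise_of_maps_to hmap]
  have hone : ∀ j ∈ range (Nat.log 2 N + 1), ∑ l ∈ F.filter (fun l => Nat.log 2 l = j), 1 / (l : ℝ) ≤ 2 * W := by
    intro j _
    rcases (F.filter (fun l => Nat.log 2 l = j)).eq_empty_or_nonempty with h0 | ⟨l0, hl0⟩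
    · rw [h0, sum_empty]
      positivity
    · rw [mem_filter, hF, mem_filter, mem_Icc] at hl0
      obtain ⟨⟨⟨h1, h2⟩, h3⟩, h4⟩ := hl0
      have h5 : l0 < 2 ^ (j + 1) := by
        rw [← h4]
        exact Nat.lt_pow_succ_log_self (by norm_num) _
      have h6 : w ≤ ((2 ^ (j + 1) : ℕ) : ℝ) := by
        refine (hP l0 h3).trans ?_
        exact_mod_cast h5
      have h7 := h _ h6
      have h8 : (F.filter (fun l => Nat.log 2 l = j)) ⊆ (Icc 1 (2 ^ (j + 1))).filter P := by
        intro l hl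
        rw [mem_filter, hF, mem_filter, mem_Icc] at hl
        rw [mem_filter, mem_Icc]
        refine ⟨⟨hl.1.1.1, ?_⟩, hl.1.2⟩
        have : l < 2 ^ (j + 1) := by
          rw [← hl.2]
          exact Nat.lt_pow_succ_log_self (by norm_num) _
        exact this.le
      have h9 : ∀ l ∈ F.filter (fun l => Nat.log 2 l = j), 1 / (l : ℝ) ≤ 1 / 2 ^ j := by
        intro l hl
        rw [mem_filter, hF, mem_filter, mem_Icc] at hl
        have h10 : 2 ^ j ≤ l := by
          rw [← hl.2]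
          exact Nat.pow_log_le_self 2 (by omega)
        apply one_div_le_one_div_of_le (by positivity)
        exact_mod_cast h10
      calc ∑ l ∈ F.filter (fun l => Nat.log 2 l = j), 1 / (l : ℝ)
          ≤ ∑ _l ∈ F.filter (fun l => Nat.log 2 l = j), 1 / (2 : ℝ) ^ j := sum_le_sum h9
        _ = (F.filter (fun l => Nat.log 2 l = j)).card * (1 / 2 ^ j) := by rw [sum_const, nsmul_eq_mul]
        _ ≤ (((Icc 1 (2 ^ (j + 1))).filter P).card : ℝ) * (1 / 2 ^ j) := by
            apply mul_le_mul_of_nonneg_right _ (by positivity)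
            exact_mod_cast card_le_card h8
        _ ≤ ((2 ^ (j + 1) : ℕ) : ℝ) * W * (1 / 2 ^ j) := mul_le_mul_of_nonneg_right h7 (by positivity)
        _ = 2 * W := by
            push_cast
            rw [pow_succ]
            field_simp
  refine (sum_le_sum hone).trans (le_of_eq ?_)
  rw [sum_const, card_range, nsmul_eq_mul]
  push_cast
  ring

/-- the length of the set of the numbers whose powers are in an interval of length one -/
lemma root_len (b : ℝ) (hb : 1 ≤ b) (l : ℕ) (hl : 1 ≤ l) :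
    ((l : ℝ) + 1) ^ (1 / b) - (l : ℝ) ^ (1 / b) ≤ (l : ℝ) ^ (1 / b) * (1 / (b * l)) := by
  have hl0 : (0 : ℝ) < l := by exact_mod_cast hl
  have hb0 : 0 < b := by linarith
  have h1 : ((l : ℝ) + 1) ^ (1 / b) = (l : ℝ) ^ (1 / b) * (1 + 1 / (l : ℝ)) ^ (1 / b) := by
    rw [← Real.mul_rpow hl0.le (by positivity)]
    congr 1
    field_simp
  have h2 : (1 + 1 / (l : ℝ)) ^ (1 / b) ≤ 1 + (1 / b) * (1 / l) := by
    apply rpow_one_add_le_one_add_mul_self
    · have : 0 < 1 / (l : ℝ) := by positivity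
      linarith
    · positivity
    · rw [div_le_one hb0]
      exact hb
  have h3 : (0 : ℝ) ≤ (l : ℝ) ^ (1 / b) := by positivity
  rw [h1]
  have h4 := mul_le_mul_of_nonneg_left h2 h3
  have h5 : (l : ℝ) ^ (1 / b) * (1 + (1 / b) * (1 / l)) = (l : ℝ) ^ (1 / b) + (l : ℝ) ^ (1 / b) * (1 / (b * l)) := by
    field_simp
  linarith

open Classical in
lemma bc_pow (b : ℕ → ℝ) (κ : ℝ) (hκ : 0 < κ) (hb : ∀ᶠ n : ℕ in atTop, (n : ℝ) ^ κ ≤ b n) (u : ℝ) (hu : 1 < u)
    (A : ℕ) (hA : 2 ≤ A * κ) (bad : ℕ → ℕ → Prop) (hbad : ∀ᶠ n in atTop, ∀ X : ℕ, Real.exp (b n * Real.log u) ≤ X →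
      (((Icc 1 X).filter (fun l => bad n l)).card : ℝ) ≤ X / (b n * Real.log u) ^ A) :
    ∀ᵐ θ : ℝ ∂volume, u ≤ θ → θ ≤ u ^ 2 → ∀ᶠ n in atTop, ¬ bad n (⌈θ ^ b n⌉₊ - 1) := by
  have hlu : 0 < Real.log u := Real.log_pos hu
  have hbt : Tendsto b atTop atTop := by
    apply tendsto_atTop_mono' atTop hb
    exact (tendsto_rpow_atTop hκ).comp tendsto_natCast_atTop_atTop
  have hLt : Tendsto (fun n => b n * Real.log u) atTop atTop := hbt.atTop_mul_const hlu
  obtain ⟨N0, hN0⟩ := eventually_atTop.1 (hbad.and (hb.and ((hbt.eventually_ge_atTop 1).and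
    ((hLt.eventually_ge_atTop 1).and (eventually_ge_atTop 1)))))
  set S : ℕ → Set ℝ := fun n => if N0 ≤ n then {θ | u ≤ θ ∧ θ ≤ u ^ 2 ∧ bad n (⌈θ ^ b n⌉₊ - 1)} else ∅ with hS
  set K : ℝ := 8 * u ^ 2 * Real.log u / (Real.log u) ^ A with hK
  have hK0 : 0 < K := by positivity
  have hmeas : ∀ n, volume (S n) ≤ ENNReal.ofReal (K / (n : ℝ) ^ 2) := by
    intro n
    by_cases hn : N0 ≤ n
    swap
    · simp only [hS, if_neg hn, measure_empty]
      exact zero_le
    simp only [hS, if_pos hn]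
    obtain ⟨h1, h2, h3, h4, h6⟩ := hN0 n hn
    set B := b n with hB
    set L := B * Real.log u with hL
    have hB0 : 0 < B := by linarith
    have hL0 : 0 < L := by linarith
    have hn1 : (1 : ℝ) ≤ n := by exact_mod_cast h6
    set X : ℕ := ⌊Real.exp (2 * L)⌋₊ with hX
    have hXle : (X : ℝ) ≤ Real.exp (2 * L) := Nat.floor_le (Real.exp_pos _).le
    set F := (Icc 1 X).filter (fun l => bad n l ∧ Real.exp L ≤ (l : ℝ) + 1) with hF
    have huB : Real.exp L = u ^ B := by
      rw [hL, Real.rpow_def_of_pos (by linarith), mul_comm]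
    have huB2 : Real.exp (2 * L) = (u ^ 2) ^ B := by
      rw [Real.rpow_def_of_pos (by positivity), Real.log_pow]
      congr 1
      rw [hL]
      push_cast
      ring
    have hsub : {θ : ℝ | u ≤ θ ∧ θ ≤ u ^ 2 ∧ bad n (⌈θ ^ B⌉₊ - 1)} ⊆
        ⋃ l ∈ F, Set.Icc ((l : ℝ) ^ (1 / B)) (((l : ℝ) + 1) ^ (1 / B)) := by
      rintro θ ⟨g1, g2, g3⟩
      have g0 : 0 < θ := by linarith
      have g4 : 0 < θ ^ B := by positivity
      have g4' : Real.exp L ≤ θ ^ B := by
        rw [huB]
        exact Real.rpow_le_rpow (by linarith) g1 hB0.le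
      have g4'' : θ ^ B ≤ Real.exp (2 * L) := by
        rw [huB2]
        exact Real.rpow_le_rpow g0.le g2 hB0.le
      have g5 : 0 < ⌈θ ^ B⌉₊ := Nat.ceil_pos.2 g4
      set l := ⌈θ ^ B⌉₊ - 1 with hl
      have g6 : θ ^ B ≤ l + 1 := by
        have : (⌈θ ^ B⌉₊ : ℝ) = l + 1 := by
          have : ⌈θ ^ B⌉₊ = l + 1 := by omega
          rw [this]; push_cast; rfl
        rw [← this]
        exact Nat.le_ceil _
      have g7 : (l : ℝ) ≤ θ ^ B := by
        have : l < ⌈θ ^ B⌉₊ := by omega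
        exact (Nat.lt_ceil.1 this).le
      have g8 : 1 ≤ l := by
        by_contra h
        have h0 : l = 0 := by omega
        rw [h0] at g6
        have := Real.add_one_le_exp L
        have h5 : ((0 : ℕ) : ℝ) = 0 := Nat.cast_zero
        rw [h5] at g6
        linarith
      simp only [Set.mem_iUnion]
      refine ⟨l, ?_, ?_⟩
      · rw [hF, mem_filter, mem_Icc]
        refine ⟨⟨g8, ?_⟩, g3, g4'.trans g6⟩
        exact Nat.le_floor (g7.trans g4'')
      · have e1 : (θ ^ B) ^ (1 / B) = θ := by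
          rw [← Real.rpow_mul g0.le, mul_one_div_cancel hB0.ne', Real.rpow_one]
        constructor
        · rw [← e1]
          exact Real.rpow_le_rpow (Nat.cast_nonneg _) g7 (by positivity)
        · rw [← e1]
          exact Real.rpow_le_rpow g4.le g6 (by positivity)
    have hlen : ∀ l ∈ F, ((l : ℝ) + 1) ^ (1 / B) - (l : ℝ) ^ (1 / B) ≤ u ^ 2 / B * (1 / l) := by
      intro l hl
      rw [hF, mem_filter, mem_Icc] at hl
      have hl1 : 1 ≤ l := hl.1.1
      have hl0 : (0 : ℝ) < l := by exact_mod_cast hl1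
      refine (root_len B h3 l hl1).trans ?_
      have g1 : (l : ℝ) ^ (1 / B) ≤ u ^ 2 := by
        have g2 : (l : ℝ) ≤ (u ^ 2) ^ B := by
          rw [← huB2]
          have : (l : ℝ) ≤ X := by exact_mod_cast hl.1.2
          linarith
        calc (l : ℝ) ^ (1 / B) ≤ ((u ^ 2) ^ B) ^ (1 / B) := Real.rpow_le_rpow hl0.le g2 (by positivity)
          _ = u ^ 2 := by
              rw [← Real.rpow_mul (by positivity), mul_one_div_cancel hB0.ne', Real.rpow_one]
      calc (l : ℝ) ^ (1 / B) * (1 / (B * l)) ≤ u ^ 2 * (1 / (B * l)) := mul_le_mul_of_nonneg_right g1 (by positivity)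
        _ = u ^ 2 / B * (1 / l) := by field_simp
    have hsumF : ∑ l ∈ F, 1 / (l : ℝ) ≤ (Nat.log 2 X + 1) * (2 * (1 / L ^ A)) := by
      apply log_sum (fun l => bad n l ∧ Real.exp L ≤ (l : ℝ) + 1) (Real.exp L) (1 / L ^ A) (by positivity) X
      · intro Y hY
        have g1 := h1 Y hY
        rw [div_eq_mul_one_div] at g1
        refine le_trans ?_ g1
        have : ((Icc 1 Y).filter (fun l => bad n l ∧ Real.exp L ≤ (l : ℝ) + 1)) ⊆ (Icc 1 Y).filter (fun l => bad n l) := by
          intro l hl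
          rw [mem_filter] at hl ⊢
          exact ⟨hl.1, hl.2.1⟩
        exact_mod_cast card_le_card this
      · intro l hl
        exact hl.2
    have hJ : (Nat.log 2 X : ℝ) ≤ 3 * L := by
      have hX0 : X ≠ 0 := by
        intro h0
        have h5 : Real.exp (2 * L) < X + 1 := Nat.lt_floor_add_one _
        rw [h0] at h5
        have := Real.add_one_le_exp (2 * L)
        push_cast at h5
        linarith
      have g1 : 2 ^ Nat.log 2 X ≤ X := Nat.pow_log_le_self 2 hX0
      have g2 : (2 : ℝ) ^ Nat.log 2 X ≤ Real.exp (2 * L) := le_trans (by exact_mod_cast g1) hXle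
      have g3 := Real.log_le_log (by positivity) g2
      rw [Real.log_pow, Real.log_exp] at g3
      have g4 := log_two_bounds.1
      have g5 : (0 : ℝ) ≤ Nat.log 2 X := Nat.cast_nonneg _
      nlinarith
    have hLA : (n : ℝ) ^ 2 * (Real.log u) ^ A ≤ L ^ A := by
      calc (n : ℝ) ^ 2 * (Real.log u) ^ A = (n : ℝ) ^ (2 : ℝ) * (Real.log u) ^ A := by norm_num
        _ ≤ (n : ℝ) ^ (A * κ) * (Real.log u) ^ A := by
            apply mul_le_mul_of_nonneg_right _ (by positivity)
            exact Real.rpow_le_rpow_of_exponent_le hn1 hA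
        _ = (((n : ℝ) ^ κ) * Real.log u) ^ A := by
            rw [mul_pow, ← Real.rpow_natCast ((n : ℝ) ^ κ), ← Real.rpow_mul (by positivity), mul_comm (κ)]
        _ ≤ L ^ A := by
            apply pow_le_pow_left₀ (by positivity)
            rw [hL]
            exact mul_le_mul_of_nonneg_right h2 hlu.le
    have hvol : volume ({θ : ℝ | u ≤ θ ∧ θ ≤ u ^ 2 ∧ bad n (⌈θ ^ B⌉₊ - 1)}) ≤
        ENNReal.ofReal (∑ l ∈ F, u ^ 2 / B * (1 / (l : ℝ))) := by
      calc volume ({θ : ℝ | u ≤ θ ∧ θ ≤ u ^ 2 ∧ bad n (⌈θ ^ B⌉₊ - 1)})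
          ≤ volume (⋃ l ∈ F, Set.Icc ((l : ℝ) ^ (1 / B)) (((l : ℝ) + 1) ^ (1 / B))) := measure_mono hsub
        _ ≤ ∑ l ∈ F, volume (Set.Icc ((l : ℝ) ^ (1 / B)) (((l : ℝ) + 1) ^ (1 / B))) := measure_biUnion_finset_le _ _
        _ ≤ ∑ l ∈ F, ENNReal.ofReal (u ^ 2 / B * (1 / (l : ℝ))) := by
            apply sum_le_sum
            intro l hl
            rw [Real.volume_Icc]
            exact ENNReal.ofReal_le_ofReal (hlen l hl)
        _ = ENNReal.ofReal (∑ l ∈ F, u ^ 2 / B * (1 / (l : ℝ))) := by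
            rw [ENNReal.ofReal_sum_of_nonneg]
            intro l _
            positivity
    refine hvol.trans (ENNReal.ofReal_le_ofReal ?_)
    rw [← mul_sum]
    calc u ^ 2 / B * ∑ l ∈ F, 1 / (l : ℝ) ≤ u ^ 2 / B * ((Nat.log 2 X + 1) * (2 * (1 / L ^ A))) := by gcongr
      _ ≤ u ^ 2 / B * ((4 * L) * (2 * (1 / L ^ A))) := by
          gcongr
          linarith
      _ = 8 * u ^ 2 * Real.log u * (1 / L ^ A) := by
          rw [hL]
          field_simp
          ring
      _ ≤ 8 * u ^ 2 * Real.log u * (1 / ((n : ℝ) ^ 2 * (Real.log u) ^ A)) := by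
          apply mul_le_mul_of_nonneg_left _ (by positivity)
          exact one_div_le_one_div_of_le (by positivity) hLA
      _ = K / (n : ℝ) ^ 2 := by
          rw [hK]
          field_simp
  have hsum : (∑' n, volume (S n)) ≠ ⊤ := by
    have h1 : Summable (fun n : ℕ => K / (n : ℝ) ^ 2) := by
      have := (Real.summable_one_div_nat_pow (p := 2)).2 (by norm_num)
      have h2 := this.mul_left K
      refine h2.congr fun n => ?_
      ring
    exact ne_top_of_le_ne_top h1.tsum_ofReal_ne_top (ENNReal.tsum_le_tsum hmeas)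
  filter_upwards [ae_eventually_notMem hsum] with θ hθ h0 h1
  filter_upwards [hθ, eventually_ge_atTop N0] with n hn hn0 hb'
  apply hn
  simp only [hS, if_pos hn0]
  exact ⟨h0, h1, hb'⟩

end Pool.Agent.H36.BF
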