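import Mathlib
import Pool.Agent.H36.BF.Pow

/-!
The powers of almost every number: real windows.
-/

set_option autoImplicit false

open Finset Filter MeasureTheory

namespace Pool.Agent.H36.BF

open Pool.Agent.H36.RW Pool.Agent.H373R2.T7

/-- integer window of a real window -/
lemma win (x H : ℝ) (hx : 0 < x) (hH : 1 ≤ H) : ∃ T : ℕ, H - 1 ≤ T ∧ (T : ℝ) ≤ H + 1 ∧
    ∀ z, Pool.Agent.H36.RW.roughIn z x H = Rg z (⌈x⌉₊ - 1) T := by
  set m := ⌈x⌉₊ - 1 with hm
  have hc1 : 0 < ⌈x⌉₊ := Nat.ceil_pos.2 hx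
  have hm1' : (m : ℝ) + 1 = ⌈x⌉₊ := by
    have : m + 1 = ⌈x⌉₊ := by omega
    exact_mod_cast this
  have hmx : (m : ℝ) < x := by
    have := Nat.ceil_lt_add_one hx.le
    linarith
  have hmx2 : x ≤ m + 1 := by
    rw [hm1']
    exact Nat.le_ceil _
  set M := ⌊x + H⌋₊ with hM
  have hM1 : (M : ℝ) ≤ x + H := Nat.floor_le (by positivity)
  have hM2 : x + H < M + 1 := Nat.lt_floor_add_one _
  have hmM : m ≤ M := by
    have : (m : ℝ) < M + 1 := by linarith
    exact_mod_cast Nat.lt_add_one_iff.1 (by exact_mod_cast this)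
  have hTr : ((M - m : ℕ) : ℝ) = M - m := by
    rw [Nat.cast_sub hmM]
  refine ⟨M - m, by linarith, by linarith, fun z => ?_⟩
  rw [roughIn_eq z x H hx hH]

/-- the law in a real window -/
lemma law_real (z m T : ℕ) (H ε : ℝ) (hε : 0 < ε) (hH : 1 + 2 / min ε 1 ≤ H) (hT1 : H - 1 ≤ T) (hT2 : (T : ℝ) ≤ H + 1)
    (hb : ¬ Bad (min ε 1 / 2) z m T) : |(Rg z m T : ℝ) - Vz z * H| ≤ ε * (Vz z * H) := by
  have hm0 : 0 < min ε 1 := lt_min hε one_pos
  have hm1 : min ε 1 ≤ 1 := min_le_right _ _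
  have hmε : min ε 1 ≤ ε := min_le_left _ _
  have hH0 : 0 < H := by
    have : 0 < 2 / min ε 1 := by positivity
    linarith
  set V := Vz z with hV
  have hV0 : 0 < V := Vz_pos z
  unfold Bad at hb
  rw [not_lt] at hb
  have e1 : (Rg z m T : ℝ) - V * H = ((Rg z m T : ℝ) - T * V) + (T - H) * V := by ring
  rw [e1]
  have h6 : |((T : ℝ) - H) * V| ≤ 1 * V := by
    rw [abs_mul, abs_of_pos hV0]
    apply mul_le_mul_of_nonneg_right _ hV0.le
    rw [abs_le]
    constructor <;> linarith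
  calc |((Rg z m T : ℝ) - T * V) + (T - H) * V| ≤ |(Rg z m T : ℝ) - T * V| + |((T : ℝ) - H) * V| := abs_add_le _ _
    _ ≤ min ε 1 / 2 * (T * V) + 1 * V := add_le_add hb h6
    _ ≤ min ε 1 / 2 * ((H + 1) * V) + 1 * V := by gcongr
    _ = (min ε 1 / 2 * (H + 1) + 1) * V := by ring
    _ ≤ (min ε 1 * H) * V := by
        apply mul_le_mul_of_nonneg_right _ hV0.le
        have h7 : min ε 1 * (1 + 2 / min ε 1) ≤ min ε 1 * H := mul_le_mul_of_nonneg_left hH hm0.le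
        have h8 : min ε 1 * (1 + 2 / min ε 1) = min ε 1 + 2 := by field_simp
        linarith
    _ ≤ (ε * H) * V := by gcongr
    _ = ε * (V * H) := by ring

/-- number of the prime factors of a rough number in a short window -/
lemma few_factors (x H L w : ℝ) (z m : ℕ) (hx : 1 < x) (hL : Real.log x = L) (hL1 : 1 ≤ L) (hHx : H ≤ x) (hw : 0 < w)
    (hz : 2 ≤ z) (hwz : w ≤ Real.log z) (h1 : x ≤ m) (h2 : (m : ℝ) ≤ x + H) (hr : Rough z m) :
    (m.primeFactorsList.length : ℝ) ≤ 2 * L / w := by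
  have hx0 : 0 < x := by linarith
  have hm0 : (0 : ℝ) < m := lt_of_lt_of_le hx0 h1
  have hm0' : 0 < m := by exact_mod_cast hm0
  have h3 := rough_length z m hz hm0' hr
  have h4 : Real.log m ≤ 2 * L := by
    have h5 : (m : ℝ) ≤ 2 * x := by linarith
    have h6 := Real.log_le_log hm0 h5
    rw [Real.log_mul (by norm_num) hx0.ne', hL] at h6
    have := log_two_bounds.2
    linarith
  rw [le_div_iff₀ hw]
  have h5 : (m.primeFactorsList.length : ℝ) * w ≤ (m.primeFactorsList.length : ℝ) * Real.log z :=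
    mul_le_mul_of_nonneg_left hwz (Nat.cast_nonneg _)
  linarith

/-- primes are rough -/
lemma primes_le (x H : ℝ) (z : ℕ) (hz : (z : ℝ) < x) :
    ((Icc ⌈x⌉₊ ⌊x + H⌋₊).filter Nat.Prime).card ≤ Pool.Agent.H36.RW.roughIn z x H := by
  classical
  unfold Pool.Agent.H36.RW.roughIn
  apply card_le_card
  intro p hp
  rw [mem_filter, mem_Icc] at hp ⊢
  refine ⟨hp.1, ?_⟩
  intro q hq hd
  have h2 := (Nat.prime_dvd_prime_iff_eq hq hp.2).1 hd
  have h3 : x ≤ p := (Nat.le_ceil x).trans (by exact_mod_cast hp.1.1)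
  have h4 : (z : ℝ) < q := by
    rw [h2]
    linarith
  exact_mod_cast h4

lemma rough_floor (y : ℝ) (hy : 0 ≤ y) (m : ℕ) : (∀ q : ℕ, q.Prime → q ∣ m → y < q) ↔ Rough ⌊y⌋₊ m := by
  unfold Rough
  constructor
  · intro h1 q hq hd
    exact (Nat.floor_lt hy).2 (h1 q hq hd)
  · intro h1 q hq hd
    exact (Nat.floor_lt hy).1 (h1 q hq hd)

/-- consequences of a law at the level `exp w` in real windows -/
lemma conseq (x H L w c1 C1 cc CC : ℝ) (R z : ℕ) (hL1 : 1 ≤ L) (hH : 0 < H) (hw : 0 < w) (hz : z = ⌊Real.exp w⌋₊)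
    (hw3 : 3 ≤ Real.exp (w / 2)) (hc1 : 0 < c1) (hC1 : 0 < C1) (hcc : 0 < cc) (hCC : 0 < CC)
    (hVl : ∀ x : ℕ, 2 ≤ x → c1 / Real.log x ≤ Vz x) (hVu : ∀ x : ℕ, 2 ≤ x → Vz x ≤ C1 / Real.log x)
    (h1 : cc * (Vz z * H) ≤ R) (h2 : (R : ℝ) ≤ CC * (Vz z * H)) :
    2 ≤ z ∧ w / 2 ≤ Real.log z ∧ cc * c1 * (H / w) ≤ R ∧ (R : ℝ) ≤ 2 * CC * C1 * (H / w) := by
  have hlog1 : w / 2 ≤ Real.log z := by
    rw [hz]
    exact log_floor_ge w hw3
  have hlog0 : 0 < Real.log z := lt_of_lt_of_le (by positivity) hlog1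
  have hz2 : 2 ≤ z := by
    by_contra h1
    push Not at h1
    have h2 : z = 0 ∨ z = 1 := by omega
    rcases h2 with h2 | h2 <;> rw [h2] at hlog0 <;> simp at hlog0
  have hlog2 : Real.log z ≤ w := by
    rw [← Real.log_exp w]
    apply Real.log_le_log (by exact_mod_cast (by omega : 0 < z))
    rw [hz]
    exact Nat.floor_le (Real.exp_pos _).le
  refine ⟨hz2, hlog1, ?_, ?_⟩
  · have g1 : c1 / w ≤ Vz z := (div_le_div_of_nonneg_left hc1.le hlog0 hlog2).trans (hVl z hz2)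
    calc cc * c1 * (H / w) = cc * (c1 / w * H) := by ring
      _ ≤ cc * (Vz z * H) := by gcongr
      _ ≤ R := h1
  · have g1 : Vz z ≤ C1 / (w / 2) := (hVu z hz2).trans (div_le_div_of_nonneg_left hC1.le (by positivity) hlog1)
    calc (R : ℝ) ≤ CC * (Vz z * H) := h2
      _ ≤ CC * (C1 / (w / 2) * H) := by gcongr
      _ = 2 * CC * C1 * (H / w) := by
          field_simp

end Pool.Agent.H36.BF
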